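import Mathlib

set_option autoImplicit false

/-!
ARTIN EDGE (MP_bf61d2_nt), module B: the inequality of Bessel and Selberg with complex phases.
-/

namespace Pool.Agent.Lib.MP_bf61d2_nt.Artin

open Filter Topology

/-- B -/
theorem bessel_complex {ι τ : Type*} (w : ι → ℝ) (c : ι → ℝ) (e : τ → ι → ℂ) (T : Finset τ)
    {P B D : ℝ} (hP : 0 ≤ P) (hw : Summable w) (hw0 : ∀ v, 0 ≤ w v) (hc : ∀ v, |c v| ≤ B)
    (he : ∀ t v, ‖e t v‖ ≤ D)
    (hG : ∀ t ∈ T, ∑ t' ∈ T, ‖∑' v, (w v : ℂ) * (e t v * (starRingEnd ℂ) (e t' v))‖ ≤ P) :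
    ∑ t ∈ T, ‖∑' v, (w v : ℂ) * (c v * e t v)‖ ^ 2 ≤ P * ∑' v, w v * c v ^ 2 := by
  classical
  set X : τ → ℂ := fun t => ∑' v, (w v : ℂ) * (c v * e t v) with hX
  set G : τ → τ → ℂ := fun t t' => ∑' v, (w v : ℂ) * (e t v * (starRingEnd ℂ) (e t' v)) with hGd
  set Q : ℝ := ∑' v, w v * c v ^ 2 with hQ
  set S₀ : ℝ := ∑ t ∈ T, ‖X t‖ ^ 2 with hS
  -- summability
  have hs1 : ∀ t, Summable fun v => (w v : ℂ) * (c v * e t v) := by
    intro t
    refine Summable.of_norm_bounded (g := fun v => w v * (B * D)) (hw.mul_right _) fun v => ?_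
    rw [norm_mul, norm_mul, Complex.norm_real, Complex.norm_real, Real.norm_eq_abs,
      Real.norm_eq_abs, abs_of_nonneg (hw0 v)]
    exact mul_le_mul_of_nonneg_left (mul_le_mul (hc v) (he t v) (norm_nonneg _)
      ((abs_nonneg _).trans (hc v))) (hw0 v)
  have hs2 : ∀ t t', Summable fun v => (w v : ℂ) * (e t v * (starRingEnd ℂ) (e t' v)) := by
    intro t t'
    refine Summable.of_norm_bounded (g := fun v => w v * (D * D)) (hw.mul_right _) fun v => ?_
    rw [norm_mul, norm_mul, Complex.norm_real, RCLike.norm_conj, Real.norm_eq_abs,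
      abs_of_nonneg (hw0 v)]
    exact mul_le_mul_of_nonneg_left (mul_le_mul (he t v) (he t' v) (norm_nonneg _)
      ((norm_nonneg _).trans (he t v))) (hw0 v)
  have hs3 : Summable fun v => w v * c v ^ 2 := by
    refine (hw.mul_right (B ^ 2)).of_nonneg_of_le (fun v => mul_nonneg (hw0 v) (sq_nonneg _))
      fun v => mul_le_mul_of_nonneg_left ?_ (hw0 v)
    rw [← sq_abs]
    exact pow_le_pow_left₀ (abs_nonneg _) (hc v) 2
  have hQ0 : 0 ≤ Q := tsum_nonneg fun v => mul_nonneg (hw0 v) (sq_nonneg _)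
  -- the Gram bound
  have hGsymm : ∀ t t', ‖G t t'‖ = ‖G t' t‖ := by
    intro t t'
    have h1 : G t' t = (starRingEnd ℂ) (G t t') := by
      rw [hGd]
      simp only
      rw [Complex.conj_tsum]
      refine tsum_congr fun v => ?_
      simp only [map_mul, Complex.conj_ofReal, Complex.conj_conj]
      ring
    rw [h1, RCLike.norm_conj]
  -- the vector y
  set y : ι → ℂ := fun v => ∑ t ∈ T, (starRingEnd ℂ) (X t) * e t v with hy
  have key : ∀ lam : ℝ, 0 ≤ lam ^ 2 * Q - 2 * lam * S₀ + P * S₀ := by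
    intro lam
    have hexp : ∀ v, w v * ‖((lam * c v : ℝ) : ℂ) - y v‖ ^ 2 =
        lam ^ 2 * (w v * c v ^ 2) - 2 * lam * (∑ t ∈ T, (starRingEnd ℂ) (X t) *
          ((w v : ℂ) * (c v * e t v))).re + (∑ t ∈ T, ∑ t' ∈ T,
          ((starRingEnd ℂ) (X t) * X t') *
            ((w v : ℂ) * (e t v * (starRingEnd ℂ) (e t' v)))).re := by
      intro v
      have h1 : ‖((lam * c v : ℝ) : ℂ) - y v‖ ^ 2 = (lam * c v) ^ 2 - 2 * (lam * c v) * (y v).re +
          (y v * (starRingEnd ℂ) (y v)).re := by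
        rw [← Complex.normSq_eq_norm_sq, Complex.normSq_sub, Complex.mul_conj, Complex.ofReal_re,
          Complex.normSq_ofReal, Complex.re_ofReal_mul, Complex.conj_re]
        ring
      have h2 : (∑ t ∈ T, (starRingEnd ℂ) (X t) * ((w v : ℂ) * (c v * e t v))) =
          ((w v * c v : ℝ) : ℂ) * y v := by
        rw [hy, Finset.mul_sum]
        refine Finset.sum_congr rfl fun t _ => ?_
        push_cast
        ring
      have h3 : (∑ t ∈ T, ∑ t' ∈ T, ((starRingEnd ℂ) (X t) * X t') *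
            ((w v : ℂ) * (e t v * (starRingEnd ℂ) (e t' v)))) =
          (w v : ℂ) * (y v * (starRingEnd ℂ) (y v)) := by
        rw [hy]
        simp only
        rw [map_sum, Finset.sum_mul_sum, Finset.mul_sum]
        refine Finset.sum_congr rfl fun t _ => ?_
        rw [Finset.mul_sum]
        refine Finset.sum_congr rfl fun t' _ => ?_
        rw [map_mul, Complex.conj_conj]
        ring
      rw [h1, h2, h3, Complex.re_ofReal_mul, Complex.re_ofReal_mul]
      ring
    have hsA : Summable fun v => ∑ t ∈ T, (starRingEnd ℂ) (X t) * ((w v : ℂ) * (c v * e t v)) :=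
      summable_sum fun t _ => (hs1 t).mul_left _
    have hsB : Summable fun v => ∑ t ∈ T, ∑ t' ∈ T, ((starRingEnd ℂ) (X t) * X t') *
        ((w v : ℂ) * (e t v * (starRingEnd ℂ) (e t' v))) :=
      summable_sum fun t _ => summable_sum fun t' _ => (hs2 t t').mul_left _
    have hnn : 0 ≤ ∑' v, w v * ‖((lam * c v : ℝ) : ℂ) - y v‖ ^ 2 :=
      tsum_nonneg fun v => mul_nonneg (hw0 v) (sq_nonneg _)
    have hA : ∑' v, ∑ t ∈ T, (starRingEnd ℂ) (X t) * ((w v : ℂ) * (c v * e t v)) =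
        ((S₀ : ℝ) : ℂ) := by
      rw [Summable.tsum_finsetSum fun t _ => (hs1 t).mul_left _, hS, Complex.ofReal_sum]
      refine Finset.sum_congr rfl fun t _ => ?_
      rw [tsum_mul_left, ← Complex.normSq_eq_norm_sq, ← Complex.normSq_eq_conj_mul_self]
    have hB : ∑' v, ∑ t ∈ T, ∑ t' ∈ T, ((starRingEnd ℂ) (X t) * X t') *
        ((w v : ℂ) * (e t v * (starRingEnd ℂ) (e t' v))) =
        ∑ t ∈ T, ∑ t' ∈ T, ((starRingEnd ℂ) (X t) * X t') * G t t' := by
      rw [Summable.tsum_finsetSum fun t _ => summable_sum fun t' _ => (hs2 t t').mul_left _]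
      refine Finset.sum_congr rfl fun t _ => ?_
      rw [Summable.tsum_finsetSum fun t' _ => (hs2 t t').mul_left _]
      refine Finset.sum_congr rfl fun t' _ => ?_
      rw [tsum_mul_left]
    rw [tsum_congr hexp, Summable.tsum_add, Summable.tsum_sub, tsum_mul_left, tsum_mul_left,
      ← Complex.re_tsum hsA, ← Complex.re_tsum hsB, hA, hB, Complex.ofReal_re] at hnn
    · refine hnn.trans ?_
      have hle : (∑ t ∈ T, ∑ t' ∈ T, ((starRingEnd ℂ) (X t) * X t') * G t t').re ≤ P * S₀ := by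
        refine (Complex.re_le_norm _).trans ?_
        refine (norm_sum_le _ _).trans ?_
        refine (Finset.sum_le_sum fun t _ => norm_sum_le _ _).trans ?_
        have h4 : ∀ t ∈ T, ∀ t' ∈ T, ‖((starRingEnd ℂ) (X t) * X t') * G t t'‖ ≤
            (‖X t‖ ^ 2 / 2) * ‖G t t'‖ + (‖X t'‖ ^ 2 / 2) * ‖G t' t‖ := by
          intro t _ t' _
          rw [norm_mul, norm_mul, RCLike.norm_conj, ← hGsymm t t', ← add_mul]
          refine mul_le_mul_of_nonneg_right ?_ (norm_nonneg _)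
          nlinarith [sq_nonneg (‖X t‖ - ‖X t'‖)]
        refine (Finset.sum_le_sum fun t ht => Finset.sum_le_sum fun t' ht' => h4 t ht t' ht').trans ?_
        simp only [Finset.sum_add_distrib]
        have h5 : ∑ t ∈ T, ∑ t' ∈ T, ‖X t‖ ^ 2 / 2 * ‖G t t'‖ ≤ P * S₀ / 2 := by
          rw [hS, Finset.mul_sum, Finset.sum_div]
          refine Finset.sum_le_sum fun t ht => ?_
          rw [← Finset.mul_sum]
          have := mul_le_mul_of_nonneg_left (hG t ht) (show 0 ≤ ‖X t‖ ^ 2 / 2 by positivity)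
          linarith
        have h6 : ∑ t ∈ T, ∑ t' ∈ T, ‖X t'‖ ^ 2 / 2 * ‖G t' t‖ ≤ P * S₀ / 2 := by
          rw [Finset.sum_comm]
          exact h5
        linarith
      linarith
    · exact hs3.mul_left _
    · exact (Complex.hasSum_re hsA.hasSum).summable.mul_left _
    · exact (hs3.mul_left _).sub ((Complex.hasSum_re hsA.hasSum).summable.mul_left _)
    · exact (Complex.hasSum_re hsB.hasSum).summable
  have hS0 : 0 ≤ S₀ := Finset.sum_nonneg fun t _ => sq_nonneg _
  by_contra hcon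
  rw [not_le] at hcon
  have hpos : 0 < S₀ := lt_of_le_of_lt (mul_nonneg hP hQ0) hcon
  rcases hP.eq_or_lt with hP0 | hP0
  · have h1 := key (S₀ / (Q + 1))
    rw [← hP0, zero_mul, add_zero] at h1
    have hQ1 : 0 < Q + 1 := by linarith
    have h2 : (S₀ / (Q + 1)) ^ 2 * Q - 2 * (S₀ / (Q + 1)) * S₀ =
        -(S₀ ^ 2 * (Q + 2)) / (Q + 1) ^ 2 := by
      field_simp
      ring
    rw [h2] at h1
    have h3 : 0 < S₀ ^ 2 * (Q + 2) / (Q + 1) ^ 2 := by positivity
    rw [neg_div] at h1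
    linarith
  · have h1 := key P
    nlinarith [mul_pos hP0 (sub_pos.2 hcon)]

end Pool.Agent.Lib.MP_bf61d2_nt.Artin
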