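import Mathlib
import Pool.Agent.Lib.MP_bf61d2_nt.Trim.LocalCurve
import Pool.Agent.Lib.MP_bf61d2_nt.Trim.Places
import Pool.Agent.Lib.MP_bf61d2_nt.Trim.PrimeSum
import Pool.Agent.Lib.MP_bf61d2_nt.Trim.Quad

set_option autoImplicit false

/-!
Artin twists at the edge (MP_bf61d2_nt): definitions.
-/

namespace NumberField
end NumberField

namespace Pool.Agent.Lib.MP_bf61d2_nt.Perm
end Pool.Agent.Lib.MP_bf61d2_nt.Perm

namespace Pool.Agent.Lib.MP_bf61d2_nt.Artin

open NumberField IsDedekindDomain Filter Topology Polynomial Module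

open Pool.Agent.Lib.MP_bf61d2_nt.Perm

/-- The phase `n ^ (-i u)`. -/
noncomputable def ph (u : ℝ) (n : ℕ) : ℂ := Complex.exp (((-(u * Real.log n) : ℝ) : ℂ) * Complex.I)

/-- The weighted sum over the places. -/
noncomputable def SC {K : Type*} [Field K] [NumberField K] (σ : ℝ)
    (f : HeightOneSpectrum (𝓞 K) → ℂ) : ℂ := ∑' v, (wp σ v : ℂ) * f v

/-- The Dirichlet series of the ideals `I` with the weights `φ (N I)`. -/
noncomputable def LF (K : Type*) [Field K] [NumberField K] (φ : ℕ → ℂ) (s : ℂ) : ℂ :=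
  LSeries (fun n => (Nat.card {I : Ideal (𝓞 K) // Ideal.absNorm I = n} : ℂ) * φ n) s

/-- `g` is a Frobenius element at `v`, for some place of `M` above `v`. -/
def IsFr {K M : Type*} [Field K] [NumberField K] [Field M] [NumberField M] [Algebra K M]
    (v : HeightOneSpectrum (𝓞 K)) (g : Gal(M/K)) : Prop :=
  ∃ P : HeightOneSpectrum (𝓞 M), dn (K := K) P = v ∧ ∀ x : 𝓞 M, g • x - x ^ nm v ∈ P.asIdeal

/-- A function constant on conjugacy classes. -/
def IsClassFn {G : Type*} [Group G] (f : G → ℂ) : Prop := ∀ g h : G, f (h * g * h⁻¹) = f g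

/-- The elements `g` for which a homomorphism `c` to an abelian group separates `g` and the other
powers of `g`, up to sign. -/
def Star {G A : Type*} [Group G] [CommRing A] (c : G →* Aˣ) (g : G) : Prop :=
  ∀ y ∈ Subgroup.zpowers g, (c y = c g ∨ c y = -c g) → y = g

/-- The Euler product of the twist of `E` by the representation `ρ`, over the places outside `S`. -/
noncomputable def LTw {K M : Type*} [Field K] [NumberField K] [Field M] [Algebra K M]
    {V : Type*} [AddCommGroup V] [Module ℂ V] (E : WeierstrassCurve K)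
    (ρ : Representation ℂ Gal(M/K) V) (Fr : HeightOneSpectrum (𝓞 K) → Gal(M/K))
    (S : Set (HeightOneSpectrum (𝓞 K))) (s : ℂ) : ℂ :=
  ∏' v : {v : HeightOneSpectrum (𝓞 K) // v ∉ S},
    (LinearMap.det (aeval (((nm v.1 : ℂ) ^ (-s)) • ρ (Fr v.1)) (lp E v.1)))⁻¹

end Pool.Agent.Lib.MP_bf61d2_nt.Artin
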