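import Mathlib
import Pool.Agent.Lib.MP_bf61d2_nt.Trim.Artin.Defs63

set_option autoImplicit false

/-!
ARTIN EDGE (MP_bf61d2_nt), module C: the theorem of Chebotarev with the twists `n ^ (-i u)`.
-/

namespace NumberField
end NumberField

namespace Pool.Agent.Lib.MP_bf61d2_nt.Perm
end Pool.Agent.Lib.MP_bf61d2_nt.Perm

namespace Pool.Agent.Lib.MP_bf61d2_nt.Artin

open NumberField IsDedekindDomain Filter Topology Polynomial Module

open Pool.Agent.Lib.MP_bf61d2_nt.Perm

open scoped Classical nonZeroDivisors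

namespace X38

lemma star_conj {G A : Type*} [Group G] [CommRing A] {c : G →* Aˣ} {g g' : G} (h : IsConj g g')
    (hg : Star c g) : Star c g' := by
  obtain ⟨a, rfl⟩ := isConj_iff.1 h
  intro y hy hc
  have hca : ∀ z : G, c (a⁻¹ * z * a) = c z := fun z => by
    rw [map_mul, map_mul, map_inv, mul_comm, ← mul_assoc, mul_inv_cancel, one_mul]
  have hca' : c (a * g * a⁻¹) = c g := by
    rw [map_mul, map_mul, map_inv, mul_comm (c a), mul_assoc, mul_inv_cancel, mul_one]
  have h1 : a⁻¹ * y * a ∈ Subgroup.zpowers g := by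
    obtain ⟨k, rfl⟩ := Subgroup.mem_zpowers_iff.1 hy
    rw [Subgroup.mem_zpowers_iff]
    refine ⟨k, ?_⟩
    rw [conj_zpow]
    group
  have h2 := hg _ h1 (by rw [hca, ← hca']; exact hc)
  rw [← h2]
  group

lemma isConj_class {G : Type*} [Group G] {f : G → ℂ} (hf : IsClassFn f) {g h : G}
    (hgh : IsConj g h) : f g = f h := by
  obtain ⟨a, rfl⟩ := isConj_iff.1 hgh
  exact (hf g a).symm

section

variable {K L : Type*} [Field K] [NumberField K] [Field L] [NumberField L] [Algebra K L]
  [IsGalois K L] [Fintype Gal(L/K)]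

end

lemma sum_comp_surj {G G' : Type*} [Group G] [Group G'] [Fintype G] [Fintype G'] (φ : G' →* G)
    (hφ : Function.Surjective φ) (f : G → ℂ) :
    (∑ x, f (φ x)) / (Fintype.card G' : ℂ) = (∑ g, f g) / (Fintype.card G : ℂ) := by
  set k : ℕ := (Finset.univ.filter fun x : G' => φ x = 1).card with hk
  have hfib : ∀ g : G, (Finset.univ.filter fun x : G' => φ x = g).card = k := fun g => by
    rw [hk]
    exact MonoidHom.card_fiber_eq_of_mem_range φ (hφ g) (hφ 1)
  have h1 : ∀ h : G → ℂ, ∑ x, h (φ x) = k * ∑ g, h g := by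
    intro h
    rw [← Finset.sum_fiberwise Finset.univ φ (fun x => h (φ x)), Finset.mul_sum]
    refine Finset.sum_congr rfl fun g _ => ?_
    have h2 : ∀ x ∈ Finset.univ.filter (fun x : G' => φ x = g), h (φ x) = h g := by
      intro x hx
      rw [Finset.mem_filter] at hx
      rw [hx.2]
    rw [Finset.sum_congr rfl h2, Finset.sum_const, hfib, nsmul_eq_mul]
  have h2 := h1 (fun _ => 1)
  simp only [Finset.sum_const, Finset.card_univ, nsmul_eq_mul, mul_one] at h2
  have h3 : (Fintype.card G : ℂ) ≠ 0 := Nat.cast_ne_zero.mpr Fintype.card_ne_zero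
  have h4 : (Fintype.card G' : ℂ) ≠ 0 := Nat.cast_ne_zero.mpr Fintype.card_ne_zero
  have h5 : (k : ℂ) ≠ 0 := by
    intro h
    rw [h, zero_mul] at h2
    exact h4 h2
  rw [h1 f, h2]
  field_simp

section

variable {K M : Type*} [Field K] [NumberField K] [Field M] [NumberField M] [Algebra K M]
  [IsGalois K M] [Fintype Gal(M/K)]

end

end X38

section

variable {K M : Type*} [Field K] [NumberField K] [Field M] [NumberField M] [Algebra K M]
  [IsGalois K M] [Fintype Gal(M/K)]

end

end Pool.Agent.Lib.MP_bf61d2_nt.Artin
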