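import Mathlib
import Pool.Agent.Lib.MP_bf61d2_nt.Trim.Perm.Defs

set_option autoImplicit false

/-!
Artin twists at the edge: a single elliptic curve with inequivalent conjugate twists.
-/

namespace NumberField
end NumberField

namespace Pool.Agent.Lib.MP_bf61d2_nt.Perm
end Pool.Agent.Lib.MP_bf61d2_nt.Perm

namespace Pool.Agent.Lib.MP_bf61d2_nt.Artin

open NumberField IsDedekindDomain Filter Topology Polynomial Module

open Pool.Agent.Lib.MP_bf61d2_nt.Perm

section Fx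

variable {K M : Type*} [Field K] [Field M] [Algebra K M]

lemma fx_conj (F : IntermediateField K M) (g h : Gal(M/K)) : fx F (h * g * h⁻¹) = fx F g := by
  have hinv : ∀ x : M, h⁻¹ (h x) = x := fun x => by
    rw [← AlgEquiv.mul_apply, inv_mul_cancel, AlgEquiv.one_apply]
  have hinv' : ∀ x : M, h (h⁻¹ x) = x := fun x => by
    rw [← AlgEquiv.mul_apply, mul_inv_cancel, AlgEquiv.one_apply]
  refine Nat.card_congr ⟨fun φ => ⟨((h⁻¹ : Gal(M/K)) : M →ₐ[K] M).comp φ.1, ?_⟩,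
    fun φ => ⟨(h : M →ₐ[K] M).comp φ.1, ?_⟩, ?_, ?_⟩
  · refine AlgHom.ext fun x => ?_
    have h2 : (h * g * h⁻¹) (φ.1 x) = φ.1 x := DFunLike.congr_fun φ.2 x
    rw [AlgEquiv.mul_apply, AlgEquiv.mul_apply] at h2
    show g (h⁻¹ (φ.1 x)) = h⁻¹ (φ.1 x)
    rw [← hinv (g (h⁻¹ (φ.1 x))), h2]
  · refine AlgHom.ext fun x => ?_
    have h2 : g (φ.1 x) = φ.1 x := DFunLike.congr_fun φ.2 x
    show (h * g * h⁻¹) (h (φ.1 x)) = h (φ.1 x)
    rw [AlgEquiv.mul_apply, AlgEquiv.mul_apply, hinv, h2]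
  · intro φ
    exact Subtype.ext (AlgHom.ext fun x => hinv' (φ.1 x))
  · intro φ
    exact Subtype.ext (AlgHom.ext fun x => hinv (φ.1 x))

end Fx

section

variable {K M : Type*} [Field K] [NumberField K] [Field M] [NumberField M] [Algebra K M]
  [IsGalois K M] [Fintype Gal(M/K)]

end

end Pool.Agent.Lib.MP_bf61d2_nt.Artin
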