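import Mathlib
import Pool.Agent.Lib.MP_bf61d2_nt.Trim.Artin.Defs63

set_option autoImplicit false

/-!
Artin twists at the edge: the zonoid bound.
-/

namespace NumberField
end NumberField

namespace Pool.Agent.Lib.MP_bf61d2_nt.Perm
end Pool.Agent.Lib.MP_bf61d2_nt.Perm

namespace Pool.Agent.Lib.MP_bf61d2_nt.Artin

open NumberField IsDedekindDomain Filter Topology Polynomial Module

open Pool.Agent.Lib.MP_bf61d2_nt.Perm

section D1

variable {K M : Type*} [Field K] [NumberField K] [Field M] [NumberField M] [Algebra K M]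

lemma norm_ph63 (u : ℝ) (n : ℕ) : ‖ph u n‖ = 1 := by
  rw [ph, Complex.norm_exp_ofReal_mul_I]

variable [IsGalois K M] [Fintype Gal(M/K)]

end D1

end Pool.Agent.Lib.MP_bf61d2_nt.Artin
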