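import Mathlib
import Pool.Agent.Lib.MP_bf61d2_nt.Trim.Artin.Defs63

set_option autoImplicit false

/-!
ARTIN EDGE (MP_bf61d2_nt), module D2: the Bessel inequality over pairwise orthogonal class functions
and shifts, from equidistribution of the Frobenius elements.
-/

namespace NumberField
end NumberField

namespace Pool.Agent.Lib.MP_bf61d2_nt.Perm
end Pool.Agent.Lib.MP_bf61d2_nt.Perm

namespace Pool.Agent.Lib.MP_bf61d2_nt.Artin

open NumberField IsDedekindDomain Filter Topology

open Pool.Agent.Lib.MP_bf61d2_nt.Perm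

variable {K M : Type*} [Field K] [NumberField K] [Field M] [NumberField M] [Algebra K M]
  [Fintype Gal(M/K)]

namespace D2x90

omit [NumberField K] [Fintype Gal(M/K)] in
lemma norm_ph (u : ℝ) (n : ℕ) : ‖ph u n‖ = 1 := by
  unfold ph
  exact Complex.norm_exp_ofReal_mul_I _

omit [NumberField K] [Fintype Gal(M/K)] in
lemma ph_mul_conj (s t : ℝ) (n : ℕ) : ph s n * (starRingEnd ℂ) (ph t n) = ph (s - t) n := by
  unfold ph
  rw [← Complex.exp_conj, map_mul, Complex.conj_ofReal, Complex.conj_I, ← Complex.exp_add]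
  congr 1
  push_cast
  ring

omit [NumberField K] [Fintype Gal(M/K)] in
lemma ph_zero (n : ℕ) : ph 0 n = 1 := by
  unfold ph
  simp

end D2x90

end Pool.Agent.Lib.MP_bf61d2_nt.Artin
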