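import Mathlib
import Pool.Agent.Lib.MP_bf61d2_nt.Trim.Artin.Defs63

set_option autoImplicit false

/-!
ARTIN EDGE (MP_bf61d2_nt), module E: the cyclotomic extension.
-/

namespace NumberField
end NumberField

namespace Pool.Agent.Lib.MP_bf61d2_nt.Perm
end Pool.Agent.Lib.MP_bf61d2_nt.Perm

namespace Pool.Agent.Lib.MP_bf61d2_nt.Artin

open NumberField IsDedekindDomain Filter Topology Polynomial Module

open Pool.Agent.Lib.MP_bf61d2_nt.Perm

open scoped Classical nonZeroDivisors

namespace E38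

/-- If `N` does not divide `o` and `N ^ k` divides `o * u`, then `o * p ^ k` divides `o * u` for a
prime divisor `p` of `N`. -/
lemma arith {N k o s : ℕ} (hN : N ≠ 0) (hk : k ≠ 0) (hs : s ≠ 0) (hos : o ∣ s) (hNs : N ^ k ∣ s)
    (h : ¬ N ∣ o) : ∃ p ∈ N.primeFactors, o ∣ s / p ^ k ∧ p ^ k ∣ s := by
  rw [Nat.dvd_iff_prime_pow_dvd_dvd] at h
  push Not at h
  obtain ⟨p, a, hp, haN, hao⟩ := h
  have ho : o ≠ 0 := by rintro rfl; exact hs (Nat.eq_zero_of_zero_dvd hos)
  have ha : a ≠ 0 := by rintro rfl; simp at hao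
  have hpN : p ∣ N := (dvd_pow_self p ha).trans haN
  have h1 : p ^ k ∣ s := (pow_dvd_pow_of_dvd hpN k).trans hNs
  refine ⟨p, Nat.mem_primeFactors.mpr ⟨hp, hpN, hN⟩, ?_, h1⟩
  -- `o = p ^ b * o'`
  obtain ⟨b, o', ho', rfl⟩ := Nat.exists_eq_pow_mul_and_not_dvd ho p hp.ne_one
  have hb : b < a := by
    by_contra hb
    push Not at hb
    exact hao ((pow_dvd_pow p hb).trans (Dvd.intro _ rfl))
  obtain ⟨u, rfl⟩ := hos
  have h2 : p ^ (a * k) ∣ p ^ b * o' * u := by
    rw [pow_mul]
    exact (pow_dvd_pow_of_dvd haN k).trans hNs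
  have hak : b + k ≤ a * k := by
    obtain ⟨k', rfl⟩ := Nat.exists_eq_succ_of_ne_zero hk
    nlinarith
  have h3 : p ^ b * p ^ (a * k - b) ∣ p ^ b * (o' * u) := by
    rw [← pow_add, Nat.add_sub_cancel' (by omega), ← mul_assoc]
    exact h2
  have h4 : p ^ (a * k - b) ∣ o' * u := Nat.dvd_of_mul_dvd_mul_left (pow_pos hp.pos b) h3
  have h5 : p ^ (a * k - b) ∣ u := by
    refine Nat.Coprime.dvd_of_dvd_mul_left ?_ h4
    exact (Nat.Coprime.pow_left _ ((Nat.Prime.coprime_iff_not_dvd hp).mpr ho'))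
  have h6 : p ^ k ∣ u := (pow_dvd_pow p (by omega)).trans h5
  obtain ⟨w, rfl⟩ := h6
  refine ⟨w, ?_⟩
  rw [show p ^ b * o' * (p ^ k * w) = p ^ k * (p ^ b * o' * w) by ring,
    Nat.mul_div_cancel_left _ (pow_pos hp.pos k)]

/-- In a cyclic group of order divisible by `N ^ k` few elements have an order that is not
divisible by `N`. -/
lemma card_not_dvd {C : Type*} [Group C] [Fintype C] [IsCyclic C] {N k : ℕ} (hN : N ≠ 0)
    (hk : k ≠ 0) (hNs : N ^ k ∣ Fintype.card C) :
    ((Finset.univ.filter fun c : C => ¬ N ∣ orderOf c).card : ℝ) ≤ N / 2 ^ k * Fintype.card C := by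
  have h1 : (Finset.univ.filter fun c : C => ¬ N ∣ orderOf c) ⊆
      N.primeFactors.biUnion fun p => Finset.univ.filter fun c : C =>
        p ^ k ∣ Fintype.card C ∧ c ^ (Fintype.card C / p ^ k) = 1 := by
    intro c hc
    rw [Finset.mem_filter] at hc
    obtain ⟨p, hp, h2, h3⟩ := arith hN hk Fintype.card_ne_zero (orderOf_dvd_card (x := c)) hNs hc.2
    rw [Finset.mem_biUnion]
    exact ⟨p, hp, Finset.mem_filter.mpr ⟨Finset.mem_univ _, h3, orderOf_dvd_iff_pow_eq_one.mp h2⟩⟩
  have h2 : ∀ p ∈ N.primeFactors, ((Finset.univ.filter fun c : C =>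
        p ^ k ∣ Fintype.card C ∧ c ^ (Fintype.card C / p ^ k) = 1).card : ℝ) ≤
      Fintype.card C / 2 ^ k := by
    intro p hp
    have hp' : p.Prime := Nat.prime_of_mem_primeFactors hp
    by_cases hd : p ^ k ∣ Fintype.card C
    · have h3 : (Finset.univ.filter fun c : C =>
          p ^ k ∣ Fintype.card C ∧ c ^ (Fintype.card C / p ^ k) = 1).card ≤
          Fintype.card C / p ^ k := by
        refine le_trans (Finset.card_le_card ?_) (IsCyclic.card_pow_eq_one_le (α := C)
          (n := Fintype.card C / p ^ k)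
          (Nat.div_pos (Nat.le_of_dvd Fintype.card_pos hd) (pow_pos hp'.pos k)))
        intro c hc
        rw [Finset.mem_filter] at hc ⊢
        exact ⟨hc.1, hc.2.2⟩
      have h4 : ((Fintype.card C / p ^ k : ℕ) : ℝ) = Fintype.card C / (p : ℝ) ^ k := by
        rw [Nat.cast_div hd (by exact_mod_cast (pow_pos hp'.pos k).ne')]
        push_cast
        rfl
      refine le_trans (Nat.cast_le.mpr h3) ?_
      rw [h4]
      have h5 : (2 : ℝ) ^ k ≤ (p : ℝ) ^ k := by
        have : (2 : ℝ) ≤ p := by exact_mod_cast hp'.two_le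
        gcongr
      gcongr
    · have h3 : (Finset.univ.filter fun c : C =>
          p ^ k ∣ Fintype.card C ∧ c ^ (Fintype.card C / p ^ k) = 1) = ∅ := by
        refine Finset.filter_eq_empty_iff.mpr fun c _ h => hd h.1
      rw [h3]
      simp
      positivity
  have h3 : (N.primeFactors.card : ℝ) ≤ N := by
    have h4 : N.primeFactors ⊆ Finset.Icc 1 N := by
      intro p hp
      rw [Finset.mem_Icc]
      exact ⟨(Nat.prime_of_mem_primeFactors hp).one_lt.le,
        Nat.le_of_dvd (Nat.pos_of_ne_zero hN) (Nat.dvd_of_mem_primeFactors hp)⟩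
    have h5 := Finset.card_le_card h4
    rw [Nat.card_Icc] at h5
    exact_mod_cast (by omega : N.primeFactors.card ≤ N)
  calc ((Finset.univ.filter fun c : C => ¬ N ∣ orderOf c).card : ℝ)
      ≤ ∑ p ∈ N.primeFactors, ((Finset.univ.filter fun c : C =>
        p ^ k ∣ Fintype.card C ∧ c ^ (Fintype.card C / p ^ k) = 1).card : ℝ) := by
        exact_mod_cast le_trans (Finset.card_le_card h1) Finset.card_biUnion_le
    _ ≤ ∑ p ∈ N.primeFactors, (Fintype.card C : ℝ) / 2 ^ k := Finset.sum_le_sum h2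
    _ = N.primeFactors.card * (Fintype.card C / 2 ^ k) := by rw [Finset.sum_const, nsmul_eq_mul]
    _ ≤ N * (Fintype.card C / 2 ^ k) := by gcongr
    _ = N / 2 ^ k * Fintype.card C := by ring

section

variable {K M : Type*} [Field K] [NumberField K] [Field M] [NumberField M] [Algebra K M]
  [IsGalois K M]

lemma star_of {l : ℕ} {L : Type*} [NeZero (4 * l)] [Field L]
    [NumberField L] [Algebra K L] [Algebra M L] [IsScalarTower K M L] [IsGalois K L] {ζ : L}
    (hζ : IsPrimitiveRoot ζ (4 * l)) (hext : ∀ g : Gal(L/K), AlgEquiv.restrictNormal g M = 1 →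
      hζ.autToPow K g = 1 → g = 1) {g : Gal(L/K)}
    (hg : 4 * Nat.card Gal(M/K) ∣ orderOf (ZMod.unitsMap (Dvd.intro_left 4 rfl : l ∣ 4 * l)
      (hζ.autToPow K g))) : Star (hζ.autToPow K) g := by
  intro y hy hc
  obtain ⟨j, rfl⟩ := hy
  simp only at hc ⊢
  have hj : g ^ j = g ^ (j - 1) * g := by rw [← zpow_add_one]; congr 1; ring
  set t := j - 1 with ht
  rw [hj, map_mul, map_zpow] at hc
  have hc' : hζ.autToPow K g ^ t = 1 ∨ hζ.autToPow K g ^ t = -1 := by
    rcases hc with hc | hc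
    · left
      simpa using hc
    · right
      have : hζ.autToPow K g ^ t * hζ.autToPow K g = (-1) * hζ.autToPow K g := by
        rw [hc]; simp
      exact mul_right_cancel this
  have h1 : hζ.autToPow K g ^ t = 1 := by
    rcases hc' with h | h
    · exact h
    · exfalso
      have h2 : (ZMod.unitsMap (Dvd.intro_left 4 rfl : l ∣ 4 * l) (hζ.autToPow K g)) ^ (2 * t) = 1 := by
        rw [← map_zpow, zpow_mul', h]
        simp
      have h3 : ((4 * Nat.card Gal(M/K) : ℕ) : ℤ) ∣ 2 * t :=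
        (Int.natCast_dvd_natCast.mpr hg).trans (orderOf_dvd_iff_zpow_eq_one.mpr h2)
      have h4 : (2 : ℤ) ∣ t := by
        have : (2 : ℤ) * 2 ∣ 2 * t := by
          refine Dvd.dvd.trans ?_ h3
          push_cast
          exact Dvd.intro _ rfl
        exact (mul_dvd_mul_iff_left (by norm_num)).mp this
      obtain ⟨r, hr⟩ := h4
      have h5 : (ZMod.unitsMap (Dvd.intro l rfl : 4 ∣ 4 * l) (hζ.autToPow K g)) ^ t = -1 := by
        rw [← map_zpow, h]
        ext
        simp [ZMod.unitsMap]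
      rw [hr, zpow_mul] at h5
      have h6 : ∀ a : (ZMod 4)ˣ, a ^ (2 : ℤ) = 1 := by decide
      rw [h6, one_zpow] at h5
      exact absurd h5 (by decide)
  have h2 : ((4 * Nat.card Gal(M/K) : ℕ) : ℤ) ∣ t := by
    refine (Int.natCast_dvd_natCast.mpr hg).trans (orderOf_dvd_iff_zpow_eq_one.mpr ?_)
    rw [← map_zpow, h1, map_one]
  have h3 : (AlgEquiv.restrictNormalHom M (g ^ t) : Gal(M/K)) = 1 := by
    rw [map_zpow]
    refine orderOf_dvd_iff_zpow_eq_one.mp (Dvd.dvd.trans ?_ h2)
    rw [Int.natCast_dvd_natCast]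
    exact (orderOf_dvd_natCard _).trans (Dvd.intro_left _ rfl)
  have h4 : g ^ t = 1 := hext _ h3 (by rw [map_zpow, h1])
  rw [hj, h4, one_mul]

lemma index_le {l : ℕ} (hl : l.Prime) {L : Type*} [NeZero (4 * l)] [Field L]
    [NumberField L] [Algebra K L] [IsGalois K L] {ζ : L} (hζ : IsPrimitiveRoot ζ (4 * l)) :
    (l - 1) * Nat.card (((ZMod.unitsMap (Dvd.intro_left 4 rfl : l ∣ 4 * l)).comp
      (hζ.autToPow K)).ker) ≤ finrank ℚ K * Nat.card Gal(L/K) := by
  have hη : IsPrimitiveRoot (ζ ^ 4) l := hζ.pow (NeZero.pos _) rfl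
  set η := ζ ^ 4 with hη'
  have h1 : l - 1 ≤ finrank ℚ (IntermediateField.adjoin K {η}) := by
    have h2 : IsPrimitiveRoot (IntermediateField.AdjoinSimple.gen K η) l := by
      refine IsPrimitiveRoot.of_map_of_injective (f := algebraMap (IntermediateField.adjoin K {η}) L) ?_
        (FaithfulSMul.algebraMap_injective _ _)
      rw [IntermediateField.AdjoinSimple.algebraMap_gen]
      exact hη
    have h3 := cyclotomic_eq_minpoly_rat h2 hl.pos
    have h4 := minpoly.natDegree_le (A := ℚ) (IntermediateField.AdjoinSimple.gen K η)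
    rw [← h3, natDegree_cyclotomic, Nat.totient_prime hl] at h4
    exact h4
  have h2 : Nat.card (((ZMod.unitsMap (Dvd.intro_left 4 rfl : l ∣ 4 * l)).comp
      (hζ.autToPow K)).ker) ≤ finrank (IntermediateField.adjoin K {η}) L := by
    rw [← IsGalois.card_fixingSubgroup_eq_finrank]
    refine Subgroup.card_le_of_le ?_
    intro g hg
    rw [MonoidHom.mem_ker, MonoidHom.comp_apply] at hg
    have hgη : g η = η := by
      have h3 : g η = η ^ ((hζ.autToPow K g : ZMod (4 * l)).val) := by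
        rw [hη', map_pow, ← hζ.autToPow_spec K g, ← pow_mul, ← pow_mul, mul_comm]
      rw [h3]
      have h4 : ((hζ.autToPow K g : ZMod (4 * l)).val : ZMod l) = ((1 : ℕ) : ZMod l) := by
        have h5 := congrArg (Units.val) hg
        rw [ZMod.unitsMap_val] at h5
        rw [ZMod.natCast_val, h5]
        simp
      have h6 := (ZMod.natCast_eq_natCast_iff _ _ _).mp h4
      have h7 : η ^ ((hζ.autToPow K g : ZMod (4 * l)).val) = η ^ 1 := by
        rw [← pow_mod_orderOf, ← hη.eq_orderOf, h6, hη.eq_orderOf, pow_mod_orderOf]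
      rw [h7, pow_one]
    rw [IntermediateField.mem_fixingSubgroup_iff]
    intro x hx
    have h8 : IntermediateField.adjoin K {η} ≤ IntermediateField.fixedField (Subgroup.zpowers g) := by
      rw [IntermediateField.adjoin_le_iff, Set.singleton_subset_iff]
      intro k
      obtain ⟨k, hk⟩ := k
      obtain ⟨i, rfl⟩ := hk
      change (g ^ i) η = η
      have : g ∈ MulAction.stabilizer Gal(L/K) η := hgη
      exact (Subgroup.zpow_mem _ this i)
    exact h8 hx ⟨g, Subgroup.mem_zpowers g⟩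
  have h3 : finrank ℚ (IntermediateField.adjoin K {η}) = finrank ℚ K * finrank K (IntermediateField.adjoin K {η}) :=
    (finrank_mul_finrank ℚ K _).symm
  have h4 : Nat.card Gal(L/K) = finrank K (IntermediateField.adjoin K {η}) *
      finrank (IntermediateField.adjoin K {η}) L := by
    rw [IsGalois.card_aut_eq_finrank, finrank_mul_finrank]
  calc (l - 1) * Nat.card (((ZMod.unitsMap (Dvd.intro_left 4 rfl : l ∣ 4 * l)).comp
      (hζ.autToPow K)).ker) ≤ finrank ℚ (IntermediateField.adjoin K {η}) *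
      finrank (IntermediateField.adjoin K {η}) L := Nat.mul_le_mul h1 h2
    _ = finrank ℚ K * Nat.card Gal(L/K) := by rw [h3, h4, mul_assoc]

end

end E38

section E

variable (K M : Type*) [Field K] [NumberField K] [Field M] [NumberField M] [Algebra K M]
  [IsGalois K M]

/-- E1 -/
theorem isGalois_cyc (m : ℕ) [NeZero m] : IsGalois K (CyclotomicField m M) := by
  obtain ⟨p, hp1, hp2⟩ := IsGalois.is_separable_splitting_field K M
  have hp0 : p ≠ 0 := hp1.ne_zero
  have h2 : IsSplittingField M (CyclotomicField m M) ((cyclotomic m K).map (algebraMap K M)) := by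
    rw [map_cyclotomic]
    exact IsCyclotomicExtension.splitting_field_cyclotomic m M (CyclotomicField m M)
  have h3 : IsSplittingField K (CyclotomicField m M) (p * cyclotomic m K) :=
    IsSplittingField.mul (K := M) (L := CyclotomicField m M) p (cyclotomic m K) hp0
      (cyclotomic_ne_zero m K)
  have h4 : Normal K (CyclotomicField m M) :=
    Normal.of_isSplittingField (p * cyclotomic m K)
  have h5 : CharZero K := inferInstance
  exact { }

/-- E1 -/
theorem ext_cyc (m : ℕ) [NeZero m] {ζ : CyclotomicField m M} (hζ : IsPrimitiveRoot ζ m)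
    (g : Gal((CyclotomicField m M)/K)) (h1 : AlgEquiv.restrictNormal g M = 1)
    (h2 : hζ.autToPow K g = 1) : g = 1 := by
  have hM : ∀ x : M, g (algebraMap M (CyclotomicField m M) x) = algebraMap M (CyclotomicField m M) x := by
    intro x
    rw [← AlgEquiv.restrictNormal_commutes, h1]
    rfl
  have hz : g ζ = ζ := by
    rw [← hζ.autToPow_spec K g, h2]
    rcases Nat.lt_or_ge 1 m with h | h
    · have : Fact (1 < m) := ⟨h⟩
      simp [ZMod.val_one]
    · have hm : m = 1 := le_antisymm h (NeZero.pos m)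
      subst hm
      have : ζ = 1 := by simpa using hζ.pow_eq_one
      simp [this]
  let g' : CyclotomicField m M →ₐ[M] CyclotomicField m M :=
    { g.toAlgHom.toRingHom with commutes' := hM }
  have h3 : g' = AlgHom.id M _ := by
    refine AlgHom.ext_of_adjoin_eq_top
      (IsCyclotomicExtension.adjoin_primitive_root_eq_top (A := M) (n := m) hζ) ?_
    intro x hx
    rw [Set.mem_singleton_iff] at hx
    subst hx
    exact hz
  ext x
  exact DFunLike.congr_fun h3 x

/-- E2 -/
theorem exists_star {ε : ℝ} (hε : 0 < ε) : ∃ m : ℕ, 2 < m ∧ ∀ (_ : NeZero m) (L : Type*) [Field L]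
    [NumberField L] [Algebra K L] [Algebra M L] [IsScalarTower K M L] [IsGalois K L] (ζ : L)
    (hζ : IsPrimitiveRoot ζ m), (∀ g : Gal(L/K), AlgEquiv.restrictNormal g M = 1 →
      hζ.autToPow K g = 1 → g = 1) →
    (Nat.card {g : Gal(L/K) // ¬ Star (hζ.autToPow K) g} : ℝ) ≤ ε * Nat.card Gal(L/K) := by
  set N := 4 * Nat.card Gal(M/K) with hN
  have hN0 : N ≠ 0 := mul_ne_zero (by norm_num) Nat.card_pos.ne'
  set D := finrank ℚ K with hD
  obtain ⟨k, hk⟩ := pow_unbounded_of_one_lt ((N : ℝ) * D / ε) (one_lt_two)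
  have hk1 : (N : ℝ) * D / ε < 2 ^ (k + 1) :=
    hk.trans_le (pow_le_pow_right₀ one_le_two (Nat.le_succ k))
  have hk2 : (N : ℝ) / 2 ^ (k + 1) * D ≤ ε := by
    rw [div_mul_eq_mul_div, div_le_iff₀ (by positivity)]
    rw [div_lt_iff₀ hε] at hk1
    linarith
  obtain ⟨l, hl, hl1, hl2⟩ := Nat.exists_prime_gt_modEq_one 1 (pow_ne_zero (k + 1) hN0)
  refine ⟨4 * l, by omega, ?_⟩
  intro _ L _ _ _ _ _ _ ζ hζ hext
  have : Fact l.Prime := ⟨hl⟩
  set c : Gal(L/K) →* (ZMod l)ˣ := (ZMod.unitsMap (Dvd.intro_left 4 rfl : l ∣ 4 * l)).comp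
      (hζ.autToPow K) with hc
  have hidx := E38.index_le (K := K) hl hζ
  have : Fintype Gal(L/K) := Fintype.ofFinite _
  have hcard : Fintype.card (ZMod l)ˣ = l - 1 := ZMod.card_units l
  have hdvd : N ^ (k + 1) ∣ Fintype.card (ZMod l)ˣ := by
    rw [hcard]
    exact (Nat.modEq_iff_dvd' hl.one_lt.le).mp hl2.symm
  have h1 := E38.card_not_dvd (C := (ZMod l)ˣ) hN0 (Nat.succ_ne_zero k) hdvd
  have h2 : Nat.card {g : Gal(L/K) // ¬ Star (hζ.autToPow K) g} ≤
      (Finset.univ.filter fun g : Gal(L/K) => ¬ N ∣ orderOf (c g)).card := by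
    rw [Nat.card_eq_fintype_card, Fintype.card_subtype]
    refine Finset.card_le_card ?_
    intro g hg
    rw [Finset.mem_filter] at hg ⊢
    exact ⟨hg.1, fun h => hg.2 (E38.star_of (M := M) hζ hext h)⟩
  have h3 : (Finset.univ.filter fun g : Gal(L/K) => ¬ N ∣ orderOf (c g)).card ≤
      Nat.card c.ker * (Finset.univ.filter fun a : (ZMod l)ˣ => ¬ N ∣ orderOf a).card := by
    refine le_trans (Finset.card_le_mul_card_image _ (Nat.card c.ker) (f := c) ?_)
      (Nat.mul_le_mul_left _ (Finset.card_le_card ?_))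
    · intro a ha
      rw [Finset.mem_image] at ha
      obtain ⟨g₀, -, rfl⟩ := ha
      rw [Nat.card_eq_fintype_card, ← Fintype.card_coe]
      refine Fintype.card_le_of_injective (fun x => (⟨x.1 * g₀⁻¹, ?_⟩ : c.ker)) ?_
      · have := (Finset.mem_filter.mp x.2).2
        rw [MonoidHom.mem_ker, map_mul, map_inv, this, mul_inv_cancel]
      · intro x y hxy
        have := congrArg Subtype.val hxy
        exact Subtype.ext (mul_right_cancel this)
    · intro a ha
      rw [Finset.mem_image] at ha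
      obtain ⟨g, hg, rfl⟩ := ha
      rw [Finset.mem_filter] at hg ⊢
      exact ⟨Finset.mem_univ _, hg.2⟩
  have h4 : ((l - 1 : ℕ) : ℝ) * Nat.card c.ker ≤ D * Nat.card Gal(L/K) := by
    exact_mod_cast hidx
  calc (Nat.card {g : Gal(L/K) // ¬ Star (hζ.autToPow K) g} : ℝ)
      ≤ Nat.card c.ker * ((Finset.univ.filter fun a : (ZMod l)ˣ => ¬ N ∣ orderOf a).card : ℝ) := by
        exact_mod_cast h2.trans h3
    _ ≤ Nat.card c.ker * (N / 2 ^ (k + 1) * Fintype.card (ZMod l)ˣ) := by gcongr
    _ = N / 2 ^ (k + 1) * (((l - 1 : ℕ) : ℝ) * Nat.card c.ker) := by rw [hcard]; ring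
    _ ≤ N / 2 ^ (k + 1) * (D * Nat.card Gal(L/K)) := by gcongr
    _ = N / 2 ^ (k + 1) * D * Nat.card Gal(L/K) := by ring
    _ ≤ ε * Nat.card Gal(L/K) := by gcongr

end E

end Pool.Agent.Lib.MP_bf61d2_nt.Artin
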