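import Mathlib
import Pool.Agent.Lib.MP_bf61d2_nt.Trim.Artin.Defs63
import Pool.Agent.Lib.MP_bf61d2_nt.Trim.Perm.Defs
import Pool.Agent.Lib.MP_bf61d2_nt.Trim.Perm.Frob
import Pool.Agent.Lib.MP_bf61d2_nt.Trim.Places
import Pool.Agent.Lib.MP_bf61d2_nt.Trim.Quad

set_option autoImplicit false

/-!
ARTIN EDGE (MP_bf61d2_nt), module F: Frobenius elements.
-/

namespace NumberField
end NumberField

namespace Pool.Agent.Lib.MP_bf61d2_nt.Perm
end Pool.Agent.Lib.MP_bf61d2_nt.Perm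

namespace Pool.Agent.Lib.MP_bf61d2_nt.Artin

open NumberField IsDedekindDomain Filter Topology Polynomial Module

open Pool.Agent.Lib.MP_bf61d2_nt.Perm

open scoped Classical nonZeroDivisors Pointwise

section Fr

variable {K M : Type*} [Field K] [NumberField K] [Field M] [NumberField M] [Algebra K M]
  [IsGalois K M]

/-- Frobenius elements at every place above. -/
theorem exists_isFr_at (P : HeightOneSpectrum (𝓞 M)) :
    ∃ g : Gal(M/K), ∀ x : 𝓞 M, g • x - x ^ nm (dn (K := K) P) ∈ P.asIdeal := by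
  have hfd : FiniteDimensional K M := Module.Finite.of_restrictScalars_finite ℚ K M
  have h1 : P.asIdeal.IsPrime := P.isPrime
  have h2 : Nat.card (𝓞 M ⧸ P.asIdeal) = nm P := by
    rw [nm, Ideal.absNorm_apply, Submodule.cardQuot_apply]
  have h3 : Finite (𝓞 M ⧸ P.asIdeal) := by
    apply Nat.finite_of_card_ne_zero
    rw [h2]
    have := one_lt_nm P
    omega
  obtain ⟨σ, hσ⟩ := IsArithFrobAt.exists_of_isInvariant (𝓞 K) Gal(M/K) P.asIdeal
  refine ⟨σ, fun x => ?_⟩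
  have h4 := hσ x
  have h5 : Nat.card (𝓞 K ⧸ P.asIdeal.under (𝓞 K)) = nm (dn (K := K) P) := by
    have h6 : P.asIdeal.under (𝓞 K) = (dn (K := K) P).asIdeal := rfl
    rw [h6, nm, Ideal.absNorm_apply, Submodule.cardQuot_apply]
  rw [h5] at h4
  exact h4

theorem exists_isFr (v : HeightOneSpectrum (𝓞 K)) : ∃ g : Gal(M/K), IsFr v g := by
  obtain ⟨P, hP⟩ := exists_dn_eq (K := K) (F := M) v
  obtain ⟨g, hg⟩ := exists_isFr_at (K := K) P
  exact ⟨g, P, hP, fun x => by have := hg x; rwa [hP] at this⟩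

theorem finite_fx {Fr : HeightOneSpectrum (𝓞 K) → Gal(M/K)} (h : ∀ v, IsFr v (Fr v))
    (F : IntermediateField K M) : {v : HeightOneSpectrum (𝓞 K) | r1 F v ≠ fx F (Fr v)}.Finite := by
  have hfd : FiniteDimensional K M := Module.Finite.of_restrictScalars_finite ℚ K M
  choose P hP hFr using h
  obtain ⟨B, θ, hθ⟩ := exists_theta K F
  have hPinj : Function.Injective P := fun v v' h => by rw [← hP v, ← hP v', h]
  have hfin : ∀ q : (F →ₐ[K] M) × (F →ₐ[K] M), {v : HeightOneSpectrum (𝓞 K) | q.1 ≠ q.2 ∧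
      (RingOfIntegers.mapAlgHom q.1 : 𝓞 F →ₐ[𝓞 K] 𝓞 M) θ -
      (RingOfIntegers.mapAlgHom q.2 : 𝓞 F →ₐ[𝓞 K] 𝓞 M) θ ∈ (P v).asIdeal}.Finite := by
    intro q
    by_cases hq : q.1 = q.2
    · refine Set.Finite.subset Set.finite_empty fun v hv => absurd hq hv.1
    · have hne : (RingOfIntegers.mapAlgHom q.1 : 𝓞 F →ₐ[𝓞 K] 𝓞 M) θ -
          (RingOfIntegers.mapAlgHom q.2 : 𝓞 F →ₐ[𝓞 K] 𝓞 M) θ ≠ 0 := by
        intro h0
        apply hq
        apply B.algHom_ext
        rw [← hθ]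
        exact congrArg (algebraMap (𝓞 M) M) (sub_eq_zero.mp h0)
      refine Set.Finite.subset ((finite_dvd hne).preimage hPinj.injOn) fun v hv => ?_
      exact hv.2
  refine Set.Finite.subset (Set.finite_iUnion hfin) fun v hv => ?_
  by_contra hcon
  apply hv
  refine r1_eq_fx F (θ := θ) v (P v) (hP v) (Fr v) (hFr v) fun φ ψ hne hmem => ?_
  exact hcon (Set.mem_iUnion.mpr ⟨(φ, ψ), hne, hmem⟩)

/-- The conjugate of a Frobenius element at `P` is a Frobenius element at the conjugate place. -/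
lemma frob_conj {q : ℕ} {P Q : Ideal (𝓞 M)} {g h : Gal(M/K)}
    (hg : ∀ x : 𝓞 M, g • x - x ^ q ∈ P) (hQ : Q = h • P) (x : 𝓞 M) :
    (h * g * h⁻¹) • x - x ^ q ∈ Q := by
  rw [hQ, Ideal.mem_pointwise_smul_iff_inv_smul_mem, smul_sub, smul_pow', mul_smul, mul_smul,
    inv_smul_smul]
  exact hg (h⁻¹ • x)

/-- An integer moved differently by two different elements. -/
lemma exists_theta_gal (K M : Type*) [Field K] [NumberField K] [Field M] [NumberField M]
    [Algebra K M] : ∃ θ : 𝓞 M, ∀ g g' : Gal(M/K), g • θ - g' • θ = 0 → g = g' := by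
  obtain ⟨B, θ, hθ⟩ := exists_theta K M
  refine ⟨θ, fun g g' h => ?_⟩
  have h1 : g • θ = g' • θ := sub_eq_zero.mp h
  have h2 : (g : M →ₐ[K] M) = (g' : M →ₐ[K] M) := by
    apply B.algHom_ext
    rw [← hθ]
    exact congrArg (algebraMap (𝓞 M) M) h1
  exact AlgEquiv.coe_toAlgHom_injective h2

theorem finite_not_conj (K M : Type*) [Field K] [NumberField K] [Field M] [NumberField M]
    [Algebra K M] [IsGalois K M] :
    {v : HeightOneSpectrum (𝓞 K) | ∃ g g' : Gal(M/K), IsFr v g ∧ IsFr v g' ∧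
      ¬ IsConj g g'}.Finite := by
  have hfd : FiniteDimensional K M := Module.Finite.of_restrictScalars_finite ℚ K M
  obtain ⟨θ, hθ⟩ := exists_theta_gal K M
  have hfin : ∀ q : Gal(M/K) × Gal(M/K), {w : HeightOneSpectrum (𝓞 M) | q.1 ≠ q.2 ∧
      q.1 • θ - q.2 • θ ∈ w.asIdeal}.Finite := by
    intro q
    by_cases hq : q.1 = q.2
    · refine Set.Finite.subset Set.finite_empty fun v hv => absurd hq hv.1
    · exact (finite_dvd fun h0 => hq (hθ _ _ h0)).subset fun v hv => hv.2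
  refine ((Set.finite_iUnion hfin).image (dn (K := K))).subset ?_
  rintro v ⟨g, g', ⟨P, hP, hg⟩, ⟨Q, hQ, hg'⟩, hconj⟩
  have hPp := P.isPrime
  have hQp := Q.isPrime
  obtain ⟨h, hh⟩ := Algebra.IsInvariant.exists_smul_of_under_eq (𝓞 K) (𝓞 M) Gal(M/K)
    P.asIdeal Q.asIdeal (congrArg HeightOneSpectrum.asIdeal (hP.trans hQ.symm))
  refine ⟨Q, Set.mem_iUnion.mpr ⟨(h * g * h⁻¹, g'), ?_, ?_⟩, hQ⟩
  · intro he
    exact hconj (isConj_iff.mpr ⟨h, he⟩)
  · have h1 := frob_conj hg hh θ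
    have h2 := hg' θ
    have e : (h * g * h⁻¹) • θ - g' • θ =
        ((h * g * h⁻¹) • θ - θ ^ nm v) - (g' • θ - θ ^ nm v) := by ring
    show (h * g * h⁻¹) • θ - g' • θ ∈ Q.asIdeal
    rw [e]
    exact sub_mem h1 h2

theorem isFr_restrict {L : Type*} [Field L] [NumberField L] [Algebra K L] [Algebra M L]
    [IsScalarTower K M L] {v : HeightOneSpectrum (𝓞 K)} {g : Gal(L/K)} (h : IsFr v g) :
    IsFr v (AlgEquiv.restrictNormal g M) := by
  obtain ⟨Q, hQ, hg⟩ := h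
  refine ⟨dn (K := M) Q, ?_, fun x => ?_⟩
  · rw [← hQ]
    apply HeightOneSpectrum.ext
    ext x
    rw [mem_dn, mem_dn, mem_dn]
    have h1 : algebraMap (𝓞 M) (𝓞 L) (algebraMap (𝓞 K) (𝓞 M) x) = algebraMap (𝓞 K) (𝓞 L) x := by
      apply RingOfIntegers.ext
      exact (IsScalarTower.algebraMap_apply K M L (x : K)).symm
    rw [h1]
  · rw [mem_dn, map_sub, map_pow]
    have h1 : algebraMap (𝓞 M) (𝓞 L) (AlgEquiv.restrictNormal g M • x) =
        g • algebraMap (𝓞 M) (𝓞 L) x := by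
      apply RingOfIntegers.ext
      exact AlgEquiv.restrictNormal_commutes g M (x : M)
    rw [h1]
    exact hg _

/-- here `M` contains the `m`-th roots of unity -/
theorem finite_cyc {m : ℕ} [NeZero m] {ζ : M} (hζ : IsPrimitiveRoot ζ m) :
    {v : HeightOneSpectrum (𝓞 K) | ∃ g : Gal(M/K), IsFr v g ∧
      ((hζ.autToPow K g : (ZMod m)ˣ) : ZMod m) ≠ (nm v : ZMod m)}.Finite := by
  have hζ' := hζ.toInteger_isPrimitiveRoot
  set z : 𝓞 M := hζ.toInteger with hz
  have hfin : ∀ q : ZMod m × ZMod m, {w : HeightOneSpectrum (𝓞 M) | q.1 ≠ q.2 ∧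
      z ^ q.1.val - z ^ q.2.val ∈ w.asIdeal}.Finite := by
    intro q
    by_cases hq : q.1 = q.2
    · refine Set.Finite.subset Set.finite_empty fun v hv => absurd hq hv.1
    · refine (finite_dvd fun h0 => hq ?_).subset fun v hv => hv.2
      have h1 := hζ'.pow_inj (ZMod.val_lt q.1) (ZMod.val_lt q.2) (sub_eq_zero.mp h0)
      exact ZMod.val_injective m h1
  refine ((Set.finite_iUnion hfin).image (dn (K := K))).subset ?_
  rintro v ⟨g, ⟨P, hP, hg⟩, hne⟩
  refine ⟨P, Set.mem_iUnion.mpr ⟨(((hζ.autToPow K g : (ZMod m)ˣ) : ZMod m), (nm v : ZMod m)),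
    hne, ?_⟩, hP⟩
  have h1 : g • z = z ^ ((hζ.autToPow K g : (ZMod m)ˣ) : ZMod m).val := by
    apply RingOfIntegers.ext
    exact (hζ.autToPow_spec K g).symm
  have h2 : z ^ nm v = z ^ ((nm v : ZMod m)).val := by
    rw [ZMod.val_natCast]
    have h3 := pow_mod_orderOf z (nm v)
    rw [← hζ'.eq_orderOf] at h3
    exact h3.symm
  show z ^ ((hζ.autToPow K g : (ZMod m)ˣ) : ZMod m).val - z ^ ((nm v : ZMod m)).val ∈ P.asIdeal
  rw [← h1, ← h2]
  exact hg z

end Fr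

end Pool.Agent.Lib.MP_bf61d2_nt.Artin
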