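import Mathlib

set_option autoImplicit false

/-!
Artin twists at the edge: the final assembly.
-/

namespace NumberField
end NumberField

namespace Pool.Agent.Lib.MP_bf61d2_nt.Perm
end Pool.Agent.Lib.MP_bf61d2_nt.Perm

namespace Pool.Agent.Lib.MP_bf61d2_nt.Artin

open NumberField IsDedekindDomain Filter Topology Polynomial Module

open Pool.Agent.Lib.MP_bf61d2_nt.Perm

variable {K M : Type*} [Field K] [NumberField K] [Field M] [NumberField M] [Algebra K M]

lemma tendsto_sub_three_halves : Tendsto (fun σ : ℝ => 1 + (σ - 3 / 2)) (𝓝[>] (3 / 2)) (𝓝[>] 1) := by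
  refine tendsto_nhdsWithin_iff.mpr ⟨?_, ?_⟩
  · have h : Tendsto (fun σ : ℝ => 1 + (σ - 3 / 2)) (𝓝 (3 / 2)) (𝓝 (1 + (3 / 2 - 3 / 2))) :=
      (tendsto_id.sub_const _).const_add _
    rw [sub_self, add_zero] at h
    exact h.mono_left nhdsWithin_le_nhds
  · filter_upwards [self_mem_nhdsWithin] with σ hσ
    have : (3 / 2 : ℝ) < σ := hσ
    exact (by linarith : (1 : ℝ) < 1 + (σ - 3 / 2))

variable [IsGalois K M] [Fintype Gal(M/K)]

end Pool.Agent.Lib.MP_bf61d2_nt.Artin
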