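import Mathlib
import Pool.Agent.Lib.MP_bf61d2_nt.Trim.Artin.Defs63
import Pool.Agent.Lib.MP_bf61d2_nt.Trim.Perm.Defs
import Pool.Agent.Lib.MP_bf61d2_nt.Trim.Places

set_option autoImplicit false

/-!
ARTIN EDGE (MP_bf61d2_nt), module G: class indicators from permutation characters, orthogonality
for even characters, closure properties of equidistribution.
-/

namespace NumberField
end NumberField

namespace Pool.Agent.Lib.MP_bf61d2_nt.Perm
end Pool.Agent.Lib.MP_bf61d2_nt.Perm

namespace Pool.Agent.Lib.MP_bf61d2_nt.Artin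

open NumberField IsDedekindDomain Filter Topology Polynomial Module

open Pool.Agent.Lib.MP_bf61d2_nt.Perm

open scoped Classical nonZeroDivisors

namespace X38

/-- Fixed point counts are class functions. -/
lemma fp_conj {G : Type*} [Group G] (X : Type*) [MulAction G X] {x y : G} (h : IsConj x y) :
    fp X x = fp X y := by
  obtain ⟨a, ha⟩ := isConj_iff.1 h
  unfold fp
  refine Nat.card_congr ((MulAction.toPerm a).subtypeEquiv fun z => ?_)
  rw [MulAction.toPerm_apply, ← ha, mul_smul, mul_smul, inv_smul_smul, smul_left_cancel_iff]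

end X38

theorem class_indicator {G A : Type*} [Group G] [Finite G] [CommRing A] (c : G →* Aˣ) {g₀ : G}
    (hg : Star c g₀) : ∃ κ : ℕ, κ ≠ 0 ∧ ∀ x : G,
      (if c x = c g₀ ∨ c x = -c g₀ then fp (G ⧸ Subgroup.zpowers g₀) x else 0) =
        if IsConj g₀ x then κ else 0 := by
  refine ⟨fp (G ⧸ Subgroup.zpowers g₀) g₀, ?_, fun x => ?_⟩
  · unfold fp
    have hne : Nonempty {x : G ⧸ Subgroup.zpowers g₀ // g₀ • x = x} := by
      refine ⟨⟨((1 : G) : G ⧸ Subgroup.zpowers g₀), ?_⟩⟩
      rw [MulAction.Quotient.smul_coe, smul_eq_mul, mul_one, QuotientGroup.eq]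
      rw [mul_one]
      exact inv_mem (Subgroup.mem_zpowers g₀)
    exact Nat.card_ne_zero.2 ⟨hne, inferInstance⟩
  · by_cases hc : IsConj g₀ x
    · rw [if_pos hc, if_pos, X38.fp_conj _ hc]
      left
      obtain ⟨a, ha⟩ := isConj_iff.1 hc
      rw [← ha, map_mul, map_mul, map_inv, mul_comm (c a), mul_assoc, mul_inv_cancel, mul_one]
    · rw [if_neg hc]
      split_ifs with h
      · unfold fp
        rw [Nat.card_eq_zero]
        left
        constructor
        rintro ⟨z, hz⟩
        induction z using QuotientGroup.induction_on with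
        | H a =>
        rw [MulAction.Quotient.smul_coe, smul_eq_mul, QuotientGroup.eq] at hz
        have h1 : a⁻¹ * x * a ∈ Subgroup.zpowers g₀ := by
          have h2 := inv_mem hz
          rwa [mul_inv_rev, inv_inv, ← mul_assoc] at h2
        have h3 : c (a⁻¹ * x * a) = c x := by
          rw [map_mul, map_mul, map_inv, mul_comm, ← mul_assoc, mul_inv_cancel, one_mul]
        have h4 := hg _ h1 (by rw [h3]; exact h)
        apply hc
        rw [isConj_iff]
        refine ⟨a, ?_⟩
        rw [← h4]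
        group
      · rfl

/-! ### Orthogonality for the even characters -/

namespace X38

lemma sum_even {m : ℕ} [NeZero m] (a b : (ZMod m)ˣ) :
    ∑ χ : DirichletCharacter ℂ m, ((1 + χ (-1)) / 2 * χ ((a⁻¹ : (ZMod m)ˣ) : ZMod m)) * χ (b : ZMod m) =
      (m.totient : ℂ) / 2 * ((if a = b then 1 else 0) + (if a = -b then 1 else 0)) := by
  have h1 : ∀ b' : (ZMod m)ˣ, ∑ χ : DirichletCharacter ℂ m,
      χ ((a⁻¹ : (ZMod m)ˣ) : ZMod m) * χ (b' : ZMod m) = if a = b' then (m.totient : ℂ) else 0 := by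
    intro b'
    have h := DirichletCharacter.sum_char_inv_mul_char_eq ℂ (n := m) (a := (a : ZMod m))
      a.isUnit (b' : ZMod m)
    rw [ZMod.inv_coe_unit] at h
    rw [h]
    simp only [Units.val_inj]
  have h2 : ∀ χ : DirichletCharacter ℂ m,
      ((1 + χ (-1)) / 2 * χ ((a⁻¹ : (ZMod m)ˣ) : ZMod m)) * χ (b : ZMod m) =
      1 / 2 * (χ ((a⁻¹ : (ZMod m)ˣ) : ZMod m) * χ (b : ZMod m)) +
      1 / 2 * (χ ((a⁻¹ : (ZMod m)ˣ) : ZMod m) * χ ((-b : (ZMod m)ˣ) : ZMod m)) := by
    intro χ
    have h3 : χ ((-b : (ZMod m)ˣ) : ZMod m) = χ (-1) * χ (b : ZMod m) := by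
      rw [← map_mul]
      congr 1
      push_cast
      ring
    rw [h3]
    ring
  rw [Finset.sum_congr rfl fun χ _ => h2 χ, Finset.sum_add_distrib, ← Finset.mul_sum,
    ← Finset.mul_sum, h1 b, h1 (-b)]
  split_ifs <;> ring

end X38

/-! ### Closure properties of equidistribution -/

section

variable {K M : Type*} [Field K] [NumberField K] [Field M] [NumberField M] [Algebra K M]

lemma ph_norm (u : ℝ) (n : ℕ) : ‖ph u n‖ = 1 := by
  unfold ph
  exact Complex.norm_exp_ofReal_mul_I _

variable [Fintype Gal(M/K)]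

omit [NumberField M] in
lemma bdd_fr (Fr : HeightOneSpectrum (𝓞 K) → Gal(M/K)) (f : Gal(M/K) → ℂ) (u : ℝ)
    (v : HeightOneSpectrum (𝓞 K)) : ‖f (Fr v) * ph u (nm v)‖ ≤ ∑ g, ‖f g‖ := by
  rw [norm_mul, ph_norm, mul_one]
  exact Finset.single_le_sum (f := fun g => ‖f g‖) (fun g _ => norm_nonneg _) (Finset.mem_univ _)

end

end Pool.Agent.Lib.MP_bf61d2_nt.Artin
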