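import Mathlib
import Pool.Agent.Lib.MP_bf61d2_nt.Trim.Artin.Defs63
import Pool.Agent.Lib.MP_bf61d2_nt.Trim.Zeta.ClassSum
import Pool.Agent.Lib.MP_bf61d2_nt.Trim.Zeta.Cone
import Pool.Agent.Lib.MP_bf61d2_nt.Trim.Zeta.Dilation
import Pool.Agent.Lib.MP_bf61d2_nt.Trim.Zeta.Lattice
import Pool.Agent.Lib.MP_bf61d2_nt.Trim.Zeta.Lip
import Pool.Agent.Lib.MP_bf61d2_nt.Trim.Zeta.Nonvanish
import Pool.Agent.Lib.MP_bf61d2_nt.Trim.Zeta.Unfold
import Pool.Agent.Lib.MP_bf61d2_nt.Trim.Zeta.UnitSum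

set_option autoImplicit false

/-!
ARTIN EDGE, part Z: the sum over the ideals `I` of `f (N I) (N I) ^ (-s)`, for an even function
`f` on the residues mod `m`, continues to a neighbourhood of each point of the line `Re s = 1`,
with at most a simple pole at `s = 1`.
-/

namespace NumberField
end NumberField

namespace Pool.Agent.Lib.MP_bf61d2_nt.Zeta
end Pool.Agent.Lib.MP_bf61d2_nt.Zeta

namespace Pool.Agent.Lib.MP_bf61d2_nt.Artin

namespace Z69

open NumberField NumberField.mixedEmbedding NumberField.Units NumberField.InfinitePlace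

open NumberField.mixedEmbedding.fundamentalCone NumberField.Units.dirichletUnitTheorem

open Module Filter Topology

open Pool.Agent.Lib.MP_bf61d2_nt.Zeta

open scoped Classical nonZeroDivisors

variable {K : Type*} [Field K] [NumberField K]

/-! ### Weighted unfolding -/

section Unfold

variable {J : (Ideal (𝓞 K))⁰} {ι : Type*} [Fintype ι] {b : Basis ι ℝ (mixedSpace K)}

/-- The weight of a point. -/
noncomputable def wt (g : ℕ → ℂ) (x : mixedSpace K) : ℂ := g ⌊mixedEmbedding.norm x⌋₊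

/-- The weighted sum over the fundamental cone. -/
noncomputable def ZW (J : (Ideal (𝓞 K))⁰) (g : ℕ → ℂ) (s : ℂ) : ℂ :=
  ∑' β : idealSet K J, wt g (β : mixedSpace K) *
    Complex.exp (-(s * (Real.log (mixedEmbedding.norm (β : mixedSpace K)) : ℂ)))

lemma norm_wt_le {g : ℕ → ℂ} {C : ℝ} (hg : ∀ n, ‖g n‖ ≤ C) (x : mixedSpace K) :
    ‖wt g x‖ ≤ C := hg _

lemma wt_smul (g : ℕ → ℂ) (u : (𝓞 K)ˣ) (x : mixedSpace K) : wt g (u • x) = wt g x := by
  rw [wt, wt, norm_unit_smul]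

lemma summable_wt (hb : IsBasisOf J b) {g : ℕ → ℂ} {C : ℝ} (hg : ∀ n, ‖g n‖ ≤ C) {s : ℂ}
    (hs : 1 < s.re) : Summable fun a : ι → ℤ => wt g (pt b a) * hh s (pt b a) := by
  have hsum := summable_hh b (fun a ha => one_le_norm_pt hb ha) hs
  refine Summable.of_norm_bounded (hsum.norm.mul_left C) fun a => ?_
  rw [norm_mul]
  exact mul_le_mul_of_nonneg_right (norm_wt_le hg _) (norm_nonneg _)

theorem unfold_w (hb : IsBasisOf J b) {g : ℕ → ℂ} {C : ℝ} (hg : ∀ n, ‖g n‖ ≤ C) {s : ℂ}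
    (hs : 1 < s.re) :
    Summable (fun β : idealSet K J => wt g (β : mixedSpace K) *
      Complex.exp (-(s * (Real.log (mixedEmbedding.norm (β : mixedSpace K)) : ℂ)))) ∧
    ∑' a : ι → ℤ, wt g (pt b a) * hh s (pt b a) = ZW J g s := by
  have hsum := summable_wt hb hg hs
  choose g' hg' using exists_pt_eq (K := K) hb
  have hnorm : ∀ β : idealSet K J, mixedEmbedding.norm (β : mixedSpace K) ≠ 0 := fun β =>
    (norm_pos_of_mem (mem_idealSet.mp β.2).1).ne'
  have hinj : Function.Injective g' := by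
    intro p p' h
    have h1 : fu p.2 • (p.1 : mixedSpace K) = fu p'.2 • (p'.1 : mixedSpace K) := by
      rw [← hg', ← hg', h]
    obtain ⟨h2, h3⟩ := fu_smul_inj (mem_idealSet.mp p.1.2).1 (mem_idealSet.mp p'.1.2).1 h1
    exact Prod.ext (Subtype.ext h3) h2
  have hrange : Function.support (fun a => wt g (pt b a) * hh s (pt b a)) ⊆ Set.range g' := by
    intro a ha
    have ha0 : a ≠ 0 := by
      rintro rfl
      apply ha
      simp only
      rw [pt_zero, hh_zero, mul_zero]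
    obtain ⟨k, hk⟩ := exists_mem_idealSet hb ha0
    refine ⟨(⟨_, hk⟩, -k), pt_injective b ?_⟩
    rw [hg']
    simp only [fu_neg, inv_smul_smul]
  have hval : ∀ p, wt g (pt b (g' p)) * hh s (pt b (g' p)) =
      ((∏ i, hat (crd (p.1 : mixedSpace K) i + p.2 i) : ℝ) : ℂ) *
      (wt g (p.1 : mixedSpace K) *
        Complex.exp (-(s * (Real.log (mixedEmbedding.norm (p.1 : mixedSpace K)) : ℂ)))) := by
    intro p
    rw [hg', hh_fu_smul s p.2 (hnorm p.1), wt_smul]
    ring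
  have hsum2 : Summable fun p => wt g (pt b (g' p)) * hh s (pt b (g' p)) :=
    hsum.comp_injective hinj
  have h1 : ∑' a : ι → ℤ, wt g (pt b a) * hh s (pt b a) =
      ∑' p, wt g (pt b (g' p)) * hh s (pt b (g' p)) := (hinj.tsum_eq hrange).symm
  have h2 : ∀ β : idealSet K J, ∑' k, wt g (pt b (g' (β, k))) * hh s (pt b (g' (β, k))) =
      wt g (β : mixedSpace K) *
        Complex.exp (-(s * (Real.log (mixedEmbedding.norm (β : mixedSpace K)) : ℂ))) := by
    intro β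
    simp only [hval]
    rw [tsum_mul_right, tsum_prod_hat, one_mul]
  refine ⟨?_, ?_⟩
  · have := hsum2.prod
    exact this.congr fun β => h2 β
  · rw [h1, hsum2.tsum_prod, ZW]
    exact tsum_congr h2

end Unfold

/-! ### Sums over the ideals of a class -/

lemma hasSum_ZW (J : (Ideal (𝓞 K))⁰) (g : ℕ → ℂ) {s : ℂ} (h : Summable (fun β : idealSet K J =>
      wt g (β : mixedSpace K) *
      Complex.exp (-(s * (Real.log (mixedEmbedding.norm (β : mixedSpace K)) : ℂ))))) :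
    HasSum (fun n : ℕ => (torsionOrder K : ℂ) * (cJ J n * (g n * en s n))) (ZW J g s) := by
  set nrm : idealSet K J → ℕ := fun β => intNorm (idealSetMap K J β) with hnrm
  have h1 : ∀ β : idealSet K J, (nrm β : ℝ) = mixedEmbedding.norm (β : mixedSpace K) := by
    intro β
    rw [hnrm]
    simp only [intNorm_coe, idealSetMap_apply]
  have h2 := h.hasSum.tsum_fiberwise nrm
  have h3 : (fun n : ℕ => ∑' β : nrm ⁻¹' {n}, wt g ((β : idealSet K J) : mixedSpace K) *
      Complex.exp (-(s * (Real.log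
      (mixedEmbedding.norm ((β : idealSet K J) : mixedSpace K)) : ℂ)))) =
      fun n : ℕ => (torsionOrder K : ℂ) * (cJ J n * (g n * en s n)) := by
    funext n
    have h4 : ∀ β : nrm ⁻¹' {n}, wt g ((β : idealSet K J) : mixedSpace K) *
      Complex.exp (-(s * (Real.log
      (mixedEmbedding.norm ((β : idealSet K J) : mixedSpace K)) : ℂ))) = g n * en s n := by
      intro β
      have : nrm β = n := β.2
      rw [wt, ← h1, this, en, Nat.floor_natCast]
    rw [tsum_congr h4, tsum_const, nsmul_eq_mul]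
    have h5 : Nat.card (nrm ⁻¹' {n}) = cJ J n * torsionOrder K := by
      rw [cJ, torsionOrder, ← Nat.card_prod]
      refine Nat.card_congr (Equiv.trans ?_ (idealSetEquivNorm K J n))
      refine Equiv.subtypeEquivRight fun β => ?_
      rw [← h1]
      simp
    rw [h5]
    push_cast
    ring
  rw [h3] at h2
  exact h2

lemma hasSum_aW {J : (Ideal (𝓞 K))⁰} {C : ClassGroup (𝓞 K)} (hJ : ClassGroup.mk0 J = C⁻¹)
    (f g : ℕ → ℂ) (hfg : ∀ n, g (Ideal.absNorm (J : Ideal (𝓞 K)) * n) = f n) {s : ℂ}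
    (h : Summable (fun β : idealSet K J => wt g (β : mixedSpace K) *
      Complex.exp (-(s * (Real.log (mixedEmbedding.norm (β : mixedSpace K)) : ℂ))))) :
    HasSum (fun n : ℕ => (aC C n : ℂ) * (f n * en s n))
      ((torsionOrder K * en s (Ideal.absNorm (J : Ideal (𝓞 K))))⁻¹ * ZW J g s) := by
  have h0 : Ideal.absNorm (J : Ideal (𝓞 K)) ≠ 0 := Ideal.absNorm_ne_zero_of_nonZeroDivisors J
  have hw : (torsionOrder K : ℂ) ≠ 0 := Nat.cast_ne_zero.mpr (torsionOrder_ne_zero K)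
  have hinj : Function.Injective fun n => Ideal.absNorm (J : Ideal (𝓞 K)) * n :=
    fun a b hab => (mul_right_inj' h0).mp hab
  have h1 := hasSum_ZW J g h
  rw [← hinj.hasSum_iff (fun m hm => by rw [cJ_eq_zero hm]; simp)] at h1
  have h2 := h1.mul_left (torsionOrder K * en s (Ideal.absNorm (J : Ideal (𝓞 K))))⁻¹
  have e : (fun n : ℕ => (aC C n : ℂ) * (f n * en s n)) = fun n : ℕ =>
      (torsionOrder K * en s (Ideal.absNorm (J : Ideal (𝓞 K))))⁻¹ *
        ((fun n : ℕ => (torsionOrder K : ℂ) * (cJ J n * (g n * en s n))) ∘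
          fun n => Ideal.absNorm (J : Ideal (𝓞 K)) * n) n := by
    funext n
    rw [Function.comp_apply, cJ_mul hJ, hfg]
    rcases eq_or_ne n 0 with rfl | hn
    · rw [aC_zero]; simp
    · rw [en_mul s h0 hn]
      have := en_ne_zero s (Ideal.absNorm (J : Ideal (𝓞 K)))
      field_simp
  rw [e]
  exact h2

lemma summable_ideals_w {f : ℕ → ℂ} {C : ℝ} (hf : ∀ n, ‖f n‖ ≤ C) {s : ℂ} (hs : 1 < s.re) :
    Summable fun I : Ideal (𝓞 K) => f (Ideal.absNorm I) * (Ideal.absNorm I : ℂ) ^ (-s) := by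
  refine Summable.of_norm_bounded ((summable_ideals_complex (K := K) hs).norm.mul_left C)
    fun I => ?_
  rw [norm_mul]
  exact mul_le_mul_of_nonneg_right (hf _) (norm_nonneg _)

/-- The weighted sum over all ideals as a finite sum of lattice sums. -/
theorem tsum_ideals_w {f : ℕ → ℂ} {B : ℝ} (hf : ∀ n, ‖f n‖ ≤ B) {s : ℂ} (hs : 1 < s.re)
    (J : ClassGroup (𝓞 K) → (Ideal (𝓞 K))⁰) (hJ : ∀ C, ClassGroup.mk0 (J C) = C⁻¹)
    (g : ClassGroup (𝓞 K) → ℕ → ℂ)
    (hfg : ∀ C n, g C (Ideal.absNorm (J C : Ideal (𝓞 K)) * n) = f n)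
    (h : ∀ C, Summable (fun β : idealSet K (J C) => wt (g C) (β : mixedSpace K) *
      Complex.exp (-(s * (Real.log (mixedEmbedding.norm (β : mixedSpace K)) : ℂ))))) :
    ∑' I : Ideal (𝓞 K), f (Ideal.absNorm I) * (Ideal.absNorm I : ℂ) ^ (-s) =
      ∑ C, (torsionOrder K * en s (Ideal.absNorm (J C : Ideal (𝓞 K))))⁻¹ * ZW (J C) (g C) s := by
  have h1 := hasSum_sum fun C (_ : C ∈ Finset.univ) => hasSum_aW (hJ C) f (g C) (hfg C) (h C)
  have h0 := (summable_ideals_w (K := K) hf hs).hasSum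
  have h2 := h0.tsum_fiberwise (fun I : Ideal (𝓞 K) => Ideal.absNorm I)
  rw [← h1.tsum_eq, ← h2.tsum_eq]
  refine tsum_congr fun n => ?_
  have h3 : ∑' b : (fun I : Ideal (𝓞 K) => Ideal.absNorm I) ⁻¹' {n},
      f (Ideal.absNorm (b : Ideal (𝓞 K))) * ((Ideal.absNorm (b : Ideal (𝓞 K)) : ℕ) : ℂ) ^ (-s) =
      ∑' b : (fun I : Ideal (𝓞 K) => Ideal.absNorm I) ⁻¹' {n}, f n * (n : ℂ) ^ (-s) := by
    refine tsum_congr fun b => ?_
    have hb : Ideal.absNorm (b : Ideal (𝓞 K)) = n := b.2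
    rw [hb]
  rw [h3, tsum_const, nsmul_eq_mul]
  have hs0 : s ≠ 0 := by rintro rfl; simp at hs; linarith
  rcases eq_or_ne n 0 with rfl | hn
  · simp only [aC_zero]
    rw [Nat.cast_zero, Complex.zero_cpow (neg_ne_zero.mpr hs0)]
    simp
  · have hn' : (n : ℂ) ≠ 0 := Nat.cast_ne_zero.mpr hn
    have h4 : (n : ℂ) ^ (-s) = en s n := by
      rw [Complex.cpow_def_of_ne_zero hn', en, ← Complex.natCast_log]
      congr 1
      ring
    rw [← Finset.sum_mul, h4]
    congr 1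
    have h5 := sum_aC (K := K) hn
    have h6 : Nat.card ((fun I : Ideal (𝓞 K) => Ideal.absNorm I) ⁻¹' {n}) =
        Nat.card {I : Ideal (𝓞 K) // Ideal.absNorm I = n} := rfl
    rw [h6, ← h5]
    push_cast
    rfl

/-! ### Periodicity of the norm -/

lemma norm_congr {α β γ : 𝓞 K} {M : ℕ} (h : α - β = (M : 𝓞 K) * γ) :
    (M : ℤ) ∣ Algebra.norm ℤ α - Algebra.norm ℤ β := by
  set B := RingOfIntegers.basis K with hB
  have h1 : ∀ x : 𝓞 K, Algebra.norm ℤ x = (Algebra.leftMulMatrix B x).det := fun x =>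
    Algebra.norm_eq_matrix_det B x
  have h2 : Algebra.leftMulMatrix B α = Algebra.leftMulMatrix B β +
      (M : ℤ) • Algebra.leftMulMatrix B γ := by
    have h3 : α = β + (M : ℤ) • γ := by
      rw [sub_eq_iff_eq_add] at h
      rw [h, zsmul_eq_mul]
      push_cast
      ring
    rw [h3, map_add, map_smul]
  rw [← ZMod.intCast_zmod_eq_zero_iff_dvd, Int.cast_sub, sub_eq_zero, h1, h1]
  have h4 : (((Algebra.leftMulMatrix B α).det : ℤ) : ZMod M) =
      ((Int.castRingHom (ZMod M)).mapMatrix (Algebra.leftMulMatrix B α)).det :=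
    RingHom.map_det (Int.castRingHom (ZMod M)) (Algebra.leftMulMatrix B α)
  have h5 : (((Algebra.leftMulMatrix B β).det : ℤ) : ZMod M) =
      ((Int.castRingHom (ZMod M)).mapMatrix (Algebra.leftMulMatrix B β)).det :=
    RingHom.map_det (Int.castRingHom (ZMod M)) (Algebra.leftMulMatrix B β)
  rw [h4, h5]
  congr 1
  rw [h2]
  ext i j
  simp only [RingHom.mapMatrix_apply, Matrix.map_apply, Matrix.add_apply, Matrix.smul_apply,
    smul_eq_mul, map_add, map_mul, eq_intCast, Int.cast_natCast, CharP.cast_eq_zero, zero_mul,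
    add_zero]

lemma natAbs_dvd {J : (Ideal (𝓞 K))⁰} {α : 𝓞 K} (hα : α ∈ (J : Ideal (𝓞 K))) :
    ∃ k : ℤ, Algebra.norm ℤ α = Ideal.absNorm (J : Ideal (𝓞 K)) * k := by
  have h1 : (J : Ideal (𝓞 K)) ∣ Ideal.span {α} := by
    rw [Ideal.dvd_iff_le, Ideal.span_singleton_le_iff_mem]
    exact hα
  have h2 := map_dvd Ideal.absNorm h1
  rw [Ideal.absNorm_span_singleton] at h2
  exact Int.natCast_dvd.mpr h2

lemma norm_eq_natAbs (α : 𝓞 K) :
    ⌊mixedEmbedding.norm (mixedEmbedding K α)⌋₊ = (Algebra.norm ℤ α).natAbs := by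
  rw [norm_eq_norm, ← Algebra.coe_norm_int]
  have : ((|((Algebra.norm ℤ α : ℤ) : ℚ)| : ℚ) : ℝ) = (((Algebra.norm ℤ α).natAbs : ℕ) : ℝ) := by
    rw [Nat.cast_natAbs]
    push_cast
    rfl
  rw [this, Nat.floor_natCast]

section Per

variable {m : ℕ} (f : ZMod m → ℂ)

/-- The weight on the norms of the elements of an ideal. -/
noncomputable def gJ (J : (Ideal (𝓞 K))⁰) (n : ℕ) : ℂ :=
  f ((n / Ideal.absNorm (J : Ideal (𝓞 K)) : ℕ) : ZMod m)

lemma even_natAbs (hf : ∀ x, f (-x) = f x) (k : ℤ) :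
    f ((k.natAbs : ℕ) : ZMod m) = f (k : ZMod m) := by
  rcases Int.natAbs_eq k with h | h
  · conv_rhs => rw [h]
    simp
  · conv_rhs => rw [h]
    rw [Int.cast_neg, hf]
    simp

lemma gJ_norm (hf : ∀ x, f (-x) = f x) {J : (Ideal (𝓞 K))⁰} {α : 𝓞 K} {k : ℤ}
    (h : Algebra.norm ℤ α = Ideal.absNorm (J : Ideal (𝓞 K)) * k) :
    wt (gJ f J) (mixedEmbedding K α) = f (k : ZMod m) := by
  have h0 : Ideal.absNorm (J : Ideal (𝓞 K)) ≠ 0 := Ideal.absNorm_ne_zero_of_nonZeroDivisors J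
  rw [wt, norm_eq_natAbs, gJ, h, Int.natAbs_mul, Int.natAbs_natCast,
    Nat.mul_div_cancel_left _ (Nat.pos_of_ne_zero h0), even_natAbs f hf]

/-- The weight is periodic on the lattice. -/
lemma periodic (hf : ∀ x, f (-x) = f x) {J : (Ideal (𝓞 K))⁰} {ι : Type*} [Fintype ι]
    {b : Basis ι ℝ (mixedSpace K)} (hb : IsBasisOf J b) {M : ℕ} [NeZero M]
    (hM : M = m * Ideal.absNorm (J : Ideal (𝓞 K))) (y : ι → ℤ) (c : ι → Fin M) :
    wt (gJ f J) (pt b (dv ι M (y, c))) =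
      wt (gJ f J) (pt b (fun i => ((c i : ℕ) : ℤ))) := by
  have h0 : Ideal.absNorm (J : Ideal (𝓞 K)) ≠ 0 := Ideal.absNorm_ne_zero_of_nonZeroDivisors J
  obtain ⟨β, hβ, hβ'⟩ := (hb (pt b y)).mp ⟨y, rfl⟩
  obtain ⟨γ, hγ, hγ'⟩ := (hb (pt b (fun i => ((c i : ℕ) : ℤ)))).mp ⟨_, rfl⟩
  have h1 : pt b (dv ι M (y, c)) = mixedEmbedding K ((M : 𝓞 K) * β + γ : 𝓞 K) := by
    rw [dv_apply, pt_add, pt_mul, ← hβ', ← hγ']
    push_cast
    rw [map_add, map_mul, map_natCast]
    congr 1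
  obtain ⟨k, hk⟩ := natAbs_dvd (J := J) (α := (M : 𝓞 K) * β + γ)
    (Ideal.add_mem _ (Ideal.mul_mem_left _ _ hβ) hγ)
  obtain ⟨k', hk'⟩ := natAbs_dvd hγ
  rw [h1, ← hγ', gJ_norm f hf hk, gJ_norm f hf hk']
  have h2 := norm_congr (α := (M : 𝓞 K) * β + γ) (β := γ) (γ := β) (M := M) (by ring)
  rw [hk, hk', hM, ← mul_sub] at h2
  push_cast at h2
  rw [mul_comm] at h2
  have h3 : (m : ℤ) ∣ k - k' :=
    (mul_dvd_mul_iff_left (Nat.cast_ne_zero.mpr h0)).mp h2
  congr 1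
  rw [← sub_eq_zero, ← Int.cast_sub]
  exact (ZMod.intCast_zmod_eq_zero_iff_dvd _ _).mpr h3

end Per

/-! ### The difference sums -/

section Dsw

variable {ι : Type*} [Fintype ι] (b : Basis ι ℝ (mixedSpace K))

/-- The weighted difference sum. -/
noncomputable def Dsw (m : ℕ) [NeZero m] (p : (ι → Fin m) → ℂ) (s : ℂ) : ℂ :=
  ∑' y : ι → ℤ, ∑ c : ι → Fin m,
    p c * (hh s (pt b (dv ι m (y, c))) - hh s (pt b (fun i => y i * m)))

theorem analyticAt_Dsw (hN : ∀ a : ι → ℤ, a ≠ 0 → 1 ≤ mixedEmbedding.norm (pt b a)) (m : ℕ)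
    [NeZero m] (p : (ι → Fin m) → ℂ) (u : ℝ) :
    AnalyticAt ℂ (Dsw b m p) (1 + u * Complex.I) := by
  have hn : (1 : ℝ) ≤ finrank ℚ K := by exact_mod_cast finrank_pos
  set n : ℝ := (finrank ℚ K : ℝ) with hnn
  set σ₀ : ℝ := 1 - 1 / (2 * n) with hσ
  have h2n : 1 / (2 * n) ≤ 1 / 2 := by
    apply div_le_div_of_nonneg_left (by norm_num) (by norm_num) (by linarith)
  have hσ0 : 0 < σ₀ := by linarith
  have hσ1 : σ₀ < 1 := by
    have : 0 < 1 / (2 * n) := by positivity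
    linarith
  set R : ℝ := |u| + 2 with hR
  have hR0 : 0 < R := by positivity
  obtain ⟨C, hC0, hC⟩ := exists_diff_bound b hN m hR0 hσ0
  set U : Set ℂ := {s | σ₀ < s.re} ∩ {s | ‖s‖ < R} with hU
  have hUo : IsOpen U := (isOpen_lt continuous_const Complex.continuous_re).inter
    (isOpen_lt continuous_norm continuous_const)
  have hmem : (1 + u * Complex.I : ℂ) ∈ U := by
    constructor
    · show σ₀ < (1 + u * Complex.I : ℂ).re
      simpa using hσ1
    · show ‖(1 + u * Complex.I : ℂ)‖ < R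
      refine (norm_add_le _ _).trans_lt ?_
      rw [norm_mul, Complex.norm_I, Complex.norm_real, Real.norm_eq_abs, norm_one, mul_one]
      linarith
  have hs1 := summable_pt b (ρ := n * σ₀ + 1) (by
    rw [mixedEmbedding.finrank, ← hnn, hσ]
    have : n * (1 / (2 * n)) = 1 / 2 := by field_simp
    nlinarith)
  have hs2 : Summable fun y : ι → ℤ => if y = 0 then (1 : ℝ) else 0 :=
    summable_of_ne_finset_zero (s := {0}) fun y hy => by
      rw [if_neg (by simpa using hy)]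
  set P : ℝ := ∑ c, ‖p c‖ with hP
  have hs3 := ((hs1.mul_left C).add hs2).mul_left P
  have hd : DifferentiableOn ℂ (Dsw b m p) U := by
    refine Complex.differentiableOn_tsum_of_summable_norm hs3 (fun y => ?_) hUo fun y s hs => ?_
    · exact (Differentiable.fun_sum fun c _ =>
        (((differentiable_hh _).sub (differentiable_hh _)).const_mul _)).differentiableOn
    · refine (norm_sum_le _ _).trans ?_
      rw [hP, Finset.sum_mul]
      refine Finset.sum_le_sum fun c _ => ?_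
      rw [norm_mul]
      refine mul_le_mul_of_nonneg_left ?_ (norm_nonneg _)
      by_cases hy : y = 0
      · rw [if_pos hy, hy]
        have e1 : (fun i => (0 : ι → ℤ) i * (m : ℤ)) = 0 := by funext i; simp
        rw [e1, pt_zero, hh_zero, sub_zero]
        have h4 : ‖hh s (pt b (dv ι m (0, c)))‖ ≤ 1 := by
          by_cases h5 : dv ι m (0, c) = 0
          · rw [h5, pt_zero, hh_zero, norm_zero]; norm_num
          · exact norm_hh_le_one (hσ0.trans hs.1).le (hN _ h5)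
        have h6 : 0 ≤ C * ‖(0 : mixedSpace K)‖ ^ (-(n * σ₀ + 1)) := by positivity
        linarith
      · rw [if_neg hy, add_zero]
        exact hC y hy c s hs.1.le hs.2.le
  exact hd.analyticAt (hUo.mem_nhds hmem)

/-- The weighted lattice sum. -/
theorem split (hN : ∀ a : ι → ℤ, a ≠ 0 → 1 ≤ mixedEmbedding.norm (pt b a)) (m : ℕ) [NeZero m]
    (p : (ι → Fin m) → ℂ) {P : (ι → ℤ) → ℂ} (hP : ∀ y c, P (dv ι m (y, c)) = p c) {s : ℂ}
    (hs : 1 < s.re) (hS : Summable fun a : ι → ℤ => P a * hh s (pt b a)) :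
    ∑' a : ι → ℤ, P a * hh s (pt b a) =
      Dsw b m p s + (∑ c, p c) * (Zeta.fac K m s * ∑' a : ι → ℤ, hh s (pt b a)) := by
  have h1 : Summable fun q : (ι → ℤ) × (ι → Fin m) => P (dv ι m q) * hh s (pt b (dv ι m q)) := by
    have h0 := (Equiv.summable_iff (f := fun a : ι → ℤ => P a * hh s (pt b a)) (dv ι m)).mpr hS
    exact h0
  have h2 : ∑' a, P a * hh s (pt b a) =
      ∑' y : ι → ℤ, ∑ c : ι → Fin m, p c * hh s (pt b (dv ι m (y, c))) := by
    rw [← (dv ι m).tsum_eq fun a => P a * hh s (pt b a), h1.tsum_prod]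
    refine tsum_congr fun y => ?_
    rw [tsum_fintype]
    exact Finset.sum_congr rfl fun c _ => by rw [hP]
  have h3 : Summable fun y : ι → ℤ => ∑ c : ι → Fin m, p c * hh s (pt b (dv ι m (y, c))) := by
    have := h1.prod
    refine this.congr fun y => ?_
    rw [tsum_fintype]
    exact Finset.sum_congr rfl fun c _ => by rw [hP]
  have h4 : ∀ y : ι → ℤ, ∑ c : ι → Fin m, p c * hh s (pt b (fun i => y i * m)) =
      (∑ c, p c) * (Zeta.fac K m s * hh s (pt b y)) := by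
    intro y
    rw [pt_mul, hh_smul (NeZero.ne m), Finset.sum_mul]
  have h5 : Summable fun y : ι → ℤ => ∑ c : ι → Fin m, p c * hh s (pt b (fun i => y i * m)) := by
    simp only [h4]
    exact ((summable_hh b hN hs).mul_left _).mul_left _
  rw [Dsw]
  simp only [mul_sub, Finset.sum_sub_distrib]
  rw [h3.tsum_sub h5, ← h2]
  simp only [h4]
  rw [tsum_mul_left, tsum_mul_left]
  ring

end Dsw

/-! ### The unweighted lattice sum -/

lemma den_eq (K : Type*) [Field K] [NumberField K] (m : ℕ) (hm : m ≠ 0) (s : ℂ) :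
    (m : ℂ) ^ finrank ℚ K * Zeta.fac K m s =
      Complex.exp (-((s - 1) * (finrank ℚ K * Real.log m : ℝ))) := by
  have hm' : (m : ℂ) ≠ 0 := Nat.cast_ne_zero.mpr hm
  have h1 : (m : ℂ) ^ finrank ℚ K = Complex.exp ((finrank ℚ K * Real.log m : ℝ) : ℂ) := by
    push_cast
    rw [Complex.exp_nat_mul, Complex.exp_log hm']
  rw [h1, Zeta.fac, ← Complex.exp_add]
  congr 1
  ring

lemma differentiable_den (K : Type*) [Field K] [NumberField K] (m : ℕ) :
    Differentiable ℂ fun s => 1 - (m : ℂ) ^ finrank ℚ K * Zeta.fac K m s := by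
  unfold Zeta.fac
  fun_prop

/-- The factor which removes the pole. -/
noncomputable def ef (u : ℝ) (s : ℂ) : ℂ := if u = 0 then s - 1 else 1

lemma exists_factor (K : Type*) [Field K] [NumberField K] (u : ℝ) :
    ∃ (m : ℕ) (_ : NeZero m) (q : ℂ → ℂ), AnalyticAt ℂ q (1 + u * Complex.I) ∧
      ∀ᶠ s in 𝓝 (1 + u * Complex.I : ℂ), q s * (1 - (m : ℂ) ^ finrank ℚ K * Zeta.fac K m s) = ef u s := by
  by_cases hu : u = 0
  · have hn0 : (finrank ℚ K : ℝ) ≠ 0 := Nat.cast_ne_zero.mpr finrank_pos.ne'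
    set den : ℂ → ℂ := fun s => 1 - ((2 : ℕ) : ℂ) ^ finrank ℚ K * Zeta.fac K 2 s with hden
    have hd : Differentiable ℂ den := differentiable_den K 2
    have hden2 : ∀ s, den s = 1 - Complex.exp (-((s - 1) * (finrank ℚ K * Real.log (2 : ℕ) : ℝ))) :=
      fun s => by rw [hden]; simp only; rw [den_eq K 2 two_ne_zero]
    have h0 : den 1 = 0 := by
      rw [hden2]; simp
    have hder : HasDerivAt den ((finrank ℚ K * Real.log (2 : ℕ) : ℝ) : ℂ) 1 := by
      have h1 : HasDerivAt (fun s : ℂ => 1 - Complex.exp (-((s - 1) *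
          (finrank ℚ K * Real.log (2 : ℕ) : ℝ)))) (-(Complex.exp (-(((1 : ℂ) - 1) *
          (finrank ℚ K * Real.log (2 : ℕ) : ℝ))) * (-(1 * (finrank ℚ K * Real.log (2 : ℕ) : ℝ))))) 1 :=
        (((((hasDerivAt_id (1 : ℂ)).sub_const 1).mul_const _).neg).cexp).const_sub 1
      have h2 : den = fun s : ℂ => 1 - Complex.exp (-((s - 1) *
          (finrank ℚ K * Real.log (2 : ℕ) : ℝ))) := funext hden2
      rw [h2]
      convert h1 using 1
      simp
    have hs : AnalyticAt ℂ (dslope den 1) 1 := by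
      have h1 : DifferentiableOn ℂ (dslope den 1) Set.univ :=
        (Complex.differentiableOn_dslope Filter.univ_mem).mpr hd.differentiableOn
      exact h1.analyticAt Filter.univ_mem
    have hs0 : dslope den 1 1 ≠ 0 := by
      rw [dslope_same, hder.deriv]
      rw [Complex.ofReal_ne_zero]
      have : Real.log ((2 : ℕ) : ℝ) ≠ 0 := by
        have := Real.log_pos (x := ((2 : ℕ) : ℝ)) (by norm_num)
        exact this.ne'
      exact mul_ne_zero hn0 this
    refine ⟨2, ⟨two_ne_zero⟩, fun s => (dslope den 1 s)⁻¹, ?_, ?_⟩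
    · rw [hu, Complex.ofReal_zero, zero_mul, add_zero]
      exact hs.inv hs0
    · rw [hu, Complex.ofReal_zero, zero_mul, add_zero]
      have h1 : ∀ᶠ s in 𝓝 (1 : ℂ), dslope den 1 s ≠ 0 := hs.continuousAt.eventually_ne hs0
      filter_upwards [h1] with s h2
      have h3 : (s - 1) • dslope den 1 s = den s - den 1 := sub_smul_dslope den 1 s
      rw [h0, sub_zero, smul_eq_mul] at h3
      have h4 : (1 : ℂ) - ((2 : ℕ) : ℂ) ^ finrank ℚ K * Zeta.fac K 2 s = (s - 1) * dslope den 1 s :=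
        h3.symm
      rw [ef, if_pos rfl, inv_mul_eq_iff_eq_mul₀ h2, h4, mul_comm]
  · obtain ⟨m, hm0, hm⟩ := exists_m K hu
    have hd := differentiable_den K m
    have hden0 : (1 : ℂ) - (m : ℂ) ^ finrank ℚ K * Zeta.fac K m (1 + u * Complex.I) ≠ 0 := by
      rw [sub_ne_zero]
      exact hm.symm
    refine ⟨m, ⟨hm0⟩, fun s => (1 - (m : ℂ) ^ finrank ℚ K * Zeta.fac K m s)⁻¹, ?_, ?_⟩
    · exact (hd.analyticAt _).inv hden0
    · have h1 : ∀ᶠ s in 𝓝 (1 + u * Complex.I : ℂ), 1 - (m : ℂ) ^ finrank ℚ K * Zeta.fac K m s ≠ 0 :=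
        (hd.continuous.continuousAt).eventually_ne hden0
      filter_upwards [h1] with s hs
      rw [ef, if_neg hu, inv_mul_cancel₀ hs]

/-- **ARTIN EDGE, module Z.** -/
theorem exists_continuation_w (K : Type*) [Field K] [NumberField K] {m : ℕ} [NeZero m]
    (f : ZMod m → ℂ) (hf : ∀ x, f (-x) = f x) (u : ℝ) :
    ∃ G : ℂ → ℂ, AnalyticAt ℂ G (1 + u * Complex.I) ∧
      ∀ᶠ s in 𝓝 (1 + u * Complex.I : ℂ), 1 < s.re → G s = (if u = 0 then s - 1 else 1) *
        ∑' I : Ideal (𝓞 K), f (Ideal.absNorm I : ZMod m) * (Ideal.absNorm I : ℂ) ^ (-s) := by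
  obtain ⟨m₁, hm₁, q, hq, hq1⟩ := exists_factor K u
  have hw : (torsionOrder K : ℂ) ≠ 0 := Nat.cast_ne_zero.mpr (torsionOrder_ne_zero K)
  choose J hJ using fun C : ClassGroup (𝓞 K) => ClassGroup.mk0_surjective C⁻¹
  have hJ0 : ∀ C, Ideal.absNorm (J C : Ideal (𝓞 K)) ≠ 0 := fun C =>
    Ideal.absNorm_ne_zero_of_nonZeroDivisors _
  have hM0 : ∀ C, NeZero (m * Ideal.absNorm (J C : Ideal (𝓞 K))) := fun C =>
    ⟨mul_ne_zero (NeZero.ne m) (hJ0 C)⟩
  obtain ⟨B, hB⟩ : ∃ B : ℝ, ∀ x, ‖f x‖ ≤ B := by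
    refine ⟨∑ x, ‖f x‖, fun x => ?_⟩
    exact Finset.single_le_sum (f := fun x => ‖f x‖) (fun _ _ => norm_nonneg _) (Finset.mem_univ x)
  set bs := fun C => fractionalIdealLatticeBasis K (FractionalIdeal.mk0 K (J C)) with hbs
  have hb : ∀ C, IsBasisOf (J C) (bs C) := fun C => isBasisOf_fractionalIdealLatticeBasis (J C)
  have hN : ∀ C, ∀ a : Free.ChooseBasisIndex ℤ
      (FractionalIdeal.mk0 K (J C) : FractionalIdeal (𝓞 K)⁰ K) → ℤ, a ≠ 0 →
      1 ≤ mixedEmbedding.norm (pt (bs C) a) := fun C a ha => one_le_norm_pt (hb C) ha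
  set p := fun C => fun c : Free.ChooseBasisIndex ℤ
      (FractionalIdeal.mk0 K (J C) : FractionalIdeal (𝓞 K)⁰ K) →
      Fin (m * Ideal.absNorm (J C : Ideal (𝓞 K))) =>
    wt (gJ f (J C)) (pt (bs C) (fun i => ((c i : ℕ) : ℤ))) with hp
  have hen : ∀ n : ℕ, Differentiable ℂ fun s => en s n := by
    intro n
    unfold en
    fun_prop
  have hfac : ∀ n, Differentiable ℂ fun s => Zeta.fac K n s := by
    intro n
    unfold Zeta.fac
    fun_prop
  have hef : AnalyticAt ℂ (ef u) (1 + u * Complex.I) := by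
    have : Differentiable ℂ (ef u) := by
      unfold ef
      split_ifs <;> fun_prop
    exact this.analyticAt _
  refine ⟨fun s => ∑ C, (torsionOrder K * en s (Ideal.absNorm (J C : Ideal (𝓞 K))))⁻¹ *
    (ef u s * Dsw (bs C) (m * Ideal.absNorm (J C : Ideal (𝓞 K))) (p C) s + (∑ c, p C c) *
      (Zeta.fac K (m * Ideal.absNorm (J C : Ideal (𝓞 K))) s * (q s * Ds (bs C) m₁ s))), ?_, ?_⟩
  · refine Finset.analyticAt_fun_sum _ fun C _ => ?_
    refine AnalyticAt.mul ?_ (AnalyticAt.add ?_ ?_)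
    · refine AnalyticAt.inv ?_ (mul_ne_zero hw (en_ne_zero _ _))
      exact analyticAt_const.mul ((hen _).analyticAt _)
    · exact hef.mul (analyticAt_Dsw _ (hN C) _ _ u)
    · exact analyticAt_const.mul (((hfac _).analyticAt _).mul
        (hq.mul (analyticAt_Ds _ (hN C) m₁ u)))
  · filter_upwards [hq1] with s hs hre
    have hg : ∀ C n, ‖gJ f (J C) n‖ ≤ B := fun C n => hB _
    have h2 := fun C => unfold_w (hb C) (hg C) hre
    rw [tsum_ideals_w (f := fun n : ℕ => f (n : ZMod m)) (fun n => hB _) hre J hJ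
      (fun C => gJ f (J C)) (fun C n => by
        simp only [gJ]
        rw [Nat.mul_div_cancel_left _ (Nat.pos_of_ne_zero (hJ0 C))]) (fun C => (h2 C).1),
      Finset.mul_sum]
    refine Finset.sum_congr rfl fun C _ => ?_
    have h3 : Fintype.card (Free.ChooseBasisIndex ℤ
        (FractionalIdeal.mk0 K (J C) : FractionalIdeal (𝓞 K)⁰ K)) = finrank ℚ K := by
      rw [← finrank_eq_card_chooseBasisIndex, fractionalIdeal_rank,
        RingOfIntegers.rank]
    have h4 := split (bs C) (hN C) (m * Ideal.absNorm (J C : Ideal (𝓞 K))) (p C)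
      (P := fun a => wt (gJ f (J C)) (pt (bs C) a))
      (fun y c => periodic f hf (hb C) rfl y c) hre (summable_wt (hb C) (hg C) hre)
    have h5 := dilation (bs C) (hN C) m₁ hre
    rw [h3] at h5
    have h6 : ef u s * ∑' a, hh s (pt (bs C) a) = q s * Ds (bs C) m₁ s := by
      rw [← h5, ← hs]
      ring
    rw [← (h2 C).2, h4, ← h6]
    have h7 : (if u = 0 then s - 1 else 1) = ef u s := rfl
    rw [h7]
    ring

lemma LF_eq_tsum {f : ℕ → ℂ} {B : ℝ} (hf : ∀ n, ‖f n‖ ≤ B) {s : ℂ} (hs : 1 < s.re) :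
    LF K f s = ∑' I : Ideal (𝓞 K), f (Ideal.absNorm I) * (Ideal.absNorm I : ℂ) ^ (-s) := by
  have h0 := (summable_ideals_w (K := K) hf hs).hasSum
  have h2 := h0.tsum_fiberwise (fun I : Ideal (𝓞 K) => Ideal.absNorm I)
  rw [← h2.tsum_eq, LF, LSeries]
  refine tsum_congr fun n => ?_
  have h3 : ∑' b : (fun I : Ideal (𝓞 K) => Ideal.absNorm I) ⁻¹' {n},
      f (Ideal.absNorm (b : Ideal (𝓞 K))) * ((Ideal.absNorm (b : Ideal (𝓞 K)) : ℕ) : ℂ) ^ (-s) =
      ∑' b : (fun I : Ideal (𝓞 K) => Ideal.absNorm I) ⁻¹' {n}, f n * (n : ℂ) ^ (-s) := by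
    refine tsum_congr fun b => ?_
    have hb : Ideal.absNorm (b : Ideal (𝓞 K)) = n := b.2
    rw [hb]
  rw [h3, tsum_const, nsmul_eq_mul]
  have hs0 : s ≠ 0 := by rintro rfl; simp at hs; linarith
  rcases eq_or_ne n 0 with rfl | hn
  · rw [Nat.cast_zero, Complex.zero_cpow (neg_ne_zero.mpr hs0)]
    simp
  · have hn' : (n : ℂ) ≠ 0 := Nat.cast_ne_zero.mpr hn
    have h4 : (n : ℂ) ^ (-s) = en s n := by
      rw [Complex.cpow_def_of_ne_zero hn', en, ← Complex.natCast_log]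
      congr 1
      ring
    rw [term_eq _ _ hn, h4, mul_assoc]
    rfl

lemma exists_bound_zmod {m : ℕ} [NeZero m] (f : ZMod m → ℂ) : ∃ B : ℝ, ∀ x, ‖f x‖ ≤ B :=
  ⟨∑ x, ‖f x‖, fun x => Finset.single_le_sum (f := fun x => ‖f x‖) (fun _ _ => norm_nonneg _)
    (Finset.mem_univ x)⟩

end Z69

open NumberField Filter Topology

/-- Z6 -/
theorem LF_continuation (K : Type*) [Field K] [NumberField K] (m : ℕ) [NeZero m]
    (ψ : ZMod m → ℂ) (hψ : ∀ x, ψ (-x) = ψ x) {u : ℝ} (hu : u ≠ 0) :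
    ∃ G : ℂ → ℂ, AnalyticAt ℂ G (1 + u * Complex.I) ∧
      ∀ᶠ s in 𝓝 (1 + u * Complex.I : ℂ), 1 < s.re → G s = LF K (fun n => ψ n) s := by
  obtain ⟨B, hB⟩ := Z69.exists_bound_zmod ψ
  obtain ⟨G, hG, h⟩ := Z69.exists_continuation_w K ψ hψ u
  refine ⟨G, hG, h.mono fun s hs hre => ?_⟩
  rw [hs hre, if_neg hu, one_mul, Z69.LF_eq_tsum (fun n => hB _) hre]

/-- Z6 -/
theorem LF_pole (K : Type*) [Field K] [NumberField K] (m : ℕ) [NeZero m]
    (ψ : ZMod m → ℂ) (hψ : ∀ x, ψ (-x) = ψ x) :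
    ∃ G : ℂ → ℂ, AnalyticAt ℂ G 1 ∧
      ∀ᶠ s in 𝓝 (1 : ℂ), 1 < s.re → G s = (s - 1) * LF K (fun n => ψ n) s := by
  obtain ⟨B, hB⟩ := Z69.exists_bound_zmod ψ
  obtain ⟨G, hG, h⟩ := Z69.exists_continuation_w K ψ hψ 0
  simp only [Complex.ofReal_zero, zero_mul, add_zero] at hG h
  refine ⟨G, hG, h.mono fun s hs hre => ?_⟩
  rw [hs hre, if_pos trivial, Z69.LF_eq_tsum (fun n => hB _) hre]

end Pool.Agent.Lib.MP_bf61d2_nt.Artin
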