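import Mathlib
import Pool.Agent.Lib.MP_bf61d2_nt.Trim.Artin.Z69
import Pool.Agent.Lib.MP_bf61d2_nt.Trim.Zeta.ClassSum
import Pool.Agent.Lib.MP_bf61d2_nt.Trim.Zeta.Dilation

set_option autoImplicit false

/-!
Module ZB (EDGE REPULSION, MP_bf61d2_nt): the sum over the ideals `I` of `f (N I) (N I) ^ (-s)`,
`f` an even function on the residues mod `m`, continues to a half plane `Re s > 1 - η`, with at
most a simple pole at `s = 1`, and is of polynomial growth there.
-/

namespace NumberField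
end NumberField

namespace Pool.Agent.Lib.MP_bf61d2_nt.Zeta
end Pool.Agent.Lib.MP_bf61d2_nt.Zeta

namespace Pool.Agent.Lib.MP_bf61d2_nt.Artin.Z69
end Pool.Agent.Lib.MP_bf61d2_nt.Artin.Z69

namespace Pool.Agent.Lib.MP_bf61d2_nt.Artin.ZB69

open NumberField NumberField.mixedEmbedding NumberField.Units NumberField.InfinitePlace

open Module Filter Topology

open Pool.Agent.Lib.MP_bf61d2_nt.Zeta

open Pool.Agent.Lib.MP_bf61d2_nt.Artin.Z69

open scoped Classical nonZeroDivisors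

/-- The factor `1 - (k + 1) ^ (n (1 - s))`. -/
noncomputable def qk (K : Type*) [Field K] [NumberField K] (k : ℕ) (s : ℂ) : ℂ :=
  1 - ((k + 1 : ℕ) : ℂ) ^ finrank ℚ K * Zeta.fac K (k + 1) s

/-- The factor with the zero at `1` removed. -/
noncomputable def Qk (K : Type*) [Field K] [NumberField K] (k : ℕ) : ℂ → ℂ := dslope (qk K k) 1

section

variable (K : Type*) [Field K] [NumberField K]

lemma qk_eq (k : ℕ) (s : ℂ) : qk K k s =
    1 - Complex.exp (-((s - 1) * (finrank ℚ K * Real.log (k + 1 : ℕ) : ℝ))) := by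
  rw [qk, den_eq K (k + 1) (Nat.succ_ne_zero k)]

lemma qk_one (k : ℕ) : qk K k 1 = 0 := by
  rw [qk_eq]; simp

lemma differentiable_qk (k : ℕ) : Differentiable ℂ (qk K k) := differentiable_den K (k + 1)

lemma differentiable_Qk (k : ℕ) : Differentiable ℂ (Qk K k) := by
  have h1 : DifferentiableOn ℂ (dslope (qk K k) 1) Set.univ :=
    (Complex.differentiableOn_dslope Filter.univ_mem).mpr (differentiable_qk K k).differentiableOn
  exact differentiableOn_univ.mp h1

lemma mul_Qk (k : ℕ) (s : ℂ) : (s - 1) * Qk K k s = qk K k s := by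
  have h3 : (s - 1) • dslope (qk K k) 1 s = qk K k s - qk K k 1 := sub_smul_dslope (qk K k) 1 s
  rw [qk_one, sub_zero, smul_eq_mul] at h3
  exact h3

/-- `n log 2`. -/
noncomputable def L2 : ℝ := finrank ℚ K * Real.log (1 + 1 : ℕ)

lemma L2_pos : 0 < L2 K := by
  have hn : (0 : ℝ) < finrank ℚ K := by exact_mod_cast finrank_pos
  have h : 0 < Real.log ((1 + 1 : ℕ) : ℝ) := Real.log_pos (by norm_num)
  exact mul_pos hn h

lemma norm_w (s : ℂ) : ‖Complex.exp (-((s - 1) * (L2 K : ℝ)))‖ =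
    Real.exp (-((s.re - 1) * L2 K)) := by
  rw [Complex.norm_exp]
  congr 1
  rw [Complex.neg_re, Complex.re_mul_ofReal, Complex.sub_re, Complex.one_re]

lemma q1_eq (s : ℂ) : qk K 1 s = 1 - Complex.exp (-((s - 1) * (L2 K : ℝ))) := qk_eq K 1 s

lemma exists_k (s : ℂ) : ∃ k, Qk K k s ≠ 0 := by
  by_cases h1 : s = 1
  · refine ⟨1, ?_⟩
    rw [h1, Qk, dslope_same]
    have h2 : HasDerivAt (fun s : ℂ => 1 - Complex.exp (-((s - 1) * (L2 K : ℝ))))
      (-(Complex.exp (-(((1 : ℂ) - 1) * (L2 K : ℝ))) * (-(1 * (L2 K : ℝ))))) 1 :=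
        (((((hasDerivAt_id (1 : ℂ)).sub_const 1).mul_const _).neg).cexp).const_sub 1
    have h3 : qk K 1 = fun s : ℂ => 1 - Complex.exp (-((s - 1) * (L2 K : ℝ))) :=
      funext (q1_eq K)
    rw [h3, h2.deriv]
    simp [(L2_pos K).ne']
  · suffices h : ∃ k, qk K k s ≠ 0 by
      obtain ⟨k, hk⟩ := h
      refine ⟨k, fun h => hk ?_⟩
      rw [← mul_Qk, h, mul_zero]
    by_cases h2 : s.re = 1
    · have hu : s.im ≠ 0 := fun h => h1 (Complex.ext (by simpa using h2) (by simpa using h))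
      obtain ⟨m, hm0, hm⟩ := exists_m K hu
      obtain ⟨k, rfl⟩ := Nat.exists_eq_succ_of_ne_zero hm0
      refine ⟨k, ?_⟩
      have hs : s = 1 + s.im * Complex.I := Complex.ext (by simp [h2]) (by simp)
      rw [hs, qk, sub_ne_zero]
      exact hm.symm
    · refine ⟨1, ?_⟩
      rw [q1_eq, sub_ne_zero]
      intro h
      have h3 := norm_w K s
      rw [← h, norm_one] at h3
      have h4 := (Real.exp_eq_one_iff _).mp h3.symm
      rw [neg_eq_zero, mul_eq_zero] at h4
      rcases h4 with h4 | h4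
      · exact h2 (by linarith)
      · exact (L2_pos K).ne' h4

/-- Lower bounds for the factor on the sides of a rectangle. -/
lemma norm_q_horizontal {s : ℂ} {j : ℤ} (h : s.im * L2 K = (2 * j + 1) * Real.pi) :
    1 ≤ ‖qk K 1 s‖ := by
  rw [q1_eq]
  have e : -((s - 1) * (L2 K : ℂ)) = ((-((s.re - 1) * L2 K) : ℝ) : ℂ) +
      (-(Real.pi * Complex.I) + ((-j : ℤ) : ℂ) * (2 * Real.pi * Complex.I)) := by
    have h2 : (s.im : ℂ) * (L2 K : ℂ) = (2 * j + 1) * Real.pi := by exact_mod_cast h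
    have h3 : s = s.re + s.im * Complex.I := (Complex.re_add_im s).symm
    have h4 : -((s - 1) * (L2 K : ℂ)) = -(((s.re : ℂ) - 1) * L2 K) -
        ((s.im : ℂ) * L2 K) * Complex.I := by
      conv_lhs => rw [h3]
      ring
    rw [h4, h2]
    push_cast
    ring
  rw [e, Complex.exp_add, Complex.exp_add, Complex.exp_int_mul_two_pi_mul_I, mul_one,
    Complex.exp_neg, Complex.exp_pi_mul_I, ← Complex.ofReal_exp]
  set r : ℝ := Real.exp (-((s.re - 1) * L2 K)) with hr
  have hr0 : 0 < r := Real.exp_pos _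
  have e2 : (1 : ℂ) - (r : ℂ) * (-1)⁻¹ = ((1 + r : ℝ) : ℂ) := by
    push_cast
    norm_num
  rw [e2, Complex.norm_real, Real.norm_eq_abs, abs_of_pos (by linarith)]
  linarith

lemma norm_q_left {s : ℂ} : Real.exp ((1 - s.re) * L2 K) - 1 ≤ ‖qk K 1 s‖ := by
  rw [q1_eq]
  have h := norm_sub_norm_le (Complex.exp (-((s - 1) * (L2 K : ℝ)))) 1
  rw [norm_w, norm_one, norm_sub_rev] at h
  have e : -((s.re - 1) * L2 K) = (1 - s.re) * L2 K := by ring
  rwa [e] at h

lemma norm_q_right {s : ℂ} : 1 - Real.exp (-((s.re - 1) * L2 K)) ≤ ‖qk K 1 s‖ := by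
  rw [q1_eq]
  have h := norm_sub_norm_le 1 (Complex.exp (-((s - 1) * (L2 K : ℝ))))
  rwa [norm_w, norm_one] at h

lemma isOpen_half (a : ℝ) : IsOpen {s : ℂ | a < s.re} :=
  isOpen_lt continuous_const Complex.continuous_re

lemma isPreconnected_half (a : ℝ) : IsPreconnected {s : ℂ | a < s.re} :=
  (convex_halfSpace_re_gt a).isPreconnected

/-- The abstract continuation. -/
theorem exists_cont {a : ℝ} (ha : a < 1) (D : ℕ → ℂ → ℂ) (Z : ℂ → ℂ)
    (hD : ∀ k, DifferentiableOn ℂ (D k) {s | a < s.re})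
    (hZ : ∀ k s, 1 < s.re → qk K k s * Z s = D k s) :
    ∃ H : ℂ → ℂ, DifferentiableOn ℂ H {s | a < s.re} ∧
      (∀ s, 1 < s.re → H s = (s - 1) * Z s) ∧
      ∀ k s, a < s.re → H s * Qk K k s = D k s := by
  have hQ : ∀ k, DifferentiableOn ℂ (Qk K k) {s | a < s.re} := fun k =>
    (differentiable_Qk K k).differentiableOn
  have hid : ∀ k l, Set.EqOn (fun s => D k s * Qk K l s) (fun s => D l s * Qk K k s)
      {s | a < s.re} := by
    intro k l
    refine AnalyticOnNhd.eqOn_of_preconnected_of_eventuallyEq (z₀ := 2)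
      (((hD k).mul (hQ l)).analyticOnNhd (isOpen_half a))
      (((hD l).mul (hQ k)).analyticOnNhd (isOpen_half a)) (isPreconnected_half a) ?_ ?_
    · show a < (2 : ℂ).re
      simp
      linarith
    · filter_upwards [(isOpen_half 1).mem_nhds (show (2 : ℂ) ∈ {s : ℂ | 1 < s.re} by simp)] with s hs
      rw [← hZ k s hs, ← hZ l s hs, ← mul_Qk K k, ← mul_Qk K l]
      ring
  choose κ hκ using exists_k K
  have hH : ∀ k s, a < s.re → D (κ s) s / Qk K (κ s) s * Qk K k s = D k s := by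
    intro k s hs
    have h := hid (κ s) k hs
    simp only at h
    rw [div_mul_eq_mul_div, h, mul_div_assoc, div_self (hκ s), mul_one]
  refine ⟨fun s => D (κ s) s / Qk K (κ s) s, ?_, ?_, hH⟩
  · intro s₀ hs₀
    have h1 : ∀ᶠ s in 𝓝 s₀, Qk K (κ s₀) s ≠ 0 :=
      ((differentiable_Qk K (κ s₀)).continuous.continuousAt).eventually_ne (hκ s₀)
    have h2 : (fun s => D (κ s) s / Qk K (κ s) s) =ᶠ[𝓝 s₀]
        fun s => D (κ s₀) s / Qk K (κ s₀) s := by
      filter_upwards [h1, (isOpen_half a).mem_nhds hs₀] with s hs hs'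
      rw [eq_div_iff hs]
      exact hH (κ s₀) s hs'
    have h3 : DifferentiableAt ℂ (fun s => D (κ s₀) s / Qk K (κ s₀) s) s₀ :=
      ((hD (κ s₀)).differentiableAt ((isOpen_half a).mem_nhds hs₀)).div
        (differentiable_Qk K (κ s₀) s₀) (hκ s₀)
    exact (h3.congr_of_eventuallyEq h2).differentiableWithinAt
  · intro s hs
    simp only
    rw [div_eq_iff (hκ s), ← hZ (κ s) s hs, ← mul_Qk K (κ s)]
    ring

end

end Pool.Agent.Lib.MP_bf61d2_nt.Artin.ZB69
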