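import Mathlib
import Pool.Agent.Lib.MP_bf61d2_nt.Trim.Artin.Defs63
import Pool.Agent.Lib.MP_bf61d2_nt.Trim.Perm.Defs

set_option autoImplicit false

/-!
ARTIN EDGE (MP_bf61d2_nt): equidistribution of the products of a permutation character and an even
Dirichlet character of the cyclotomic character (module H1).
-/

namespace NumberField
end NumberField

namespace Pool.Agent.Lib.MP_bf61d2_nt.Perm
end Pool.Agent.Lib.MP_bf61d2_nt.Perm

namespace Pool.Agent.Lib.MP_bf61d2_nt.Artin.H19
end Pool.Agent.Lib.MP_bf61d2_nt.Artin.H19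

namespace Pool.Agent.Lib.MP_bf61d2_nt.Artin

open NumberField IsDedekindDomain Filter Topology Polynomial Module

open Pool.Agent.Lib.MP_bf61d2_nt.Perm

open scoped Classical nonZeroDivisors

namespace H19

/-! ### The mean value -/

/-- Sum of a linear character over the group, weighted with a permutation character. -/
lemma sum_fp_mul {G : Type*} [Group G] [Fintype G] (H : Subgroup G) (ψ : G →* ℂ) :
    ∑ g : G, (fp (G ⧸ H) g : ℂ) * ψ g = (Fintype.card (G ⧸ H) : ℂ) * ∑ h : H, ψ h := by
  have h1 : ∀ g : G, (fp (G ⧸ H) g : ℂ) * ψ g = ∑ x : G ⧸ H, if g • x = x then ψ g else 0 := by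
    intro g
    rw [← Finset.sum_filter, Finset.sum_const, nsmul_eq_mul, fp, Nat.card_eq_fintype_card,
      Fintype.card_subtype]
  simp_rw [h1]
  rw [Finset.sum_comm]
  have h2 : ∀ x : G ⧸ H, (∑ g : G, if g • x = x then ψ g else 0) = ∑ h : H, ψ h := by
    intro x
    induction x using QuotientGroup.induction_on with
    | H a =>
      rw [← Equiv.sum_comp (MulAut.conj a).toEquiv]
      have h3 : ∀ g : G, (if (MulAut.conj a).toEquiv g • (a : G ⧸ H) = a then
          ψ ((MulAut.conj a).toEquiv g) else 0) = if g ∈ H then ψ g else 0 := by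
        intro g
        have e1 : (MulAut.conj a).toEquiv g = a * g * a⁻¹ := rfl
        have e2 : (a * g * a⁻¹) • (a : G ⧸ H) = ((a * g : G) : G ⧸ H) := by
          rw [MulAction.Quotient.smul_coe, smul_eq_mul]
          congr 1
          group
        have e3 : ψ (a * g * a⁻¹) = ψ g := by
          have : ψ a * ψ a⁻¹ = 1 := by rw [← map_mul, mul_inv_cancel, map_one]
          rw [map_mul, map_mul, mul_right_comm, this, one_mul]
        rw [e1, e2, e3]
        have e4 : (((a * g : G) : G ⧸ H) = (a : G ⧸ H)) ↔ g ∈ H := by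
          rw [eq_comm, QuotientGroup.eq, inv_mul_cancel_left]
        simp only [e4]
      simp_rw [h3]
      rw [← Finset.sum_filter]
      exact Finset.sum_subtype _ (fun g => by simp) _
  simp_rw [h2]
  rw [Finset.sum_const, nsmul_eq_mul, Finset.card_univ]

lemma mean_fp_mul {G : Type*} [Group G] [Fintype G] (H : Subgroup G) (ψ : G →* ℂ) :
    (∑ g : G, (fp (G ⧸ H) g : ℂ) * ψ g) / Fintype.card G =
      if ∀ h ∈ H, ψ h = 1 then 1 else 0 := by
  rw [sum_fp_mul]
  split_ifs with hc
  · have h1 : ∑ h : H, ψ h = Fintype.card H := by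
      have h2 : ∀ h : H, ψ (h : G) = 1 := fun h => hc h.1 h.2
      simp [h2]
    rw [h1]
    have h2 := Subgroup.card_eq_card_quotient_mul_card_subgroup H
    rw [Nat.card_eq_fintype_card, Nat.card_eq_fintype_card, Nat.card_eq_fintype_card] at h2
    rw [h2]
    push_cast
    refine div_self ?_
    have h3 : (Fintype.card (G ⧸ H) : ℂ) ≠ 0 := by exact_mod_cast Fintype.card_ne_zero
    have h4 : (Fintype.card H : ℂ) ≠ 0 := by exact_mod_cast Fintype.card_ne_zero
    exact mul_ne_zero h3 h4
  · have h1 : ∑ h : H, (ψ.comp H.subtype) h = 0 := by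
      refine sum_hom_units_eq_zero _ fun hh => hc fun h hh' => ?_
      have := DFunLike.congr_fun hh ⟨h, hh'⟩
      simpa using this
    have h2 : ∑ h : H, ψ h = 0 := h1
    rw [h2, mul_zero, zero_div]

/-- The cyclotomic character of an automorphism over an intermediate field. -/
lemma autToPow_restrict {K L : Type*} [Field K] [Field L] [Algebra K L] {m : ℕ} [NeZero m]
    {ζ : L} (hζ : IsPrimitiveRoot ζ m) (F : IntermediateField K L) (g : Gal(L/K)) (g' : Gal(L/F))
    (h : ∀ x, g' x = g x) : hζ.autToPow F g' = hζ.autToPow K g := by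
  have h1 := hζ.autToPow_spec K g
  have h2 := hζ.autToPow_spec F g'
  rw [h, ← h1] at h2
  have h3 := hζ.pow_inj (ZMod.val_lt _) (ZMod.val_lt _) h2
  exact Units.ext (ZMod.val_injective m h3)

lemma forall_iff {K L : Type*} [Field K] [Field L] [Algebra K L] [FiniteDimensional K L]
    [IsGalois K L] {m : ℕ} [NeZero m] {ζ : L} (hζ : IsPrimitiveRoot ζ m) (H : Subgroup Gal(L/K))
    (f : (ZMod m)ˣ → Prop) : (∀ g : Gal(L/(IntermediateField.fixedField H)),
      f (hζ.autToPow (IntermediateField.fixedField H) g)) ↔ ∀ h ∈ H, f (hζ.autToPow K h) := by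
  have e := IntermediateField.fixingSubgroup_fixedField H
  constructor
  · intro hh h hH
    have h1 : h ∈ (IntermediateField.fixedField H).fixingSubgroup := by rw [e]; exact hH
    have h2 := hh ((IntermediateField.fixedField H).fixingSubgroupEquiv ⟨h, h1⟩)
    rwa [autToPow_restrict hζ (IntermediateField.fixedField H) h _ fun x => rfl] at h2
  · intro hh g
    have h1 : ((IntermediateField.fixedField H).fixingSubgroupEquiv.symm g : Gal(L/K)) ∈ H :=
      e.le ((IntermediateField.fixedField H).fixingSubgroupEquiv.symm g).2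
    have h2 := hh _ h1
    rwa [← autToPow_restrict hζ (IntermediateField.fixedField H) _ g fun x => rfl] at h2

/-! ### Complex weighted sums -/

section SC

variable {K : Type*} [Field K] [NumberField K]

end SC

/-- The function of the norm. -/
noncomputable def GG {m : ℕ} (χ : DirichletCharacter ℂ m) (u : ℝ) (n : ℕ) : ℂ := χ n * ph u n

lemma norm_ph (u : ℝ) (n : ℕ) : ‖ph u n‖ = 1 := by
  rw [ph, Complex.norm_exp_ofReal_mul_I]

lemma norm_GG_le {m : ℕ} (χ : DirichletCharacter ℂ m) (u : ℝ) (n : ℕ) : ‖GG χ u n‖ ≤ 1 := by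
  rw [GG, norm_mul, norm_ph, mul_one]
  exact χ.norm_le_one _

end H19

open H19

section

variable {K L : Type*} [Field K] [NumberField K] [Field L] [NumberField L] [Algebra K L]
  [IsGalois K L] [Fintype Gal(L/K)]

end

end Pool.Agent.Lib.MP_bf61d2_nt.Artin
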