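import Mathlib
import Pool.Agent.Lib.MP_bf61d2_nt.Trim.Local
import Pool.Agent.Lib.MP_bf61d2_nt.Trim.LocalCurve
import Pool.Agent.Lib.MP_bf61d2_nt.Trim.Model
import Pool.Agent.Lib.MP_bf61d2_nt.Trim.Perm.Base
import Pool.Agent.Lib.MP_bf61d2_nt.Trim.Places
import Pool.Agent.Lib.MP_bf61d2_nt.Trim.Quad
import Pool.Agent.Lib.MP_bf61d2_nt.Trim.Residue
import Pool.Agent.Lib.MP_bf61d2_nt.Trim.Structure
import Pool.Agent.Lib.MP_bf61d2_nt.Trim.TwistLocal

set_option autoImplicit false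

/-!
K-curves: conjugate curves.
-/

namespace NumberField
end NumberField

namespace WeierstrassCurve
end WeierstrassCurve

namespace Pool.Agent.Lib.MP_bf61d2_nt.Perm
end Pool.Agent.Lib.MP_bf61d2_nt.Perm

namespace Pool.Agent.Lib.MP_bf61d2_nt.Artin

open NumberField IsDedekindDomain Filter Topology Polynomial Module WeierstrassCurve IsLocalRing

open Pool.Agent.Lib.MP_bf61d2_nt.Perm

section Good

variable {F : Type*} [Field F] [NumberField F]

/-- The local polynomial of a curve with a good integral model. -/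
theorem lp_of_good63 (v : HeightOneSpectrum (𝓞 F)) {W : WeierstrassCurve F}
    (W₀ : WeierstrassCurve (𝓞 F)) (C : VariableChange F)
    (hC : W = C • W₀.map (algebraMap (𝓞 F) F)) (hΔ : W₀.Δ ∉ v.asIdeal)
    (h2 : (2 : 𝓞 F) ∉ v.asIdeal) (h3 : (3 : 𝓞 F) ∉ v.asIdeal) :
    lp W v = quad ((nm v : ℤ) + 1 - Nat.card (W₀.map (red v)).toAffine.Point) (nm v) := by
  have hcard : Nat.card (IsLocalRing.ResidueField (v.adicCompletionIntegers F)) = nm v :=
    card_residue v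
  have h := localPolynomial_of_good (v.adicCompletionIntegers F) (F := v.adicCompletion F)
    (W := W.baseChange (v.adicCompletion F))
    (W₀.map (algebraMap (𝓞 F) (v.adicCompletionIntegers F)))
    (C.map (algebraMap F (v.adicCompletion F)))
    (by
      rw [hC, WeierstrassCurve.baseChange, ← map_variableChange, WeierstrassCurve.map_map, WeierstrassCurve.map_map]
      rfl)
    (by
      rw [map_Δ]
      exact isUnit_algebraMap v hΔ)
    (by
      have := isUnit_algebraMap v h2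
      rwa [map_ofNat] at this)
    (by
      have := isUnit_algebraMap v h3
      rwa [map_ofNat] at this)
  rw [WeierstrassCurve.map_map, hcard] at h
  rw [lp, h]
  rfl

/-- The local polynomial of an isomorphic curve. -/
theorem lp_change63 (E : WeierstrassCurve F) [E.IsElliptic] (C : VariableChange F) :
    ∃ S : Finset (HeightOneSpectrum (𝓞 F)), ∀ v, v ∉ S → lp (C • E) v = lp E v := by
  obtain ⟨W₀, C₀, hE, hΔ⟩ := exists_integral_model E
  have h6 : (6 : 𝓞 F) * W₀.Δ ≠ 0 := mul_ne_zero (by norm_num) hΔ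
  refine ⟨(finite_dvd h6).toFinset, fun v hv => ?_⟩
  rw [Set.Finite.mem_toFinset] at hv
  have hv6 : (6 : 𝓞 F) * W₀.Δ ∉ v.asIdeal := hv
  have h2 : (2 : 𝓞 F) ∉ v.asIdeal := fun h => hv6 (by
    have : (6 : 𝓞 F) * W₀.Δ = 3 * W₀.Δ * 2 := by ring
    rw [this]; exact Ideal.mul_mem_left _ _ h)
  have h3 : (3 : 𝓞 F) ∉ v.asIdeal := fun h => hv6 (by
    have : (6 : 𝓞 F) * W₀.Δ = 2 * W₀.Δ * 3 := by ring
    rw [this]; exact Ideal.mul_mem_left _ _ h)
  have h5 : W₀.Δ ∉ v.asIdeal := fun h => hv6 (Ideal.mul_mem_left _ _ h)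
  rw [lp_of_good63 v W₀ C₀ hE h5 h2 h3,
    lp_of_good63 v W₀ (C * C₀) (W := C • E) (by rw [mul_smul, ← hE]) h5 h2 h3]

/-- The permutation of the places. -/
noncomputable def eqv63 (τ : F ≃+* F) :
    HeightOneSpectrum (𝓞 F) ≃ HeightOneSpectrum (𝓞 F) :=
  HeightOneSpectrum.equivOfRingEquiv (RingOfIntegers.mapRingEquiv τ)

lemma mem_eqv63 (τ : F ≃+* F) (v : HeightOneSpectrum (𝓞 F)) (x : 𝓞 F) :
    RingOfIntegers.mapRingEquiv τ x ∈ (eqv63 τ v).asIdeal ↔ x ∈ v.asIdeal := by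
  have h : (eqv63 τ v).asIdeal =
      v.asIdeal.comap ((RingOfIntegers.mapRingEquiv τ).symm : 𝓞 F →+* 𝓞 F) := rfl
  rw [h, Ideal.mem_comap]
  have h2 : ((RingOfIntegers.mapRingEquiv τ).symm : 𝓞 F →+* 𝓞 F)
      (RingOfIntegers.mapRingEquiv τ x) = x := RingEquiv.symm_apply_apply _ x
  rw [h2]

lemma exists_residue_eqv63 (τ : F ≃+* F) (v : HeightOneSpectrum (𝓞 F)) :
    ∃ f : ResidueField (v.adicCompletionIntegers F) →+*
      ResidueField ((eqv63 τ v).adicCompletionIntegers F), Function.Bijective f ∧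
      f.comp (red v) = (red (eqv63 τ v)).comp (RingOfIntegers.mapRingEquiv τ : 𝓞 F →+* 𝓞 F) := by
  obtain ⟨f, hcomp⟩ : ∃ f : ResidueField (v.adicCompletionIntegers F) →+*
      ResidueField ((eqv63 τ v).adicCompletionIntegers F),
      f.comp (red v) =
        (red (eqv63 τ v)).comp (RingOfIntegers.mapRingEquiv τ : 𝓞 F →+* 𝓞 F) := by
    refine ⟨(red v).liftOfSurjective (red_surjective v)
      ⟨(red (eqv63 τ v)).comp (RingOfIntegers.mapRingEquiv τ : 𝓞 F →+* 𝓞 F), fun x hx => ?_⟩, ?_⟩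
    · rw [RingHom.mem_ker, red_eq_zero_iff] at hx
      rw [RingHom.mem_ker, RingHom.comp_apply, red_eq_zero_iff]
      exact (mem_eqv63 τ v x).mpr hx
    · exact RingHom.liftOfRightInverse_comp _ _ _ _
  refine ⟨f, ⟨f.injective, fun y => ?_⟩, hcomp⟩
  obtain ⟨x, rfl⟩ := red_surjective (eqv63 τ v) y
  refine ⟨red v ((RingOfIntegers.mapRingEquiv τ).symm x), ?_⟩
  rw [← RingHom.comp_apply, hcomp, RingHom.comp_apply]
  congr 1
  exact RingEquiv.apply_symm_apply _ x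

lemma nm_eqv63 (τ : F ≃+* F) (v : HeightOneSpectrum (𝓞 F)) : nm (eqv63 τ v) = nm v := by
  obtain ⟨f, hf, -⟩ := exists_residue_eqv63 τ v
  have h1 : Nat.card (ResidueField (v.adicCompletionIntegers F)) = nm v := card_residue v
  have h2 : Nat.card (ResidueField ((eqv63 τ v).adicCompletionIntegers F)) = nm (eqv63 τ v) :=
    card_residue _
  rw [← h1, ← h2]
  exact (Nat.card_eq_of_bijective f hf).symm

lemma pr_eqv63 (τ : F ≃+* F) (v : HeightOneSpectrum (𝓞 F)) : pr (eqv63 τ v) = pr v := by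
  obtain ⟨a, ha, h1⟩ := nm_eq (eqv63 τ v)
  obtain ⟨b, hb, h2⟩ := nm_eq v
  rw [nm_eqv63, h2] at h1
  have h3 : pr (eqv63 τ v) ∣ pr v ^ b := by
    rw [h1]
    exact dvd_pow_self _ (by omega)
  exact (Nat.prime_dvd_prime_iff_eq (pr_prime _) (pr_prime _)).mp
    ((pr_prime _).dvd_of_dvd_pow h3)

/-- The local polynomials of the conjugate curve. -/
theorem lp_conj63 (τ : F ≃+* F) (E : WeierstrassCurve F) [E.IsElliptic] :
    ∃ S : Finset (HeightOneSpectrum (𝓞 F)), ∀ v, v ∉ S →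
      lp (E.map (τ : F →+* F)) (eqv63 τ v) = lp E v := by
  obtain ⟨W₀, C₀, hE, hΔ⟩ := exists_integral_model E
  have h6 : (6 : 𝓞 F) * W₀.Δ ≠ 0 := mul_ne_zero (by norm_num) hΔ
  refine ⟨(finite_dvd h6).toFinset, fun v hv => ?_⟩
  rw [Set.Finite.mem_toFinset] at hv
  have hv6 : (6 : 𝓞 F) * W₀.Δ ∉ v.asIdeal := hv
  have h2 : (2 : 𝓞 F) ∉ v.asIdeal := fun h => hv6 (by
    have : (6 : 𝓞 F) * W₀.Δ = 3 * W₀.Δ * 2 := by ring
    rw [this]; exact Ideal.mul_mem_left _ _ h)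
  have h3 : (3 : 𝓞 F) ∉ v.asIdeal := fun h => hv6 (by
    have : (6 : 𝓞 F) * W₀.Δ = 2 * W₀.Δ * 3 := by ring
    rw [this]; exact Ideal.mul_mem_left _ _ h)
  have h5 : W₀.Δ ∉ v.asIdeal := fun h => hv6 (Ideal.mul_mem_left _ _ h)
  set σ : 𝓞 F →+* 𝓞 F := (RingOfIntegers.mapRingEquiv τ : 𝓞 F →+* 𝓞 F) with hσ
  have hσ2 : σ 2 = 2 := map_ofNat σ 2
  have hσ3 : σ 3 = 3 := map_ofNat σ 3
  have hmem : ∀ x : 𝓞 F, σ x ∈ (eqv63 τ v).asIdeal ↔ x ∈ v.asIdeal := mem_eqv63 τ v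
  have hEτ : E.map (τ : F →+* F) =
      C₀.map (τ : F →+* F) • (W₀.map σ).map (algebraMap (𝓞 F) F) := by
    rw [hE, ← map_variableChange, WeierstrassCurve.map_map, WeierstrassCurve.map_map]
    rfl
  rw [lp_of_good63 v W₀ C₀ hE h5 h2 h3,
    lp_of_good63 (eqv63 τ v) (W₀.map σ) (C₀.map (τ : F →+* F)) hEτ
      (by rw [map_Δ, hmem]; exact h5) (by rw [← hσ2, hmem]; exact h2)
      (by rw [← hσ3, hmem]; exact h3), nm_eqv63]
  obtain ⟨f, hf, hcomp⟩ := exists_residue_eqv63 τ v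
  have hell : (W₀.map (red v)).IsElliptic := by
    refine ⟨?_⟩
    rw [map_Δ]
    exact isUnit_iff_ne_zero.mpr fun h => h5 ((red_eq_zero_iff v _).mp h)
  have hcard := card_point_map (W₀.map (red v)) f hf
  rw [WeierstrassCurve.map_map, hcomp, ← WeierstrassCurve.map_map] at hcard
  rw [hcard]

/-- The normalised traces of the conjugate curve. -/
lemma cc_eqv63 {τ : F ≃+* F} {E E' : WeierstrassCurve F} {v : HeightOneSpectrum (𝓞 F)}
    (h : lp E' (eqv63 τ v) = lp E v) : cc E' (eqv63 τ v) = cc E v := by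
  unfold cc
  rw [tr, tr, h, nm_eqv63, pr_eqv63]

end Good

end Pool.Agent.Lib.MP_bf61d2_nt.Artin
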