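import Mathlib
import Pool.Agent.Lib.MP_bf61d2_nt.Trim.Artin.Defs63
import Pool.Agent.Lib.MP_bf61d2_nt.Trim.Artin.KDefs63
import Pool.Agent.Lib.MP_bf61d2_nt.Trim.Artin.S1x29
import Pool.Agent.Lib.MP_bf61d2_nt.Trim.Joint.Main
import Pool.Agent.Lib.MP_bf61d2_nt.Trim.Places
import Pool.Agent.Lib.MP_bf61d2_nt.Trim.Quad
import Pool.Agent.Lib.MP_bf61d2_nt.Trim.Residue
import Pool.Agent.Lib.MP_bf61d2_nt.Trim.Structure
import Pool.Agent.Lib.MP_bf61d2_nt.Trim.TwistLocal
import Pool.Agent.Lib.MP_bf61d2_nt.Trim.TwistMain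

set_option autoImplicit false

/-!
K-curves (MP_bf61d2_nt), module K2: the quadratic twist and Frobenius elements.
-/

namespace NumberField
end NumberField

namespace WeierstrassCurve
end WeierstrassCurve

namespace Pool.Agent.Lib.MP_bf61d2_nt.Perm
end Pool.Agent.Lib.MP_bf61d2_nt.Perm

namespace Pool.Agent.Lib.MP_bf61d2_nt.Artin

open NumberField IsDedekindDomain Filter Topology Polynomial Module WeierstrassCurve

open Pool.Agent.Lib.MP_bf61d2_nt.Perm

namespace K2h3

section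

variable {F : Type*} [Field F] [NumberField F]

/-- The norm of a place without `2` is odd. -/
lemma odd_nm {v : HeightOneSpectrum (𝓞 F)} (h2 : (2 : 𝓞 F) ∉ v.asIdeal) : Odd (nm v) := by
  obtain ⟨f, hf, hv⟩ := nm_eq v
  rw [hv]
  refine Odd.pow ?_
  rcases (pr_prime v).eq_two_or_odd' with h | h
  · exfalso
    apply h2
    have := pr_mem v
    rw [h] at this
    exact_mod_cast this
  · exact h

/-- The criterion of Euler. -/
lemma euler (v : HeightOneSpectrum (𝓞 F)) (h2 : (2 : 𝓞 F) ∉ v.asIdeal) (e : 𝓞 F) :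
    e ^ (nm v / 2) - ((chi v e : ℤ) : 𝓞 F) ∈ v.asIdeal := by
  classical
  let := Fintype.ofFinite (IsLocalRing.ResidueField (v.adicCompletionIntegers F))
  have h1 := quadraticChar_eq_pow_of_char_ne_two' (ringChar_residue_ne_two v h2) (red v e)
  have hcard : Fintype.card (IsLocalRing.ResidueField (v.adicCompletionIntegers F)) = nm v := by
    rw [← Nat.card_eq_fintype_card]; exact card_residue v
  rw [← red_eq_zero_iff, map_sub, map_pow, map_intCast, sub_eq_zero, ← hcard]
  exact h1.symm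

end

end K2h3

/-- K2: the quadratic twist and Frobenius elements. -/
theorem cc_qt_frob {F M : Type*} [Field F] [NumberField F] [Field M] [NumberField M] [Algebra F M]
    [IsGalois F M] (E : WeierstrassCurve F) [E.IsElliptic]
    {Fr : HeightOneSpectrum (𝓞 F) → Gal(M/F)} (hFr : ∀ v, IsFr v (Fr v)) {d : F} (hd : d ≠ 0)
    {θ : M} (hθ : θ ^ 2 = algebraMap F M d) :
    ∃ S : Finset (HeightOneSpectrum (𝓞 F)), ∀ v, v ∉ S → cc (qt E d) v = sg θ (Fr v) * cc E v := by
  classical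
  obtain ⟨e, m, he0, hm0, hem⟩ := exists_sqrep hd
  have hm : (m : F) ≠ 0 := by simpa using hm0
  obtain ⟨S, hS⟩ := exists_cc_qt E he0 hm0 hem
  have hmM : algebraMap F M (m : F) ≠ 0 := by simpa using hm
  have hθ₀sq : (θ * algebraMap F M (m : F)) ^ 2 = algebraMap F M (e : F) := by
    rw [mul_pow, hθ, ← map_pow, ← map_mul, hem]
  have hint : IsIntegral ℤ (θ * algebraMap F M (m : F)) := by
    refine IsIntegral.of_pow (n := 2) (by norm_num) ?_
    rw [hθ₀sq]
    exact (RingOfIntegers.isIntegral_coe e).algebraMap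
  set θ' : 𝓞 M := ⟨θ * algebraMap F M (m : F), hint⟩ with hθ'
  have hcoe : (θ' : M) = θ * algebraMap F M (m : F) := rfl
  have hθ'sq : θ' ^ 2 = algebraMap (𝓞 F) (𝓞 M) e := by
    apply RingOfIntegers.coe_injective
    rw [map_pow]
    exact hθ₀sq
  refine ⟨S, fun v hv => ?_⟩
  obtain ⟨h2, hev, hcc⟩ := hS v hv
  rw [hcc]
  congr 1
  obtain ⟨P, hPv, hP⟩ := hFr v
  set g := Fr v with hg
  -- the sign
  obtain ⟨s, hs, hsg, hsθ⟩ : ∃ s : ℤ, (s = 1 ∨ s = -1) ∧ sg θ g = (s : ℝ) ∧
      g • θ' = (s : 𝓞 M) * θ' := by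
    have hgsq : (g θ) ^ 2 = θ ^ 2 := by
      rw [← map_pow, hθ, g.commutes]
    have hsmul : ∀ s : ℤ, g θ = (s : M) * θ → g • θ' = (s : 𝓞 M) * θ' := by
      intro s h
      apply RingOfIntegers.coe_injective
      rw [map_mul, map_intCast]
      have h1 : algebraMap (𝓞 M) M (g • θ') = g (θ' : M) := rfl
      rw [h1, hcoe, map_mul, g.commutes, h, mul_assoc]
      rfl
    rcases sq_eq_sq_iff_eq_or_eq_neg.mp hgsq with h | h
    · refine ⟨1, Or.inl rfl, ?_, hsmul 1 (by rw [h]; simp)⟩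
      unfold sg
      rw [if_pos h]
      simp
    · refine ⟨-1, Or.inr rfl, ?_, hsmul (-1) (by rw [h]; simp)⟩
      unfold sg
      rw [if_neg, Int.cast_neg, Int.cast_one]
      intro h'
      rw [h] at h'
      have h3 : (2 : M) * θ = 0 := by linear_combination -h'
      have h4 : θ = 0 := by
        rcases mul_eq_zero.mp h3 with h5 | h5
        · norm_num at h5
        · exact h5
      rw [h4, zero_pow (by norm_num)] at hθ
      exact hd ((map_eq_zero _).mp hθ.symm)
  rw [hsg]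
  -- the congruence
  obtain ⟨k, hk⟩ := K2h3.odd_nm h2
  have hk2 : nm v / 2 = k := by omega
  have hpow : θ' ^ nm v = θ' * algebraMap (𝓞 F) (𝓞 M) (e ^ k) := by
    rw [hk, pow_succ, pow_mul, hθ'sq, map_pow, mul_comm]
  have h3 := hP θ'
  rw [hsθ, hpow] at h3
  have h4 : algebraMap (𝓞 F) (𝓞 M) ((s : 𝓞 F) - e ^ k) * θ' ∈ P.asIdeal := by
    have e1 : algebraMap (𝓞 F) (𝓞 M) ((s : 𝓞 F) - e ^ k) * θ' =
        (s : 𝓞 M) * θ' - θ' * algebraMap (𝓞 F) (𝓞 M) (e ^ k) := by
      rw [map_sub, map_intCast]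
      ring
    rw [e1]
    exact h3
  have h5 : θ' ∉ P.asIdeal := by
    intro h
    apply hev
    rw [← hPv, mem_dn, ← hθ'sq, sq]
    exact Ideal.mul_mem_left _ _ h
  have h6 : (s : 𝓞 F) - e ^ k ∈ v.asIdeal := by
    rw [← hPv, mem_dn]
    exact (P.isPrime.mem_or_mem h4).resolve_right h5
  have h7 := K2h3.euler v h2 e
  rw [hk2] at h7
  have h8 : ((s - chi v e : ℤ) : 𝓞 F) ∈ v.asIdeal := by
    have := Ideal.add_mem _ h6 h7
    rw [sub_add_sub_cancel] at this
    push_cast
    exact this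
  have h9 : s = chi v e := by
    by_contra hne
    apply h2
    rcases hs with rfl | rfl <;> rcases chi_eq_one_or v hev with h | h
    · exact absurd h.symm hne
    · rw [h] at h8
      norm_num at h8
      exact h8
    · rw [h] at h8
      norm_num at h8
      exact (Ideal.neg_mem_iff _).mp (by simpa using h8)
    · exact absurd h.symm hne
  rw [h9]

end Pool.Agent.Lib.MP_bf61d2_nt.Artin
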