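import Mathlib
import Pool.Agent.Lib.MP_bf61d2_nt.Trim.Artin.KDefs63

set_option autoImplicit false

/-!
K-curves: the mean square of a sum of quadratic characters (module K3).
-/

namespace Pool.Agent.Lib.MP_bf61d2_nt.Artin

namespace K314

variable {F M : Type*} [Field F] [Field M] [Algebra F M]

theorem sg_eq_one {θ : M} {g : Gal(M/F)} (h : g θ = θ) : sg θ g = 1 := by
  unfold sg
  rw [if_pos h]

theorem sg_eq_neg_one {θ : M} {g : Gal(M/F)} (h : g θ ≠ θ) : sg θ g = -1 := by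
  unfold sg
  rw [if_neg h]

theorem apply_eq {θ : M} {d : F} (hθ : θ ^ 2 = algebraMap F M d) (g : Gal(M/F)) :
    g θ = θ ∨ g θ = -θ := by
  have h1 : (g θ) ^ 2 = θ ^ 2 := by
    rw [← map_pow, hθ]
    exact g.commutes d
  exact sq_eq_sq_iff_eq_or_eq_neg.mp h1

variable [NeZero (2 : M)]

theorem ne_neg_self {θ : M} (h : θ ≠ 0) : -θ ≠ θ := by
  intro h1
  have h2 : (2 : M) * θ = 0 := by
    rw [two_mul]
    nth_rewrite 1 [← h1]
    exact neg_add_cancel θ
  rcases mul_eq_zero.mp h2 with h3 | h3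
  · exact NeZero.ne (2 : M) h3
  · exact h h3

theorem sg_mul {θ η : M} {d e : F} (hθ : θ ^ 2 = algebraMap F M d) (hη : η ^ 2 = algebraMap F M e)
    (hθ0 : θ ≠ 0) (hη0 : η ≠ 0) (g : Gal(M/F)) : sg θ g * sg η g = sg (θ * η) g := by
  have hne := ne_neg_self (mul_ne_zero hθ0 hη0)
  rcases apply_eq hθ g with h1 | h1 <;> rcases apply_eq hη g with h2 | h2
  · rw [sg_eq_one h1, sg_eq_one h2, sg_eq_one (by rw [map_mul, h1, h2]), one_mul]
  · rw [sg_eq_one h1, sg_eq_neg_one (by rw [h2]; exact ne_neg_self hη0),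
      sg_eq_neg_one (by rw [map_mul, h1, h2, mul_neg]; exact hne), one_mul]
  · rw [sg_eq_neg_one (by rw [h1]; exact ne_neg_self hθ0), sg_eq_one h2,
      sg_eq_neg_one (by rw [map_mul, h1, h2, neg_mul]; exact hne), mul_one]
  · rw [sg_eq_neg_one (by rw [h1]; exact ne_neg_self hθ0),
      sg_eq_neg_one (by rw [h2]; exact ne_neg_self hη0),
      sg_eq_one (by rw [map_mul, h1, h2, neg_mul_neg]), neg_mul_neg, one_mul]

theorem sum_sg_of_isSquare [Fintype Gal(M/F)] {θ : M} {d : F} (hθ : θ ^ 2 = algebraMap F M d)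
    (h : IsSquare d) : ∑ g : Gal(M/F), sg θ g = Fintype.card Gal(M/F) := by
  obtain ⟨c, rfl⟩ := h
  have h1 : ∀ g : Gal(M/F), sg θ g = 1 := by
    intro g
    apply sg_eq_one
    have h2 : θ ^ 2 = (algebraMap F M c) ^ 2 := by rw [hθ, map_mul, sq]
    rcases sq_eq_sq_iff_eq_or_eq_neg.mp h2 with h3 | h3
    · rw [h3]
      exact g.commutes c
    · rw [h3, map_neg]
      congr 1
      exact g.commutes c
  rw [Finset.sum_congr rfl fun g _ => h1 g]
  simp

theorem sum_sg_of_not_isSquare [FiniteDimensional F M] [IsGalois F M] [Fintype Gal(M/F)] {θ : M}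
    {d : F} (hθ : θ ^ 2 = algebraMap F M d) (hθ0 : θ ≠ 0) (h : ¬ IsSquare d) :
    ∑ g : Gal(M/F), sg θ g = 0 := by
  obtain ⟨g₀, hg₀⟩ : ∃ g₀ : Gal(M/F), g₀ θ ≠ θ := by
    by_contra hall
    push Not at hall
    obtain ⟨c, hc⟩ := (IsGalois.mem_bot_iff_fixed (F := F) θ).mpr hall
    apply h
    refine ⟨c, ?_⟩
    apply (algebraMap F M).injective
    rw [← hθ, map_mul, sq]
    have hc' : algebraMap F M c = θ := hc
    rw [hc']
  have h0 : g₀ θ = -θ := (apply_eq hθ g₀).resolve_left hg₀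
  have h1 : ∀ g : Gal(M/F), sg θ (g₀ * g) = -sg θ g := by
    intro g
    rcases apply_eq hθ g with h2 | h2
    · have h3 : (g₀ * g) θ ≠ θ := by
        rw [AlgEquiv.mul_apply, h2, h0]
        exact ne_neg_self hθ0
      rw [sg_eq_one h2, sg_eq_neg_one h3]
    · have h3 : (g₀ * g) θ = θ := by
        rw [AlgEquiv.mul_apply, h2, map_neg, h0, neg_neg]
      have h4 : g θ ≠ θ := by rw [h2]; exact ne_neg_self hθ0
      rw [sg_eq_neg_one h4, sg_eq_one h3, neg_neg]
  have h2 : ∑ g : Gal(M/F), sg θ g = -∑ g : Gal(M/F), sg θ g := by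
    calc ∑ g : Gal(M/F), sg θ g = ∑ g : Gal(M/F), sg θ (g₀ * g) :=
          (Equiv.sum_comp (Equiv.mulLeft g₀) fun g => sg θ g).symm
      _ = ∑ g : Gal(M/F), -sg θ g := Finset.sum_congr rfl fun g _ => h1 g
      _ = _ := Finset.sum_neg_distrib _
  linarith

end K314

/-- K3: the mean square of a sum of quadratic characters. -/
theorem sum_sg_sq {F M : Type*} [Field F] [Field M] [Algebra F M] [FiniteDimensional F M]
    [IsGalois F M] [Fintype Gal(M/F)] [NeZero (2 : M)] {ι : Type*} [Fintype ι] (d : ι → F)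
    (hd : ∀ i, d i ≠ 0)
    (θ : ι → M) (hθ : ∀ i, θ i ^ 2 = algebraMap F M (d i)) :
    ∑ g : Gal(M/F), (∑ i, sg (θ i) g) ^ 2 =
      Fintype.card Gal(M/F) * Nat.card {p : ι × ι // IsSquare (d p.1 * d p.2)} := by
  classical
  have hθ0 : ∀ i, θ i ≠ 0 := by
    intro i h
    have h1 := hθ i
    rw [h, zero_pow two_ne_zero] at h1
    exact hd i ((algebraMap F M).injective (by rw [← h1, map_zero]))
  have h1 : ∀ p : ι × ι, (θ p.1 * θ p.2) ^ 2 = algebraMap F M (d p.1 * d p.2) := by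
    intro p
    rw [mul_pow, hθ, hθ, map_mul]
  calc ∑ g : Gal(M/F), (∑ i, sg (θ i) g) ^ 2
      = ∑ g : Gal(M/F), ∑ p : ι × ι, sg (θ p.1 * θ p.2) g := by
        refine Finset.sum_congr rfl fun g _ => ?_
        rw [sq, Finset.sum_mul_sum, ← Finset.sum_product']
        refine Finset.sum_congr rfl fun p _ => ?_
        exact K314.sg_mul (hθ p.1) (hθ p.2) (hθ0 p.1) (hθ0 p.2) g
    _ = ∑ p : ι × ι, ∑ g : Gal(M/F), sg (θ p.1 * θ p.2) g := Finset.sum_comm
    _ = ∑ p : ι × ι, if IsSquare (d p.1 * d p.2) then (Fintype.card Gal(M/F) : ℝ) else 0 := by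
        refine Finset.sum_congr rfl fun p _ => ?_
        by_cases h : IsSquare (d p.1 * d p.2)
        · rw [if_pos h]
          exact K314.sum_sg_of_isSquare (h1 p) h
        · rw [if_neg h]
          exact K314.sum_sg_of_not_isSquare (h1 p) (mul_ne_zero (hθ0 _) (hθ0 _)) h
    _ = _ := by
        rw [← Finset.sum_filter, Finset.sum_const, nsmul_eq_mul, mul_comm, Nat.card_eq_fintype_card,
          Fintype.card_subtype]

end Pool.Agent.Lib.MP_bf61d2_nt.Artin
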