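import Mathlib
import Pool.Agent.Lib.MP_bf61d2_nt.Trim.Artin.KDefs63

set_option autoImplicit false

/-!
K-curves at the edge: the assembly.
-/

namespace NumberField
end NumberField

namespace WeierstrassCurve
end WeierstrassCurve

namespace Pool.Agent.Lib.MP_bf61d2_nt.Perm
end Pool.Agent.Lib.MP_bf61d2_nt.Perm

namespace Pool.Agent.Lib.MP_bf61d2_nt.Artin

open NumberField IsDedekindDomain Filter Topology Polynomial Module WeierstrassCurve

open Pool.Agent.Lib.MP_bf61d2_nt.Perm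

section Sum

variable {F : Type*} [Field F] [NumberField F]

end Sum

section Sg

variable {F M : Type*} [Field F] [Field M] [Algebra F M]

lemma sg_conj {θ : M} {d : F} (hθ : θ ^ 2 = algebraMap F M d) (g h : Gal(M/F)) :
    sg θ (h * g * h⁻¹) = sg θ g := by
  have hpm : ∀ k : Gal(M/F), k θ = θ ∨ k θ = -θ := fun k => by
    apply sq_eq_sq_iff_eq_or_eq_neg.mp
    rw [← map_pow, hθ, AlgEquiv.commutes]
  have hinv : ∀ x : M, h⁻¹ (h x) = x := fun x => by
    rw [← AlgEquiv.mul_apply, inv_mul_cancel, AlgEquiv.one_apply]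
  have hinv' : ∀ x : M, h (h⁻¹ x) = x := fun x => by
    rw [← AlgEquiv.mul_apply, mul_inv_cancel, AlgEquiv.one_apply]
  have key : (h * g * h⁻¹) θ = θ ↔ g θ = θ := by
    have e : (h * g * h⁻¹) θ = h (g (h⁻¹ θ)) := rfl
    rw [e]
    rcases hpm h⁻¹ with h1 | h1
    · rw [h1]
      constructor
      · intro h2
        calc g θ = h⁻¹ (h (g θ)) := (hinv _).symm
          _ = θ := by rw [h2, h1]
      · intro h2
        have h3 := hinv' θ
        rw [h1] at h3
        rw [h2, h3]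
    · rw [h1, map_neg, map_neg]
      constructor
      · intro h2
        have h3 : h (g θ) = -θ := neg_eq_iff_eq_neg.mp h2
        calc g θ = h⁻¹ (h (g θ)) := (hinv _).symm
          _ = θ := by rw [h3, map_neg, h1, neg_neg]
      · intro h2
        have h3 := hinv' θ
        rw [h1, map_neg] at h3
        rw [h2, h3]
  unfold sg
  by_cases h4 : g θ = θ
  · rw [if_pos h4, if_pos (key.mpr h4)]
  · rw [if_neg h4, if_neg (mt key.mp h4)]

lemma abs_sg (θ : M) (g : Gal(M/F)) : |sg θ g| = 1 := by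
  classical
  unfold sg
  by_cases h : g θ = θ
  · rw [if_pos h, abs_one]
  · rw [if_neg h, abs_neg, abs_one]

end Sg

section Main

variable {K F M : Type*} [Field K] [NumberField K] [Field F] [NumberField F] [Field M]
  [NumberField M] [Algebra K F] [IsGalois K F] [Algebra F M] [IsGalois F M] [Fintype Gal(M/F)]

/-- The Cauchy-Schwarz inequality, with equality only for a constant function. -/
lemma mean_abs_cs {G : Type*} [Fintype G] (X : G → ℝ) {Q a : ℝ} (hQ : 0 ≤ Q) (g₀ : G)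
    (hg : X g₀ = a) (hX : ∑ g, X g ^ 2 = Fintype.card G * Q) :
    (∑ g, |X g|) / Fintype.card G ≤ Real.sqrt Q ∧
      (Q < a ^ 2 → (∑ g, |X g|) / Fintype.card G < Real.sqrt Q) := by
  have hc : (0 : ℝ) < Fintype.card G := Nat.cast_pos.mpr (Fintype.card_pos_iff.mpr ⟨g₀⟩)
  set μ : ℝ := (∑ g, |X g|) / Fintype.card G with hμ
  have hμ0 : 0 ≤ μ := div_nonneg (Finset.sum_nonneg fun g _ => abs_nonneg _) hc.le
  have hsum : ∑ g, |X g| = Fintype.card G * μ := by
    rw [hμ, mul_div_cancel₀ _ hc.ne']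
  have hvar : ∑ g, (|X g| - μ) ^ 2 = Fintype.card G * (Q - μ ^ 2) := by
    have e : ∀ g, (|X g| - μ) ^ 2 = X g ^ 2 - 2 * μ * |X g| + μ ^ 2 := fun g => by
      rw [← sq_abs (X g)]
      ring
    rw [Finset.sum_congr rfl fun g _ => e g, Finset.sum_add_distrib, Finset.sum_sub_distrib,
      ← Finset.mul_sum, hX, hsum, Finset.sum_const, Finset.card_univ, nsmul_eq_mul]
    ring
  have h1 : μ ^ 2 ≤ Q := by
    have h2 : 0 ≤ ∑ g, (|X g| - μ) ^ 2 := Finset.sum_nonneg fun g _ => sq_nonneg _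
    rw [hvar] at h2
    have h3 := nonneg_of_mul_nonneg_right h2 hc
    linarith
  refine ⟨Real.le_sqrt_of_sq_le h1, fun hQa => ?_⟩
  refine lt_of_le_of_ne (Real.le_sqrt_of_sq_le h1) fun h4 => ?_
  have h5 : μ ^ 2 = Q := by rw [h4, Real.sq_sqrt hQ]
  rw [h5, sub_self, mul_zero, Finset.sum_eq_zero_iff_of_nonneg fun g _ => sq_nonneg _] at hvar
  have h6 := hvar g₀ (Finset.mem_univ _)
  rw [hg, sq_eq_zero_iff, sub_eq_zero] at h6
  rw [← h5, ← h6, sq_abs] at hQa
  exact lt_irrefl _ hQa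

end Main

end Pool.Agent.Lib.MP_bf61d2_nt.Artin
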