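import Mathlib
import Pool.Agent.Lib.MP_bf61d2_nt.Trim.Joint.Main

set_option autoImplicit false

/-!
K-curves (MP_bf61d2_nt), module K5: a conjugate of an elliptic curve with invariant in the base
field is a quadratic twist of it.
-/

namespace WeierstrassCurve
end WeierstrassCurve

namespace Pool.Agent.Lib.MP_bf61d2_nt.Artin

open WeierstrassCurve

namespace K5h3

variable {F : Type*} [Field F] [CharZero F]

/-- A change of variables with `u = 1` to the short normal form. -/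
lemma exists_short (W : WeierstrassCurve F) :
    ∃ C : VariableChange F, C • W = ⟨0, 0, 0, -W.c₄ / 48, -W.c₆ / 864⟩ := by
  refine ⟨⟨1, -W.b₂ / 12, -W.a₁ / 2, -(W.a₃ + -W.b₂ / 12 * W.a₁) / 2⟩, ?_⟩
  ext
  · rw [variableChange_a₁]
    simp only [inv_one, Units.val_one]
    ring
  · rw [variableChange_a₂]
    simp only [inv_one, Units.val_one, WeierstrassCurve.b₂]
    ring
  · rw [variableChange_a₃]
    simp only [inv_one, Units.val_one]
    ring
  · rw [variableChange_a₄]
    simp only [inv_one, Units.val_one, WeierstrassCurve.c₄, WeierstrassCurve.b₂,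
      WeierstrassCurve.b₄]
    ring
  · rw [variableChange_a₆]
    simp only [inv_one, Units.val_one, WeierstrassCurve.c₆, WeierstrassCurve.b₂,
      WeierstrassCurve.b₄, WeierstrassCurve.b₆]
    ring

lemma exists_vc {W W' : WeierstrassCurve F} (h4 : W.c₄ = W'.c₄) (h6 : W.c₆ = W'.c₆) :
    ∃ C : VariableChange F, C • W = W' := by
  obtain ⟨C, hC⟩ := exists_short W
  obtain ⟨C', hC'⟩ := exists_short W'
  refine ⟨C'⁻¹ * C, ?_⟩
  rw [mul_smul, hC, h4, h6, ← hC', ← mul_smul, inv_mul_cancel, one_smul]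

lemma c₄_qt (E : WeierstrassCurve F) (d : F) : (qt E d).c₄ = d ^ 2 * E.c₄ := by
  simp only [qt, WeierstrassCurve.c₄, WeierstrassCurve.b₂, WeierstrassCurve.b₄]
  ring

lemma c₆_qt (E : WeierstrassCurve F) (d : F) : (qt E d).c₆ = d ^ 3 * E.c₆ := by
  simp only [qt, WeierstrassCurve.c₆, WeierstrassCurve.b₂, WeierstrassCurve.b₄,
    WeierstrassCurve.b₆]
  ring

omit [CharZero F] in
/-- `j Δ = c₄ ^ 3`. -/
lemma j_mul (E : WeierstrassCurve F) [E.IsElliptic] : E.j * E.Δ = E.c₄ ^ 3 := by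
  rw [WeierstrassCurve.j, ← E.coe_Δ']
  rw [mul_comm, ← mul_assoc, Units.mul_inv, one_mul]

omit [CharZero F] in
lemma Δ_ne (E : WeierstrassCurve F) [E.IsElliptic] : E.Δ ≠ 0 := by
  rw [← E.coe_Δ']
  exact E.Δ'.ne_zero

/-- Two curves with the same invariant, not `0` or `1728`. -/
lemma exists_twist {E E' : WeierstrassCurve F} [E.IsElliptic] [E'.IsElliptic] (hj : E'.j = E.j)
    (h0 : E.j ≠ 0) (h1728 : E.j ≠ 1728) :
    ∃ d : F, d ≠ 0 ∧ ∃ C : VariableChange F, C • qt E d = E' := by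
  have hE := j_mul E
  have hE' := j_mul E'
  have hΔ := Δ_ne E
  have hΔ' := Δ_ne E'
  have hr := E.c_relation
  have hr' := E'.c_relation
  have h4 : E.c₄ ≠ 0 := by
    intro h
    rw [h, zero_pow (by norm_num)] at hE
    exact (mul_ne_zero h0 hΔ) hE
  have h4' : E'.c₄ ≠ 0 := by
    intro h
    rw [h, zero_pow (by norm_num)] at hE'
    exact (mul_ne_zero (hj ▸ h0) hΔ') hE'
  have h6 : E.c₆ ≠ 0 := by
    intro h
    rw [h, ← hE] at hr
    apply h1728
    have : (1728 - E.j) * E.Δ = 0 := by linear_combination hr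
    rcases mul_eq_zero.mp this with h1 | h1
    · linear_combination -h1
    · exact absurd h1 hΔ
  have h6' : E'.c₆ ≠ 0 := by
    intro h
    rw [h, ← hE', hj] at hr'
    apply h1728
    have : (1728 - E.j) * E'.Δ = 0 := by linear_combination hr'
    rcases mul_eq_zero.mp this with h1 | h1
    · linear_combination -h1
    · exact absurd h1 hΔ'
  -- `c₄³ c₆'² = c₄'³ c₆²`
  have key : E.c₄ ^ 3 * E'.c₆ ^ 2 = E'.c₄ ^ 3 * E.c₆ ^ 2 := by
    have e1 : E.c₄ ^ 3 * E'.Δ = E'.c₄ ^ 3 * E.Δ := by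
      rw [← hE, ← hE', hj]
      ring
    linear_combination E.c₄ ^ 3 * hr' - E'.c₄ ^ 3 * hr - 1728 * e1
  refine ⟨E'.c₆ * E.c₄ / (E.c₆ * E'.c₄), div_ne_zero (mul_ne_zero h6' h4) (mul_ne_zero h6 h4'), ?_⟩
  set d : F := E'.c₆ * E.c₄ / (E.c₆ * E'.c₄) with hd
  apply exists_vc
  · rw [c₄_qt, hd]
    field_simp
    linear_combination key
  · rw [c₆_qt, hd]
    field_simp
    linear_combination key

end K5h3

/-- K5: the conjugates of a curve with invariant in the base field are quadratic twists. -/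
theorem exists_twist_conj {K F : Type*} [Field K] [Field F] [CharZero F] [Algebra K F]
    (E : WeierstrassCurve F) [E.IsElliptic] {j₀ : K} (hj : algebraMap K F j₀ = E.j)
    (h0 : E.j ≠ 0) (h1728 : E.j ≠ 1728) (τ : Gal(F/K)) :
    ∃ d : F, d ≠ 0 ∧ ∃ C : VariableChange F, C • qt E d = E.map (τ : F →+* F) := by
  refine K5h3.exists_twist ?_ h0 h1728
  rw [WeierstrassCurve.map_j, ← hj]
  exact τ.commutes j₀

end Pool.Agent.Lib.MP_bf61d2_nt.Artin
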