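import Mathlib
import Pool.Agent.Lib.MP_bf61d2_nt.Trim.Artin.K1x63
import Pool.Agent.Lib.MP_bf61d2_nt.Trim.Artin.K5x3
import Pool.Agent.Lib.MP_bf61d2_nt.Trim.Joint.Main
import Pool.Agent.Lib.MP_bf61d2_nt.Trim.LocalCurve
import Pool.Agent.Lib.MP_bf61d2_nt.Trim.Places
import Pool.Agent.Lib.MP_bf61d2_nt.Trim.Structure

set_option autoImplicit false

/-!
K-curves at the edge: curves with the same local polynomials, and the number of pairs.
-/

namespace NumberField
end NumberField

namespace WeierstrassCurve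
end WeierstrassCurve

namespace Pool.Agent.Lib.MP_bf61d2_nt.Perm
end Pool.Agent.Lib.MP_bf61d2_nt.Perm

namespace Pool.Agent.Lib.MP_bf61d2_nt.Artin

open NumberField IsDedekindDomain Filter Topology Polynomial Module WeierstrassCurve

open Pool.Agent.Lib.MP_bf61d2_nt.Perm

section Same

variable {F : Type*} [Field F] [NumberField F]

/-- The two curves have the same local polynomials at all but finitely many places. -/
def SameL (E E' : WeierstrassCurve F) : Prop :=
  {v : HeightOneSpectrum (𝓞 F) |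
    (E.baseChange (v.adicCompletion F)).localPolynomial (v.adicCompletionIntegers F) ≠
      (E'.baseChange (v.adicCompletion F)).localPolynomial
        (v.adicCompletionIntegers F)}.Finite

lemma sameL_iff {E E' : WeierstrassCurve F} : SameL E E' ↔
    ∃ S : Finset (HeightOneSpectrum (𝓞 F)), ∀ v, v ∉ S → lp E v = lp E' v := by
  constructor
  · intro h
    refine ⟨h.toFinset, fun v hv => ?_⟩
    rw [Set.Finite.mem_toFinset] at hv
    exact not_not.mp hv
  · rintro ⟨S, hS⟩
    refine S.finite_toSet.subset fun v hv => ?_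
    by_contra h
    exact hv (hS v h)

lemma SameL.symm {E E' : WeierstrassCurve F} (h : SameL E E') : SameL E' E := by
  obtain ⟨S, hS⟩ := sameL_iff.mp h
  exact sameL_iff.mpr ⟨S, fun v hv => (hS v hv).symm⟩

lemma SameL.trans {E E' E'' : WeierstrassCurve F} (h : SameL E E') (h' : SameL E' E'') :
    SameL E E'' := by
  classical
  obtain ⟨S, hS⟩ := sameL_iff.mp h
  obtain ⟨S', hS'⟩ := sameL_iff.mp h'
  refine sameL_iff.mpr ⟨S ∪ S', fun v hv => ?_⟩
  rw [Finset.mem_union, not_or] at hv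
  rw [hS v hv.1, hS' v hv.2]

lemma SameL.cc {E E' : WeierstrassCurve F} (h : SameL E E') :
    ∃ S : Finset (HeightOneSpectrum (𝓞 F)), ∀ v, v ∉ S → cc E v = cc E' v := by
  obtain ⟨S, hS⟩ := sameL_iff.mp h
  refine ⟨S, fun v hv => ?_⟩
  unfold MP_bf61d2_nt.cc
  rw [tr, tr, hS v hv]

lemma sameL_change (E : WeierstrassCurve F) [E.IsElliptic] (C : VariableChange F) :
    SameL (C • E) E := sameL_iff.mpr (lp_change63 E C)

lemma SameL.conj {E E' : WeierstrassCurve F} [E.IsElliptic] [E'.IsElliptic] (h : SameL E E')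
    (τ : F ≃+* F) : SameL (E.map (τ : F →+* F)) (E'.map (τ : F →+* F)) := by
  classical
  obtain ⟨S, hS⟩ := sameL_iff.mp h
  obtain ⟨S₁, hS₁⟩ := lp_conj63 τ E
  obtain ⟨S₂, hS₂⟩ := lp_conj63 τ E'
  refine sameL_iff.mpr ⟨(S ∪ (S₁ ∪ S₂)).image (eqv63 τ), fun w hw => ?_⟩
  obtain ⟨v, rfl⟩ := (eqv63 τ).surjective w
  have hv : v ∉ S ∪ (S₁ ∪ S₂) := fun h => hw (Finset.mem_image_of_mem _ h)
  rw [Finset.mem_union, Finset.mem_union, not_or, not_or] at hv
  rw [hS₁ v hv.2.1, hS₂ v hv.2.2, hS v hv.1]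

/-- Twists by two elements with a square product. -/
lemma exists_qt_change (E : WeierstrassCurve F) {d d' : F} (hd : d ≠ 0) (hd' : d' ≠ 0)
    (h : IsSquare (d * d')) : ∃ C : VariableChange F, C • qt E d = qt E d' := by
  obtain ⟨r, hr⟩ := h
  have hr0 : r ≠ 0 := by
    rintro rfl
    exact mul_ne_zero hd hd' (by rw [hr, mul_zero])
  have hc : r / d ≠ 0 := div_ne_zero hr0 hd
  have hdd : d' = d * (r / d) ^ 2 := by
    field_simp
    rw [mul_comm, hr, sq]
  set c : F := r / d with hcdef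
  refine ⟨⟨(Units.mk0 c hc)⁻¹, 0, 0, 0⟩, ?_⟩
  rw [hdd]
  ext
  · rw [variableChange_a₁]
    simp [qt]
  · rw [variableChange_a₂]
    simp only [qt, inv_inv, Units.val_mk0]
    ring
  · rw [variableChange_a₃]
    simp [qt]
  · rw [variableChange_a₄]
    simp only [qt, inv_inv, Units.val_mk0]
    ring
  · rw [variableChange_a₆]
    simp only [qt, inv_inv, Units.val_mk0]
    ring

lemma isElliptic_qt (E : WeierstrassCurve F) [E.IsElliptic] {d : F} (hd : d ≠ 0) :
    (qt E d).IsElliptic := by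
  refine ⟨isUnit_iff_ne_zero.mpr ?_⟩
  have h1 : (qt E d).Δ = d ^ 6 * E.Δ := by
    simp only [qt, WeierstrassCurve.Δ, WeierstrassCurve.b₂, WeierstrassCurve.b₄,
      WeierstrassCurve.b₆, WeierstrassCurve.b₈]
    ring
  rw [h1]
  exact mul_ne_zero (pow_ne_zero _ hd) E.isUnit_Δ.ne_zero

end Same

section Count

variable {K F : Type*} [Field K] [Field F] [NumberField F] [Algebra K F]

/-- The number of pairs. -/
lemma card_pairs_le [Finite Gal(F/K)] (E : WeierstrassCurve F) [E.IsElliptic] (d : Gal(F/K) → F)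
    (hd : ∀ τ, d τ ≠ 0) (hE : ∀ τ : Gal(F/K), SameL (E.map (τ : F →+* F)) (qt E (d τ))) :
    Nat.card {p : Gal(F/K) × Gal(F/K) // IsSquare (d p.1 * d p.2)} ≤
      Nat.card Gal(F/K) * Nat.card {τ : Gal(F/K) // SameL (E.map (τ : F →+* F)) E} := by
  rw [← Nat.card_prod]
  have key : ∀ p : Gal(F/K) × Gal(F/K), IsSquare (d p.1 * d p.2) →
      SameL (E.map ((p.1⁻¹ * p.2 : Gal(F/K)) : F →+* F)) E := by
    intro p hp
    obtain ⟨C, hC⟩ := exists_qt_change E (hd p.1) (hd p.2) hp
    have h1 := isElliptic_qt E (hd p.1)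
    have h2 : SameL (qt E (d p.2)) (qt E (d p.1)) := by
      rw [← hC]
      exact sameL_change _ _
    have h3 : SameL (E.map (p.2 : F →+* F)) (E.map (p.1 : F →+* F)) :=
      (hE p.2).trans (h2.trans (hE p.1).symm)
    have h4 := h3.conj ((p.1⁻¹ : Gal(F/K)) : F ≃+* F)
    rw [WeierstrassCurve.map_map, WeierstrassCurve.map_map] at h4
    have e1 : (((p.1⁻¹ : Gal(F/K)) : F ≃+* F) : F →+* F).comp (p.2 : F →+* F) =
        ((p.1⁻¹ * p.2 : Gal(F/K)) : F →+* F) := RingHom.ext fun x => rfl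
    have e2 : (((p.1⁻¹ : Gal(F/K)) : F ≃+* F) : F →+* F).comp (p.1 : F →+* F) =
        RingHom.id F := RingHom.ext fun x => by
      show p.1⁻¹ (p.1 x) = x
      rw [← AlgEquiv.mul_apply, inv_mul_cancel, AlgEquiv.one_apply]
    rw [e1, e2, WeierstrassCurve.map_id] at h4
    exact h4
  refine Nat.card_le_card_of_injective (fun p => (p.1.1, ⟨p.1.1⁻¹ * p.1.2, key p.1 p.2⟩)) ?_
  rintro ⟨⟨a, b⟩, hp⟩ ⟨⟨a', b'⟩, hp'⟩ h
  simp only [Prod.mk.injEq, Subtype.mk.injEq] at h
  obtain ⟨rfl, h2⟩ := h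
  simp only [Subtype.mk.injEq, Prod.mk.injEq, true_and]
  exact mul_left_cancel h2

end Count

section Field

/-- A Galois extension containing the square roots of finitely many elements. -/
lemma exists_sqrt_ext63.{u} {F : Type u} [Field F] [NumberField F] {ι : Type*} [Finite ι] (d : ι → F) :
    ∃ (M : Type u) (_ : Field M) (_ : NumberField M) (_ : Algebra F M), IsGalois F M ∧
      ∃ θ : ι → M, ∀ i, θ i ^ 2 = algebraMap F M (d i) := by
  classical
  have := Fintype.ofFinite ι
  set p : F[X] := ∏ i, (X ^ 2 - C (d i)) with hp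
  have hp0 : p ≠ 0 := Finset.prod_ne_zero_iff.mpr fun i _ => X_pow_sub_C_ne_zero two_pos _
  have hfd : FiniteDimensional F p.SplittingField := inferInstance
  have hchar : CharZero p.SplittingField := charZero_of_injective_algebraMap
    (algebraMap F p.SplittingField).injective
  have hfdQ : FiniteDimensional ℚ p.SplittingField := Module.Finite.trans F _
  have hN : NumberField p.SplittingField := { to_charZero := hchar, to_finiteDimensional := hfdQ }
  have hnorm : Normal F p.SplittingField := inferInstance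
  refine ⟨p.SplittingField, inferInstance, hN, inferInstance, ⟨⟩, ?_⟩
  have hroot : ∀ i, ∃ θ : p.SplittingField, θ ^ 2 = algebraMap F _ (d i) := by
    intro i
    have hs := SplittingField.splits p
    have hdvd : (X ^ 2 - C (d i) : F[X]) ∣ p := Finset.dvd_prod_of_mem _ (Finset.mem_univ i)
    have hs2 := hs.of_dvd (map_ne_zero hp0) (Polynomial.map_dvd (algebraMap F p.SplittingField) hdvd)
    have hdeg : ((X ^ 2 - C (d i) : F[X]).map (algebraMap F p.SplittingField)).degree ≠ 0 := by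
      rw [degree_map, degree_X_pow_sub_C two_pos]
      norm_num
    obtain ⟨θ, hθ⟩ := hs2.exists_eval_eq_zero hdeg
    refine ⟨θ, ?_⟩
    rw [Polynomial.map_sub, Polynomial.map_pow, map_X, map_C, eval_sub, eval_pow, eval_X, eval_C,
      sub_eq_zero] at hθ
    exact hθ
  choose θ hθ using hroot
  exact ⟨θ, hθ⟩

end Field

section Public

variable {K F : Type*} [Field K] [NumberField K] [Field F] [NumberField F] [Algebra K F]
  [IsGalois K F]

/-- Curves whose invariant lies in the base field. -/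
lemma exists_twist_of_j (E : WeierstrassCurve F) [E.IsElliptic] {j₀ : K}
    (hj : algebraMap K F j₀ = E.j) (h0 : E.j ≠ 0) (h1728 : E.j ≠ 1728) (τ : Gal(F/K)) :
    ∃ d : F, d ≠ 0 ∧ SameL (E.map (τ : F →+* F)) (qt E d) := by
  obtain ⟨d, hd, C, hC⟩ := exists_twist_conj E hj h0 h1728 τ
  have := isElliptic_qt E hd
  exact ⟨d, hd, by rw [← hC]; exact sameL_change _ _⟩

end Public

end Pool.Agent.Lib.MP_bf61d2_nt.Artin
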