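import Mathlib
import Pool.Agent.Lib.MP_bf61d2_nt.Trim.Artin.K6x63
import Pool.Agent.Lib.MP_bf61d2_nt.Trim.Joint.Main
import Pool.Agent.Lib.MP_bf61d2_nt.Trim.Perm.Defs

set_option autoImplicit false

/-!
Single curves at the edge: the bounds.
-/

namespace NumberField
end NumberField

namespace Pool.Agent.Lib.MP_bf61d2_nt.Perm
end Pool.Agent.Lib.MP_bf61d2_nt.Perm

namespace Pool.Agent.Lib.MP_bf61d2_nt.Artin

open NumberField IsDedekindDomain Filter Topology Polynomial Module

open Pool.Agent.Lib.MP_bf61d2_nt.Perm

/-- The mean over the Galois group of `M/K` of the absolute value of the number of embeddings of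
`F'` in `M` fixed by `g` minus the number of embeddings of `F` fixed by `g`. -/
noncomputable def meanFix {K M : Type*} [Field K] [Field M] [Algebra K M]
    (F F' : IntermediateField K M) : ℝ :=
  (∑ᶠ g : Gal(M/K), |(fx F' g : ℝ) - fx F g|) / Nat.card Gal(M/K)

/-- The number of automorphisms `τ` of `F/K` for which the conjugate of `E` by `τ` has the local
polynomials of `E` at almost all places. -/
noncomputable def stab (K : Type*) {F : Type*} [Field K] [Field F] [NumberField F] [Algebra K F]
    (E : WeierstrassCurve F) : ℕ :=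
  Nat.card {τ : Gal(F/K) // SameL (E.map (τ : F →+* F)) E}

/-- The conjugates of `E` over `K` are quadratic twists of `E`, in terms of the local polynomials
at almost all places. -/
def IsKCurve (K : Type*) {F : Type*} [Field K] [Field F] [NumberField F] [Algebra K F]
    (E : WeierstrassCurve F) : Prop :=
  ∀ τ : Gal(F/K), ∃ d : F, d ≠ 0 ∧ SameL (E.map (τ : F →+* F)) (qt E d)

variable {K : Type*} [Field K] [NumberField K]

/-- A curve with invariant in `K`, not 0 or 1728, is a K-curve. -/
theorem isKCurve_of_j {F : Type*} [Field F] [NumberField F] [Algebra K F] [IsGalois K F]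
    (E : WeierstrassCurve F) [E.IsElliptic] (j : K) (hj : algebraMap K F j = E.j)
    (h0 : E.j ≠ 0) (h1 : E.j ≠ 1728) : IsKCurve K E := exists_twist_of_j E hj h0 h1

end Pool.Agent.Lib.MP_bf61d2_nt.Artin
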