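import Mathlib
import Pool.Agent.Lib.MP_bf61d2_nt.Trim.Places

set_option autoImplicit false

/-!
Twists of the L-function of an elliptic curve over a number field near the edge, and the
distribution of the normalised traces of Frobenius.
-/

namespace NumberField
end NumberField

namespace Pool.Agent.Lib.MP_bf61d2_nt.Perm
end Pool.Agent.Lib.MP_bf61d2_nt.Perm

namespace Pool.Agent.Lib.MP_bf61d2_nt.Artin

open NumberField IsDedekindDomain Filter Topology Polynomial Module

open Pool.Agent.Lib.MP_bf61d2_nt.Perm

variable {K M : Type*} [Field K] [NumberField K] [Field M] [NumberField M] [Algebra K M]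

lemma finite_two : {v : HeightOneSpectrum (𝓞 K) | pr v = 2}.Finite := by
  by_contra h
  obtain ⟨t, ht, hc⟩ := Set.Infinite.exists_subset_card_eq h (finrank ℚ K + 1)
  have := card_above_le 2 t (fun v hv => ht hv)
  omega

end Pool.Agent.Lib.MP_bf61d2_nt.Artin
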