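import Mathlib
import Pool.Agent.Lib.MP_bf61d2_nt.Trim.Analytic
import Pool.Agent.Lib.MP_bf61d2_nt.Trim.Artin.Defs63
import Pool.Agent.Lib.MP_bf61d2_nt.Trim.Places
import Pool.Agent.Lib.MP_bf61d2_nt.Trim.PrimeSum

set_option autoImplicit false

/-!
The logarithm of the Euler product of the twist of an elliptic curve by a representation.
-/

namespace NumberField
end NumberField

namespace Pool.Agent.Lib.MP_bf61d2_nt.Perm
end Pool.Agent.Lib.MP_bf61d2_nt.Perm

namespace Pool.Agent.Lib.MP_bf61d2_nt.Artin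

open NumberField IsDedekindDomain Filter Topology Polynomial Module

open Pool.Agent.Lib.MP_bf61d2_nt.Perm

section T

variable {K : Type*} [Field K] [NumberField K]

/-- The phase. -/
lemma cpow_eq_ph (v : HeightOneSpectrum (𝓞 K)) (δ t : ℝ) :
    (nm v : ℂ) ^ (-((((3 / 2 + δ : ℝ) : ℂ) + t * Complex.I) - 1 / 2)) =
      (wp (1 + δ) v : ℂ) * ph t (nm v) := by
  have h0 : (nm v : ℂ) ≠ 0 := by
    have := nm_pos v
    exact_mod_cast this.ne'
  have e : -((((3 / 2 + δ : ℝ) : ℂ) + t * Complex.I) - 1 / 2) =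
      ((-(1 + δ) : ℝ) : ℂ) + (-(t * Complex.I)) := by
    push_cast; ring
  rw [e, Complex.cpow_add _ _ h0, wp, Complex.ofReal_cpow (nm_pos v).le, ph,
    Complex.cpow_def_of_ne_zero h0 (-(t * Complex.I)), ← Complex.natCast_log]
  push_cast
  congr 2
  ring

lemma norm_ph (u : ℝ) (n : ℕ) : ‖ph u n‖ = 1 := by
  rw [ph, Complex.norm_exp_ofReal_mul_I]

variable {M : Type*} [Field M] [NumberField M] [Algebra K M]

end T

end Pool.Agent.Lib.MP_bf61d2_nt.Artin
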