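import Mathlib
import Pool.Agent.Lib.MP_bf61d2_nt.Trim.Artin.Defs63
import Pool.Agent.Lib.MP_bf61d2_nt.Trim.Perm.MeanVal

set_option autoImplicit false

/-!
Artin twists at the edge (MP_bf61d2_nt), module V: mean values of the absolute value of the real
part of an exponential polynomial whose coefficients are class functions.
-/

namespace Pool.Agent.Lib.MP_bf61d2_nt.Perm
end Pool.Agent.Lib.MP_bf61d2_nt.Perm

namespace Pool.Agent.Lib.MP_bf61d2_nt.Artin.V70
end Pool.Agent.Lib.MP_bf61d2_nt.Artin.V70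

namespace Pool.Agent.Lib.MP_bf61d2_nt.Artin

open Filter Topology

open Pool.Agent.Lib.MP_bf61d2_nt.Perm

namespace V70

/-- The exponential `u ↦ exp (-i t u)`. -/
noncomputable def ex (t u : ℝ) : ℂ := Complex.exp (((-(t * u) : ℝ) : ℂ) * Complex.I)

lemma ex_add (s t u : ℝ) : ex (s + t) u = ex s u * ex t u := by
  rw [ex, ex, ex, ← Complex.exp_add]
  congr 1
  push_cast; ring

lemma ex_zero (u : ℝ) : ex 0 u = 1 := by simp [ex]

lemma conj_ex (t u : ℝ) : (starRingEnd ℂ) (ex t u) = ex (-t) u := by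
  rw [ex, ex, ← Complex.exp_conj]
  congr 1
  rw [map_mul, Complex.conj_ofReal, Complex.conj_I]
  push_cast; ring

lemma norm_ex (t u : ℝ) : ‖ex t u‖ = 1 := Complex.norm_exp_ofReal_mul_I _

lemma continuous_ex (t : ℝ) : Continuous (ex t) := by
  unfold ex; fun_prop

variable {G : Type*} [Group G]

/-- The generators. -/
noncomputable def gen (p : {f : G → ℂ // IsClassFn f} × ℝ) : G → ℝ → ℂ :=
  fun g u => p.1.1 g * ex p.2 u

/-- The exponential polynomials with class functions as coefficients. -/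
noncomputable def EP (G : Type*) [Group G] : Submodule ℝ (G → ℝ → ℂ) :=
  Submodule.span ℝ (Set.range (gen (G := G)))

lemma gen_mem {f : G → ℂ} (hf : IsClassFn f) (t : ℝ) : (fun g u => f g * ex t u) ∈ EP G :=
  Submodule.subset_span ⟨(⟨f, hf⟩, t), rfl⟩

lemma EP_one : (1 : G → ℝ → ℂ) ∈ EP G := by
  have h := gen_mem (G := G) (f := fun _ => 1) (fun _ _ => rfl) 0
  have h1 : (1 : G → ℝ → ℂ) = fun g u => (fun _ => (1 : ℂ)) g * ex 0 u := by
    funext g u
    simp [ex_zero]
  rw [h1]; exact h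

lemma EP_mul (F H : G → ℝ → ℂ) (hF : F ∈ EP G) (hH : H ∈ EP G) : F * H ∈ EP G := by
  have h : EP G * EP G ≤ EP G := by
    unfold EP
    rw [Submodule.span_mul_span, Submodule.span_le]
    rintro _ ⟨_, ⟨⟨⟨f, hf⟩, s⟩, rfl⟩, _, ⟨⟨⟨f', hf'⟩, t⟩, rfl⟩, rfl⟩
    refine Submodule.subset_span ⟨(⟨fun g => f g * f' g, fun g h => ?_⟩, s + t), ?_⟩
    · show f (h * g * h⁻¹) * f' (h * g * h⁻¹) = f g * f' g
      rw [hf g h, hf' g h]
    · funext g u
      simp only [gen, Pi.mul_apply, ex_add]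
      ring
  exact h (Submodule.mul_mem_mul hF hH)

/-- Exponential polynomials as a subalgebra. -/
noncomputable def EPA (G : Type*) [Group G] : Subalgebra ℝ (G → ℝ → ℂ) :=
  (EP G).toSubalgebra EP_one EP_mul

omit [Group G] in
lemma aeval_eval2 (q : Polynomial ℝ) (F : G → ℝ → ℂ) (g : G) (u : ℝ) :
    Polynomial.aeval F q g u = Polynomial.aeval (F g u) q :=
  (Polynomial.aeval_algHom_apply ((Pi.evalAlgHom ℝ (fun _ : ℝ => ℂ) u).comp
    (Pi.evalAlgHom ℝ (fun _ : G => ℝ → ℂ) g)) F q).symm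

lemma exists_repr {F : G → ℝ → ℂ} (hF : F ∈ EP G) : ∃ (N : ℕ) (f : Fin N → G → ℂ) (τ : Fin N → ℝ),
    (∀ k, IsClassFn (f k)) ∧ ∀ g u, F g u = ∑ k, f k g * ex (τ k) u := by
  unfold EP at hF
  rw [Submodule.mem_span_set'] at hF
  obtain ⟨N, β, x, hx⟩ := hF
  choose p hp using fun k => (x k).2
  refine ⟨N, fun k g => β k * (p k).1.1 g, fun k => (p k).2, fun k g h => ?_, fun g u => ?_⟩
  · show (β k : ℂ) * (p k).1.1 (h * g * h⁻¹) = (β k : ℂ) * (p k).1.1 g
    rw [(p k).1.2 g h]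
  · rw [← hx, Finset.sum_apply, Finset.sum_apply]
    refine Finset.sum_congr rfl fun k _ => ?_
    rw [Pi.smul_apply, Pi.smul_apply, ← hp k, gen, Complex.real_smul]
    ring

lemma tendsto_mean_ex (t : ℝ) : Tendsto (fun X : ℝ => ((X⁻¹ : ℝ) : ℂ) * ∫ u in (0 : ℝ)..X, ex t u)
    atTop (𝓝 (if t = 0 then 1 else 0)) := by
  split_ifs with h
  · subst h
    refine Tendsto.congr' ?_ tendsto_const_nhds
    filter_upwards [eventually_gt_atTop (0 : ℝ)] with X hX
    have h0 : (X : ℂ) ≠ 0 := by exact_mod_cast hX.ne'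
    simp [ex_zero, h0]
  · have hc : (-((t : ℂ)) * Complex.I) ≠ 0 := by
      simp [h]
    have h1 : ∀ X : ℝ, ∫ u in (0 : ℝ)..X, ex t u =
        (ex t X - 1) / (-((t : ℂ)) * Complex.I) := by
      intro X
      have h2 := integral_exp_mul_complex (a := 0) (b := X) hc
      have h3 : ∀ u : ℝ, ex t u = Complex.exp (-((t : ℂ)) * Complex.I * u) := by
        intro u
        rw [ex]
        congr 1
        push_cast; ring
      simp_rw [h3]
      rw [h2]
      simp
    rw [tendsto_zero_iff_norm_tendsto_zero]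
    have h4 : Tendsto (fun X : ℝ => X⁻¹ * (2 / |t|)) atTop (𝓝 0) := by
      have := tendsto_inv_atTop_zero.mul_const (2 / |t|)
      rwa [zero_mul] at this
    refine squeeze_zero' (Eventually.of_forall fun _ => norm_nonneg _) ?_ h4
    filter_upwards [eventually_gt_atTop (0 : ℝ)] with X hX
    rw [h1, norm_mul, Complex.norm_real, Real.norm_eq_abs, abs_of_pos (inv_pos.mpr hX), norm_div]
    refine mul_le_mul_of_nonneg_left ?_ (inv_pos.mpr hX).le
    have h5 : ‖-((t : ℂ)) * Complex.I‖ = |t| := by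
      rw [norm_mul, norm_neg, Complex.norm_real, Complex.norm_I, mul_one, Real.norm_eq_abs]
    rw [h5]
    refine div_le_div_of_nonneg_right ?_ (abs_nonneg _)
    refine (norm_sub_le _ _).trans ?_
    rw [norm_ex, norm_one]
    norm_num

lemma tendsto_mean_re {N : ℕ} (a : Fin N → ℂ) (τ : Fin N → ℝ) :
    Tendsto (avg fun u => (∑ k, a k * ex (τ k) u).re) atTop
      (𝓝 (∑ k, if τ k = 0 then a k else 0).re) := by
  have h1 : Tendsto (fun X : ℝ => ∑ k, a k * (((X⁻¹ : ℝ) : ℂ) * ∫ u in (0 : ℝ)..X, ex (τ k) u))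
      atTop (𝓝 (∑ k, a k * (if τ k = 0 then 1 else 0))) :=
    tendsto_finsetSum Finset.univ fun k _ => (tendsto_mean_ex (τ k)).const_mul (a k)
  have h2 := (Complex.continuous_re.tendsto _).comp h1
  have h3 : (∑ k, a k * (if τ k = 0 then 1 else 0) : ℂ) = ∑ k, if τ k = 0 then a k else 0 := by
    refine Finset.sum_congr rfl fun k _ => ?_
    split_ifs <;> simp
  rw [h3] at h2
  refine h2.congr fun X => ?_
  rw [Function.comp, avg]
  have h4 : ∀ k ∈ (Finset.univ : Finset (Fin N)),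
      IntervalIntegrable (fun u => a k * ex (τ k) u) MeasureTheory.volume 0 X := fun k _ =>
    (continuous_const.mul (continuous_ex _)).intervalIntegrable _ _
  have h5 : ∑ k, a k * (((X⁻¹ : ℝ) : ℂ) * ∫ u in (0 : ℝ)..X, ex (τ k) u) =
      ((X⁻¹ : ℝ) : ℂ) * ∫ u in (0 : ℝ)..X, ∑ k, a k * ex (τ k) u := by
    rw [intervalIntegral.integral_finsetSum h4, Finset.mul_sum]
    refine Finset.sum_congr rfl fun k _ => ?_
    rw [intervalIntegral.integral_const_mul]
    ring
  rw [h5, Complex.re_ofReal_mul]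
  congr 1
  have h6 : Continuous fun u => ∑ k, a k * ex (τ k) u :=
    continuous_finsetSum _ fun k _ => continuous_const.mul (continuous_ex _)
  have h7 := intervalIntegral.intervalIntegral_re (𝕜 := ℂ) (h6.intervalIntegrable
    (μ := MeasureTheory.volume) 0 X)
  exact h7.symm

/-- Uniform limits of functions with a mean value have a mean value. -/
lemma exists_mean_of_approx {h : ℝ → ℝ} (hc : Continuous h)
    (happ : ∀ ε : ℝ, 0 < ε → ∃ (p : ℝ → ℝ) (m : ℝ), Continuous p ∧ Tendsto (avg p) atTop (𝓝 m) ∧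
      ∀ u : ℝ, |h u - p u| ≤ ε) :
    ∃ m : ℝ, Tendsto (avg h) atTop (𝓝 m) ∧
      ∀ (ε : ℝ) (p : ℝ → ℝ) (m' : ℝ), Continuous p → Tendsto (avg p) atTop (𝓝 m') →
        (∀ u : ℝ, |h u - p u| ≤ ε) → |m - m'| ≤ ε := by
  have hcau : CauchySeq (avg h) := by
    rw [Metric.cauchySeq_iff']
    intro ε hε
    obtain ⟨p, m, hpc, hm, hp⟩ := happ (ε / 4) (by linarith)
    have h1 := hm.eventually (Metric.ball_mem_nhds _ (show 0 < ε / 8 by linarith))
    obtain ⟨X₀, hX₀⟩ := eventually_atTop.mp (h1.and (eventually_gt_atTop 0))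
    refine ⟨X₀, fun X hX => ?_⟩
    obtain ⟨h2, h3⟩ := hX₀ X hX
    obtain ⟨h4, h5⟩ := hX₀ X₀ le_rfl
    rw [Real.dist_eq] at h2 h4
    have h6 := abs_avg_sub_le hc hpc hp h3
    have h7 := abs_avg_sub_le hc hpc hp h5
    rw [Real.dist_eq]
    have h8 := abs_lt.mp h2
    have h9 := abs_lt.mp h4
    have h10 := abs_le.mp h6
    have h11 := abs_le.mp h7
    rw [abs_lt]
    constructor <;> linarith [h8.1, h8.2, h9.1, h9.2, h10.1, h10.2, h11.1, h11.2]
  obtain ⟨m, hm⟩ := cauchySeq_tendsto_of_complete hcau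
  refine ⟨m, hm, fun ε p m' hpc hm' hp => ?_⟩
  have h1 := hm.sub hm'
  refine le_of_tendsto h1.abs ?_
  filter_upwards [eventually_gt_atTop 0] with X hX
  exact abs_avg_sub_le hc hpc hp hX

end V70

open V70

/-- V1: mean values, and approximation of `|Re S|` by `Re` of exponential polynomials with class
functions as coefficients. -/
theorem exists_mean_abs {G : Type*} [Group G] [Fintype G] {n : ℕ} (f : Fin n → G → ℂ) (hf : ∀ j, IsClassFn (f j))
    (t : Fin n → ℝ) :
    ∃ B : ℝ, Tendsto (fun X : ℝ => X⁻¹ * ∫ u in (0 : ℝ)..X,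
        (∑ g : G, |(∑ j, f j g * Complex.exp (((-(t j * u) : ℝ) : ℂ) * Complex.I)).re|) /
          Fintype.card G) atTop (𝓝 B) ∧
      ∀ ε : ℝ, 0 < ε → ∃ (N : ℕ) (F : Fin N → G → ℂ) (τ : Fin N → ℝ), (∀ k, IsClassFn (F k)) ∧
        (∀ (g : G) (u : ℝ), |(∑ j, f j g * Complex.exp (((-(t j * u) : ℝ) : ℂ) * Complex.I)).re| ≤
          (∑ k, F k g * Complex.exp (((-(τ k * u) : ℝ) : ℂ) * Complex.I)).re) ∧
        (∑ k, if τ k = 0 then (∑ g, F k g) / Fintype.card G else 0).re ≤ B + ε := by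
  classical
  set S : G → ℝ → ℝ := fun g u => (∑ j, f j g * ex (t j) u).re with hS
  set Sc : G → ℝ → ℂ := fun g u => (S g u : ℂ) with hSc
  have hcard : (0 : ℝ) < Fintype.card G := by exact_mod_cast Fintype.card_pos
  have hScA : Sc ∈ EPA G := by
    show Sc ∈ EP G
    have h : Sc = ∑ j, ((1 / 2 : ℝ) • (fun (g : G) (u : ℝ) => f j g * ex (t j) u) +
        (1 / 2 : ℝ) • (fun (g : G) (u : ℝ) => (starRingEnd ℂ) (f j g) * ex (-t j) u)) := by
      funext g u
      rw [Finset.sum_apply, Finset.sum_apply]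
      simp only [hSc, hS, Pi.add_apply, Pi.smul_apply, Complex.real_smul]
      rw [Complex.re_eq_add_conj, map_sum, ← Finset.sum_add_distrib, Finset.sum_div]
      refine Finset.sum_congr rfl fun j _ => ?_
      rw [map_mul, conj_ex]
      push_cast; ring
    rw [h]
    refine Submodule.sum_mem _ fun j _ => Submodule.add_mem _
      (Submodule.smul_mem _ _ (gen_mem (hf j) _)) (Submodule.smul_mem _ _ (gen_mem ?_ _))
    intro g h
    show (starRingEnd ℂ) (f j (h * g * h⁻¹)) = (starRingEnd ℂ) (f j g)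
    rw [hf j g h]
  set M : ℝ := ∑ g, ∑ j, ‖f j g‖ with hM
  have hb : ∀ g u, S g u ∈ Set.Icc (-M) M := by
    intro g u
    rw [Set.mem_Icc, ← abs_le]
    refine (Complex.abs_re_le_norm _).trans ((norm_sum_le _ _).trans ?_)
    have h1 : ∑ j, ‖f j g * ex (t j) u‖ = ∑ j, ‖f j g‖ := by
      refine Finset.sum_congr rfl fun j _ => ?_
      rw [norm_mul, norm_ex, mul_one]
    rw [h1]
    exact Finset.single_le_sum (f := fun g => ∑ j, ‖f j g‖)
      (fun g _ => Finset.sum_nonneg fun j _ => norm_nonneg _) (Finset.mem_univ g)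
  -- approximation
  have happ : ∀ ε : ℝ, 0 < ε → ∃ (N : ℕ) (F : Fin N → G → ℂ) (τ : Fin N → ℝ),
      (∀ k, IsClassFn (F k)) ∧
      (∀ (g : G) (u : ℝ), |S g u| ≤ (∑ k, F k g * ex (τ k) u).re) ∧
      ∀ (g : G) (u : ℝ), (∑ k, F k g * ex (τ k) u).re ≤ |S g u| + ε := by
    intro ε hε
    obtain ⟨p, hp⟩ := exists_polynomial_near_of_continuousOn (-M) M
      (fun x => |x|) (continuous_abs.continuousOn) (ε / 2) (by linarith)
    have hmem : Polynomial.aeval Sc (p + Polynomial.C (ε / 2)) ∈ EP G := by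
      have h1 : Polynomial.aeval Sc (p + Polynomial.C (ε / 2)) ∈ Algebra.adjoin ℝ {Sc} :=
        Polynomial.aeval_mem_adjoin_singleton ℝ Sc
      have h2 : Algebra.adjoin ℝ {Sc} ≤ EPA G := Algebra.adjoin_le (by
        rintro x rfl
        exact hScA)
      exact h2 h1
    obtain ⟨N, F, τ, hF, hrep⟩ := exists_repr hmem
    have hval : ∀ g u, (∑ k, F k g * ex (τ k) u).re = p.eval (S g u) + ε / 2 := by
      intro g u
      rw [← hrep g u, aeval_eval2]
      have h1 : Sc g u = algebraMap ℝ ℂ (S g u) := rfl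
      rw [h1, Polynomial.aeval_algebraMap_apply]
      simp
    refine ⟨N, F, τ, hF, fun g u => ?_, fun g u => ?_⟩
    · rw [hval]
      have := abs_lt.mp (hp _ (hb g u))
      linarith [this.1]
    · rw [hval]
      have := abs_lt.mp (hp _ (hb g u))
      linarith [this.2]
  set h : ℝ → ℝ := fun u => (∑ g : G, |S g u|) / Fintype.card G with hh
  have hSc' : ∀ g, Continuous (S g) := fun g =>
    Complex.continuous_re.comp (continuous_finsetSum _ fun j _ =>
      continuous_const.mul (continuous_ex _))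
  have hcont : Continuous h :=
    (continuous_finsetSum _ fun g _ => (hSc' g).abs).div_const _
  -- the averages over the group of the approximations
  have hav : ∀ (N : ℕ) (F : Fin N → G → ℂ) (τ : Fin N → ℝ) (u : ℝ),
      (∑ k, ((∑ g, F k g) / Fintype.card G) * ex (τ k) u).re =
        (∑ g, (∑ k, F k g * ex (τ k) u).re) / Fintype.card G := by
    intro N F τ u
    rw [← Complex.re_sum, Finset.sum_comm]
    have h1 : ∑ k, ((∑ g, F k g) / Fintype.card G) * ex (τ k) u =
        (∑ k, ∑ g, F k g * ex (τ k) u) / ((Fintype.card G : ℝ) : ℂ) := by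
      rw [Finset.sum_div]
      refine Finset.sum_congr rfl fun k _ => ?_
      rw [← Finset.sum_mul]
      push_cast; ring
    rw [h1, Complex.div_ofReal_re]
  have hclose : ∀ (ε : ℝ) (N : ℕ) (F : Fin N → G → ℂ) (τ : Fin N → ℝ),
      (∀ (g : G) (u : ℝ), |S g u| ≤ (∑ k, F k g * ex (τ k) u).re) →
      (∀ (g : G) (u : ℝ), (∑ k, F k g * ex (τ k) u).re ≤ |S g u| + ε) → ∀ u,
      |h u - (∑ k, ((∑ g, F k g) / Fintype.card G) * ex (τ k) u).re| ≤ ε := by
    intro ε N F τ h1 h2 u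
    rw [hav, hh]
    simp only
    rw [← sub_div, ← Finset.sum_sub_distrib, abs_div, abs_of_pos hcard, div_le_iff₀ hcard]
    refine (Finset.abs_sum_le_sum_abs _ _).trans ?_
    have h3 : ∀ g ∈ (Finset.univ : Finset G),
        |(|S g u|) - (∑ k, F k g * ex (τ k) u).re| ≤ ε := by
      intro g _
      rw [abs_le]
      constructor <;> linarith [h1 g u, h2 g u, abs_nonneg (S g u)]
    refine (Finset.sum_le_card_nsmul _ _ _ h3).trans (le_of_eq ?_)
    rw [nsmul_eq_mul, Finset.card_univ]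
    ring
  have hpc : ∀ (N : ℕ) (a : Fin N → ℂ) (τ : Fin N → ℝ),
      Continuous fun u => (∑ k, a k * ex (τ k) u).re := fun N a τ =>
    Complex.continuous_re.comp (continuous_finsetSum _ fun k _ =>
      continuous_const.mul (continuous_ex _))
  obtain ⟨B, hB, hB'⟩ := exists_mean_of_approx hcont (fun ε hε => by
    obtain ⟨N, F, τ, -, h1, h2⟩ := happ ε hε
    exact ⟨_, _, hpc N (fun k => (∑ g, F k g) / Fintype.card G) τ, tendsto_mean_re _ _,
      hclose ε N F τ h1 h2⟩)
  refine ⟨B, hB, fun ε hε => ?_⟩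
  obtain ⟨N, F, τ, hF, h1, h2⟩ := happ ε hε
  refine ⟨N, F, τ, hF, h1, ?_⟩
  have h3 := hB' ε _ _ (hpc N (fun k => (∑ g, F k g) / Fintype.card G) τ) (tendsto_mean_re _ _)
    (hclose ε N F τ h1 h2)
  have h4 := (abs_le.mp h3).1
  linarith

end Pool.Agent.Lib.MP_bf61d2_nt.Artin
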