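import Mathlib
import Pool.Agent.Lib.MP_bf61d2_nt.Trim.Artin.Defs63
import Pool.Agent.Lib.MP_bf61d2_nt.Trim.Perm.MeanVal
import Pool.Agent.Lib.MP_bf61d2_nt.Trim.Perm.Trig

set_option autoImplicit false

/-!
ARTIN EDGE (MP_bf61d2_nt), module V: mean values of the absolute values of real parts of
exponential polynomials whose coefficients are class functions.
-/

namespace Pool.Agent.Lib.MP_bf61d2_nt.Perm
end Pool.Agent.Lib.MP_bf61d2_nt.Perm

namespace Pool.Agent.Lib.MP_bf61d2_nt.Artin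

open Filter Topology

open Pool.Agent.Lib.MP_bf61d2_nt.Perm

namespace V90

/-- the exponential with a class function as coefficient -/
noncomputable def ex {G : Type*} (F : G → ℂ) (τ : ℝ) : G → ℝ → ℂ := fun g u =>
  F g * Complex.exp (((-(τ * u) : ℝ) : ℂ) * Complex.I)

/-- exponential polynomials with class functions as coefficients -/
noncomputable def W (G : Type*) [Group G] : Submodule ℂ (G → ℝ → ℂ) :=
  Submodule.span ℂ {φ | ∃ (F : G → ℂ) (τ : ℝ), IsClassFn F ∧ φ = ex F τ}

lemma ex_mem {G : Type*} [Group G] {F : G → ℂ} (hF : IsClassFn F) (τ : ℝ) : ex F τ ∈ W G :=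
  Submodule.subset_span ⟨F, τ, hF, rfl⟩

lemma one_mem (G : Type*) [Group G] : (1 : G → ℝ → ℂ) ∈ W G := by
  have h : (1 : G → ℝ → ℂ) = ex (fun _ => 1) 0 := by
    funext g u
    simp [ex]
  rw [h]
  exact ex_mem (fun _ _ => rfl) 0

lemma ex_mul {G : Type*} (F F' : G → ℂ) (τ τ' : ℝ) :
    ex F τ * ex F' τ' = ex (F * F') (τ + τ') := by
  funext g u
  simp only [ex, Pi.mul_apply]
  rw [mul_mul_mul_comm, ← Complex.exp_add]
  congr 2
  push_cast
  ring

lemma mul_mem (G : Type*) [Group G] (f g : G → ℝ → ℂ) (hf : f ∈ W G) (hg : g ∈ W G) :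
    f * g ∈ W G := by
  have h : W G * W G ≤ W G := by
    unfold W
    rw [Submodule.span_mul_span, Submodule.span_le]
    rintro _ ⟨_, ⟨F, τ, hF, rfl⟩, _, ⟨F', τ', hF', rfl⟩, rfl⟩
    show ex F τ * ex F' τ' ∈ W G
    rw [ex_mul]
    refine ex_mem (fun a b => ?_) _
    rw [Pi.mul_apply, Pi.mul_apply, hF, hF']
  exact h (Submodule.mul_mem_mul hf hg)

/-- exponential polynomials as a subalgebra -/
noncomputable def A (G : Type*) [Group G] : Subalgebra ℂ (G → ℝ → ℂ) :=
  (W G).toSubalgebra (one_mem G) (mul_mem G)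

/-- the real part as an exponential polynomial -/
lemma re_mem {G : Type*} [Group G] {n : ℕ} (f : Fin n → G → ℂ) (hf : ∀ j, IsClassFn (f j))
    (t : Fin n → ℝ) : (fun (g : G) (u : ℝ) =>
      (((∑ j, f j g * Complex.exp (((-(t j * u) : ℝ) : ℂ) * Complex.I)).re : ℝ) : ℂ)) ∈ W G := by
  have h : (fun (g : G) (u : ℝ) =>
      (((∑ j, f j g * Complex.exp (((-(t j * u) : ℝ) : ℂ) * Complex.I)).re : ℝ) : ℂ)) =
      ∑ j, ((1 / 2 : ℂ) • ex (f j) (t j) +
        (1 / 2 : ℂ) • ex (fun g => (starRingEnd ℂ) (f j g)) (-(t j))) := by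
    funext g u
    rw [Finset.sum_apply, Finset.sum_apply, Complex.re_sum, Complex.ofReal_sum]
    refine Finset.sum_congr rfl fun j _ => ?_
    simp only [Pi.add_apply, Pi.smul_apply, ex, smul_eq_mul]
    rw [Complex.re_eq_add_conj, map_mul, ← Complex.exp_conj, map_mul, Complex.conj_ofReal,
      Complex.conj_I]
    have h2 : ((-(t j * u) : ℝ) : ℂ) * -Complex.I = ((-(-(t j) * u) : ℝ) : ℂ) * Complex.I := by
      push_cast
      ring
    rw [h2]
    ring
  rw [h]
  refine Submodule.sum_mem _ fun j _ => Submodule.add_mem _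
    (Submodule.smul_mem _ _ (ex_mem (hf j) _)) (Submodule.smul_mem _ _ (ex_mem (fun a b => ?_) _))
  rw [hf j a b]

lemma tendsto_sin (τ β : ℝ) :
    Tendsto (fun X : ℝ => X⁻¹ * ∫ u in (0 : ℝ)..X, β * Real.sin (τ * u)) atTop (𝓝 0) := by
  by_cases h : τ = 0
  · subst h
    simp
  · have h1 : ∀ X : ℝ, ∫ u in (0 : ℝ)..X, β * Real.sin (τ * u) =
        β * (τ⁻¹ * (1 - Real.cos (τ * X))) := by
      intro X
      rw [intervalIntegral.integral_const_mul,
        intervalIntegral.integral_comp_mul_left (fun x => Real.sin x) h, integral_sin]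
      simp
    have h2 : Tendsto (fun X : ℝ => X⁻¹ * (β * (τ⁻¹ * (1 - Real.cos (τ * X))))) atTop (𝓝 0) := by
      refine Tendsto.zero_mul_isBoundedUnder_le tendsto_inv_atTop_zero ?_
      refine ⟨|β| * |τ⁻¹| * 2, ?_⟩
      rw [eventually_map]
      filter_upwards with X
      simp only [Function.comp, Real.norm_eq_abs, abs_mul]
      rw [← mul_assoc]
      refine mul_le_mul_of_nonneg_left ?_ (by positivity)
      have h3 := Real.cos_le_one (τ * X)
      have h4 := Real.neg_one_le_cos (τ * X)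
      rw [abs_le]
      constructor <;> linarith
    exact h2.congr fun X => by rw [h1]

lemma re_exp (z : ℂ) (x : ℝ) : (z * Complex.exp (((-x : ℝ) : ℂ) * Complex.I)).re =
    z.re * Real.cos x + z.im * Real.sin x := by
  rw [Complex.mul_re, Complex.exp_ofReal_mul_I_re, Complex.exp_ofReal_mul_I_im, Real.cos_neg,
    Real.sin_neg]
  ring

/-- mean values of exponential polynomials -/
lemma mean_exp {N : ℕ} (z : Fin N → ℂ) (τ : Fin N → ℝ) :
    Tendsto (avg fun u : ℝ => (∑ k, z k *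
      Complex.exp (((-(τ k * u) : ℝ) : ℂ) * Complex.I)).re) atTop
      (𝓝 (∑ k, if τ k = 0 then z k else 0).re) := by
  have h1 := tendsto_mean_trig τ (fun k => (z k).re)
  have h2 : Tendsto (fun X : ℝ => ∑ k, X⁻¹ * ∫ u in (0 : ℝ)..X, (z k).im * Real.sin (τ k * u))
      atTop (𝓝 0) := by
    have h3 := tendsto_finsetSum Finset.univ fun k _ => tendsto_sin (τ k) ((z k).im)
    rwa [Finset.sum_const_zero] at h3
  have h4 := h1.add h2
  rw [add_zero] at h4
  have h5 : (∑ k, if τ k = 0 then z k else 0).re = ∑ k, if τ k = 0 then (z k).re else 0 := by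
    rw [Complex.re_sum]
    refine Finset.sum_congr rfl fun k _ => ?_
    split_ifs
    · rfl
    · rfl
  rw [h5]
  refine h4.congr fun X => ?_
  rw [avg, ← Finset.mul_sum, ← mul_add, ← intervalIntegral.integral_finsetSum,
    ← intervalIntegral.integral_add]
  · congr 1
    refine intervalIntegral.integral_congr fun u _ => ?_
    rw [Complex.re_sum, ← Finset.sum_add_distrib]
    refine Finset.sum_congr rfl fun k _ => ?_
    rw [re_exp]
  · exact Continuous.intervalIntegrable (by fun_prop) _ _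
  · exact Continuous.intervalIntegrable (by fun_prop) _ _
  · intro k _
    exact Continuous.intervalIntegrable (by fun_prop) _ _

/-- uniform limits of functions with a mean value -/
lemma exists_mean' {h : ℝ → ℝ} (hc : Continuous h)
    (happ : ∀ ε : ℝ, 0 < ε → ∃ (p : ℝ → ℝ) (m : ℝ), Continuous p ∧ Tendsto (avg p) atTop (𝓝 m) ∧
      ∀ u : ℝ, |h u - p u| ≤ ε) :
    ∃ m : ℝ, Tendsto (avg h) atTop (𝓝 m) ∧
      ∀ (ε : ℝ) (p : ℝ → ℝ) (m' : ℝ), Continuous p → Tendsto (avg p) atTop (𝓝 m') →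
        (∀ u : ℝ, |h u - p u| ≤ ε) → |m - m'| ≤ ε := by
  have hcau : CauchySeq (avg h) := by
    rw [Metric.cauchySeq_iff']
    intro ε hε
    obtain ⟨p, m, hpc, hpm, hp⟩ := happ (ε / 4) (by linarith)
    have h1 := hpm.eventually (Metric.ball_mem_nhds _ (show 0 < ε / 8 by linarith))
    obtain ⟨X₀, hX₀⟩ := eventually_atTop.mp (h1.and (eventually_gt_atTop 0))
    refine ⟨X₀, fun X hX => ?_⟩
    obtain ⟨h2, h3⟩ := hX₀ X hX
    obtain ⟨h4, h5⟩ := hX₀ X₀ le_rfl
    rw [Real.dist_eq] at h2 h4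
    have h6 := abs_avg_sub_le hc hpc hp h3
    have h7 := abs_avg_sub_le hc hpc hp h5
    rw [Real.dist_eq]
    have h8 := abs_lt.mp h2
    have h9 := abs_lt.mp h4
    have h10 := abs_le.mp h6
    have h11 := abs_le.mp h7
    rw [abs_lt]
    constructor <;> linarith [h8.1, h8.2, h9.1, h9.2, h10.1, h10.2, h11.1, h11.2]
  obtain ⟨m, hm⟩ := cauchySeq_tendsto_of_complete hcau
  refine ⟨m, hm, fun ε p m' hpc hpm hp => ?_⟩
  refine le_of_tendsto (hm.sub hpm).abs ?_
  filter_upwards [eventually_gt_atTop 0] with X hX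
  exact abs_avg_sub_le hc hpc hp hX

end V90

section Mean

variable {G : Type*} [Group G] [Fintype G]

end Mean

end Pool.Agent.Lib.MP_bf61d2_nt.Artin
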