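import Mathlib

set_option autoImplicit false

/-!
Artin twists at the edge: the bound by the distribution of the normalised traces, and the Bessel
inequality with their second moment.
-/

namespace NumberField
end NumberField

namespace Pool.Agent.Lib.MP_bf61d2_nt.Perm
end Pool.Agent.Lib.MP_bf61d2_nt.Perm

namespace Pool.Agent.Lib.MP_bf61d2_nt.Artin

open NumberField IsDedekindDomain Filter Topology Polynomial Module

open Pool.Agent.Lib.MP_bf61d2_nt.Perm

section D1

variable {K M : Type*} [Field K] [NumberField K] [Field M] [NumberField M] [Algebra K M]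

lemma exists_bdd_cont {φ : ℝ → ℝ} (hφ : Continuous φ) : ∃ A : ℝ, 0 ≤ A ∧ ∀ x : ℝ, |x| ≤ 2 → |φ x| ≤ A := by
  obtain ⟨x₀, -, hx₀⟩ := isCompact_Icc.exists_isMaxOn (Set.nonempty_Icc.mpr (by norm_num : (-2 : ℝ) ≤ 2))
    (hφ.abs.continuousOn)
  exact ⟨|φ x₀|, abs_nonneg _, fun x hx => hx₀ (Set.mem_Icc.mpr (abs_le.mp hx))⟩

variable [IsGalois K M] [Fintype Gal(M/K)]

end D1

end Pool.Agent.Lib.MP_bf61d2_nt.Artin
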