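import Mathlib
import Pool.Agent.Lib.MP_bf61d2_nt.Trim.Artin.R7
import Pool.Agent.Lib.MP_bf61d2_nt.Trim.Perm.Trig

set_option autoImplicit false

/-!
Artin twists at the edge: two points of the line.
-/

namespace NumberField
end NumberField

namespace Pool.Agent.Lib.MP_bf61d2_nt.Perm
end Pool.Agent.Lib.MP_bf61d2_nt.Perm

namespace Pool.Agent.Lib.MP_bf61d2_nt.Artin

open NumberField IsDedekindDomain Filter Topology Polynomial Module

open Pool.Agent.Lib.MP_bf61d2_nt.Perm

section Char

variable {G : Type*} [Group G] [Fintype G] {V W : Type*} [AddCommGroup V] [Module ℂ V]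
  [FiniteDimensional ℂ V] [AddCommGroup W] [Module ℂ W] [FiniteDimensional ℂ W]

lemma sum_norm_char (ρ : Representation ℂ G V) (hi : ρ.IsIrreducible) :
    ∑ g, ‖ρ.character g‖ ^ 2 = Fintype.card G := by
  have hcard : (Fintype.card G : ℂ) ≠ 0 := Nat.cast_ne_zero.mpr Fintype.card_ne_zero
  have : Invertible (Nat.card G : ℂ) := invertibleOfNonzero (by
    rwa [Nat.card_eq_fintype_card])
  have h := Representation.char_orthonormal ρ ρ
  rw [if_pos ⟨.refl _⟩, Nat.card_eq_fintype_card] at h
  have h2 : ∑ g, ρ.character g * ρ.character g⁻¹ = (Fintype.card G : ℂ) := by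
    rw [← mul_inv_cancel_left₀ hcard (∑ g, ρ.character g * ρ.character g⁻¹), h, mul_one]
  have h3 : ((∑ g, ‖ρ.character g‖ ^ 2 : ℝ) : ℂ) = ((Fintype.card G : ℝ) : ℂ) := by
    push_cast
    rw [← h2]
    refine Finset.sum_congr rfl fun g _ => ?_
    rw [character_inv, Complex.mul_conj, Complex.normSq_eq_norm_sq]
    push_cast
    rfl
  exact_mod_cast h3

lemma sum_char_conj {ρ : Representation ℂ G V} {ρ' : Representation ℂ G W}
    (hi : ρ.IsIrreducible) (hi' : ρ'.IsIrreducible) (h : ρ.character ≠ ρ'.character) :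
    ∑ g, ρ.character g * (starRingEnd ℂ) (ρ'.character g) = 0 := by
  classical
  have hcard : (Fintype.card G : ℂ) ≠ 0 := Nat.cast_ne_zero.mpr Fintype.card_ne_zero
  have : Invertible (Nat.card G : ℂ) := invertibleOfNonzero (by
    rwa [Nat.card_eq_fintype_card])
  have h1 := Representation.char_orthonormal ρ ρ'
  rw [if_neg (fun ⟨φ⟩ => h (Representation.char_iso φ).symm), Nat.card_eq_fintype_card] at h1
  have h2 := (mul_eq_zero.mp h1).resolve_left (inv_ne_zero hcard)
  rw [← h2]
  refine Finset.sum_congr rfl fun g _ => ?_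
  rw [character_inv]

lemma sum_char_mul {ρ : Representation ℂ G V} {ρ' : Representation ℂ G W}
    (hi : ρ.IsIrreducible) (hi' : ρ'.IsIrreducible)
    (h : ρ.character ≠ fun g => (starRingEnd ℂ) (ρ'.character g)) :
    ∑ g, ρ.character g * ρ'.character g = 0 := by
  have hcard : (Fintype.card G : ℂ) ≠ 0 := Nat.cast_ne_zero.mpr Fintype.card_ne_zero
  have hcard' : (0 : ℝ) < Fintype.card G := Nat.cast_pos.mpr Fintype.card_pos
  have : Invertible (Nat.card G : ℂ) := invertibleOfNonzero (by
    rwa [Nat.card_eq_fintype_card])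
  have h1 := Representation.card_inv_mul_sum_char_mul_char_eq_finrank ρ'.dual ρ
  rw [Nat.card_eq_fintype_card] at h1
  set n : ℕ := finrank ℂ (Representation.IntertwiningMap ρ'.dual ρ) with hn
  have h2 : ∑ g, ρ.character g * ρ'.character g = (Fintype.card G : ℂ) * n := by
    rw [← h1, mul_inv_cancel_left₀ hcard]
    refine Finset.sum_congr rfl fun g _ => ?_
    rw [Representation.char_dual, inv_inv]
  have h3 : ∑ g, ‖ρ.character g - (starRingEnd ℂ) (ρ'.character g)‖ ^ 2 =
      2 * Fintype.card G - 2 * (Fintype.card G * n) := by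
    have h4 : ∀ g, ‖ρ.character g - (starRingEnd ℂ) (ρ'.character g)‖ ^ 2 =
        ‖ρ.character g‖ ^ 2 + ‖ρ'.character g‖ ^ 2 - 2 * (ρ.character g * ρ'.character g).re := by
      intro g
      rw [← Complex.normSq_eq_norm_sq, ← Complex.normSq_eq_norm_sq, ← Complex.normSq_eq_norm_sq,
        Complex.normSq_sub, Complex.normSq_conj, Complex.conj_conj]
    simp_rw [h4]
    rw [Finset.sum_sub_distrib, Finset.sum_add_distrib, sum_norm_char ρ hi, sum_norm_char ρ' hi',
      ← Finset.mul_sum, ← Complex.re_sum, h2]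
    have h5 : ((Fintype.card G : ℂ) * n).re = Fintype.card G * n := by
      rw [← Nat.cast_mul, Complex.natCast_re, Nat.cast_mul]
    rw [h5]
    ring
  obtain ⟨g, hg⟩ := Function.ne_iff.mp h
  have h6 : 0 < ∑ g, ‖ρ.character g - (starRingEnd ℂ) (ρ'.character g)‖ ^ 2 :=
    Finset.sum_pos' (fun _ _ => by positivity)
      ⟨g, Finset.mem_univ _, pow_pos (norm_pos_iff.mpr (sub_ne_zero.mpr hg)) 2⟩
  rw [h3] at h6
  have h7 : (n : ℝ) < 1 := by
    by_contra h8
    push Not at h8
    nlinarith
  have h8 : n = 0 := by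
    have : n < 1 := by exact_mod_cast h7
    omega
  rw [h2, h8, Nat.cast_zero, mul_zero]

end Char

variable {K M : Type*} [Field K] [NumberField K] [Field M] [NumberField M] [Algebra K M]
  [IsGalois K M] [Fintype Gal(M/K)]

end Pool.Agent.Lib.MP_bf61d2_nt.Artin
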