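import Mathlib
import Pool.Agent.Lib.MP_bf61d2_nt.Trim.Artin.V2x7

set_option autoImplicit false

/-!
The mean value of `|Re (z₁ e^(-i t₁ u) + z₂ e^(-i t₂ u))|` is smaller than one.
-/

namespace Pool.Agent.Lib.MP_bf61d2_nt.Perm
end Pool.Agent.Lib.MP_bf61d2_nt.Perm

namespace Pool.Agent.Lib.MP_bf61d2_nt.Artin

open Filter Topology MeasureTheory

open Pool.Agent.Lib.MP_bf61d2_nt.Perm

namespace V3

/-- `Re (z exp (-i s u))`. -/
noncomputable def R (z : ℂ) (s u : ℝ) : ℝ :=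
  (z * Complex.exp (((-(s * u) : ℝ) : ℂ) * Complex.I)).re

lemma R_eq (z : ℂ) (s u : ℝ) : R z s u = z.re * Real.cos (s * u) + z.im * Real.sin (s * u) := by
  rw [R, Complex.mul_re, Complex.exp_ofReal_mul_I_re, Complex.exp_ofReal_mul_I_im, Real.cos_neg,
    Real.sin_neg]
  ring

lemma R_cont (z : ℂ) (s : ℝ) : Continuous (R z s) := by
  have h : R z s = fun u => z.re * Real.cos (s * u) + z.im * Real.sin (s * u) := by
    funext u; exact R_eq z s u
  rw [h]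
  fun_prop

lemma R_mul (a b : ℂ) (s t u : ℝ) : R a s u * R b t u =
    1 / 2 * (R (a * b) (s + t) u + R (a * (starRingEnd ℂ) b) (s - t) u) := by
  simp only [R_eq, Complex.mul_re, Complex.mul_im, Complex.conj_re, Complex.conj_im, add_mul,
    sub_mul, Real.cos_add, Real.sin_add, Real.cos_sub, Real.sin_sub]
  ring

/-- `m` is the mean value of the continuous function `h`. -/
def IsMean (h : ℝ → ℝ) (m : ℝ) : Prop :=
  Continuous h ∧ Tendsto (fun X : ℝ => X⁻¹ * ∫ u in (0 : ℝ)..X, h u) atTop (𝓝 m)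

lemma IsMean.add {h k : ℝ → ℝ} {m n : ℝ} (hh : IsMean h m) (hk : IsMean k n) :
    IsMean (fun u => h u + k u) (m + n) := by
  refine ⟨hh.1.add hk.1, (hh.2.add hk.2).congr fun X => ?_⟩
  rw [intervalIntegral.integral_add (hh.1.intervalIntegrable _ _) (hk.1.intervalIntegrable _ _),
    mul_add]

lemma IsMean.const_mul {h : ℝ → ℝ} {m : ℝ} (hh : IsMean h m) (c : ℝ) :
    IsMean (fun u => c * h u) (c * m) := by
  refine ⟨continuous_const.mul hh.1, (hh.2.const_mul c).congr fun X => ?_⟩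
  rw [intervalIntegral.integral_const_mul]
  ring

lemma IsMean.congr {h k : ℝ → ℝ} {m n : ℝ} (hh : IsMean h m) (e : ∀ u, k u = h u) (e2 : n = m) :
    IsMean k n := by
  have h1 : k = h := funext e
  rw [h1, e2]
  exact hh

lemma IsMean.sum {ι : Type*} (s : Finset ι) {h : ι → ℝ → ℝ} {m : ι → ℝ}
    (hh : ∀ i ∈ s, IsMean (h i) (m i)) : IsMean (fun u => ∑ i ∈ s, h i u) (∑ i ∈ s, m i) := by
  classical
  induction s using Finset.induction_on with
  | empty =>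
    simp only [Finset.sum_empty]
    refine ⟨continuous_const, ?_⟩
    simp
  | insert a s ha ih =>
    simp only [Finset.sum_insert ha]
    exact (hh a (Finset.mem_insert_self a s)).add
      (ih fun i hi => hh i (Finset.mem_insert_of_mem hi))

lemma isMean_const (c : ℝ) : IsMean (fun _ => c) c := by
  refine ⟨continuous_const, ?_⟩
  refine tendsto_const_nhds.congr' ?_
  filter_upwards [eventually_gt_atTop 0] with X hX
  rw [intervalIntegral.integral_const, sub_zero, smul_eq_mul]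
  field_simp

lemma isMean_of_bounded {h : ℝ → ℝ} (hc : Continuous h) {C : ℝ}
    (hC : ∀ X, |∫ u in (0 : ℝ)..X, h u| ≤ C) : IsMean h 0 := by
  refine ⟨hc, ?_⟩
  have h1 : Tendsto (fun X : ℝ => C * X⁻¹) atTop (𝓝 0) := by
    simpa using tendsto_inv_atTop_zero.const_mul C
  refine squeeze_zero_norm' ?_ h1
  filter_upwards [eventually_gt_atTop 0] with X hX
  rw [norm_mul, Real.norm_eq_abs, Real.norm_eq_abs, abs_of_pos (inv_pos.mpr hX), mul_comm]
  exact mul_le_mul_of_nonneg_right (hC X) (inv_pos.mpr hX).le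

lemma isMean_R (z : ℂ) {s : ℝ} (hs : s ≠ 0) : IsMean (R z s) 0 := by
  have h1 : IsMean (fun u => Real.cos (s * u)) 0 := by
    refine isMean_of_bounded (by fun_prop) (C := 2 * |s⁻¹|) fun X => ?_
    rw [intervalIntegral.integral_comp_mul_left (fun u => Real.cos u) hs, integral_cos, smul_eq_mul,
      abs_mul, mul_comm]
    refine mul_le_mul_of_nonneg_right ?_ (abs_nonneg _)
    refine (abs_sub _ _).trans ?_
    linarith [Real.abs_sin_le_one (s * X), Real.abs_sin_le_one (s * 0)]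
  have h2 : IsMean (fun u => Real.sin (s * u)) 0 := by
    refine isMean_of_bounded (by fun_prop) (C := 2 * |s⁻¹|) fun X => ?_
    rw [intervalIntegral.integral_comp_mul_left (fun u => Real.sin u) hs, integral_sin, smul_eq_mul,
      abs_mul, mul_comm]
    refine mul_le_mul_of_nonneg_right ?_ (abs_nonneg _)
    refine (abs_sub _ _).trans ?_
    linarith [Real.abs_cos_le_one (s * X), Real.abs_cos_le_one (s * 0)]
  refine ((h1.const_mul z.re).add (h2.const_mul z.im)).congr (fun u => R_eq z s u) ?_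
  ring

lemma isMean_R_zero (z : ℂ) : IsMean (R z 0) z.re := by
  refine (isMean_const z.re).congr (fun u => ?_) rfl
  rw [R_eq]
  simp

lemma isMean_mul {a b : ℂ} {s t : ℝ} (h1 : s + t ≠ 0) (h2 : s - t ≠ 0) :
    IsMean (fun u => R a s u * R b t u) 0 := by
  refine (((isMean_R (a * b) h1).add (isMean_R (a * (starRingEnd ℂ) b) h2)).const_mul
    (1 / 2)).congr (fun u => R_mul a b s t u) ?_
  ring

lemma isMean_mul_self {a b : ℂ} {s : ℝ} (hs : s ≠ 0) :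
    IsMean (fun u => R a s u * R b s u) (1 / 2 * (a * (starRingEnd ℂ) b).re) := by
  have h1 : s + s ≠ 0 := by
    intro h
    apply hs
    linarith
  refine (((isMean_R (a * b) h1).add (isMean_R_zero (a * (starRingEnd ℂ) b))).const_mul
    (1 / 2)).congr (fun u => ?_) ?_
  · rw [R_mul, sub_self]
  · ring

/-- The pointwise majorant. -/
lemma abs_le_major {y w Y : ℝ} (hY : |y| ≤ Y) :
    |y| ≤ (1 + y ^ 2) / 2 - 1 / (2 * (1 + Y) ^ 2) * ((1 - y ^ 2) * w - w ^ 2 / 4) := by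
  have hY0 : 0 ≤ Y := (abs_nonneg y).trans hY
  set x := |y| with hx
  have hx0 : 0 ≤ x := abs_nonneg y
  have hxy : y ^ 2 = x ^ 2 := (sq_abs y).symm
  rw [hxy]
  set D := (1 + Y) ^ 2 with hD
  have hD0 : 0 < D := by positivity
  have h1 : (1 - x ^ 2) * w - w ^ 2 / 4 ≤ (1 - x ^ 2) ^ 2 := by
    nlinarith [sq_nonneg (1 - x ^ 2 - w / 2)]
  have h2 : (1 - x ^ 2) ^ 2 ≤ D * (1 - x) ^ 2 := by
    have : (1 - x ^ 2) ^ 2 = (1 + x) ^ 2 * (1 - x) ^ 2 := by ring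
    rw [this]
    refine mul_le_mul_of_nonneg_right ?_ (sq_nonneg _)
    exact pow_le_pow_left₀ (by linarith) (by linarith) 2
  have h3 : 1 / (2 * D) * ((1 - x ^ 2) * w - w ^ 2 / 4) ≤ 1 / (2 * D) * (D * (1 - x) ^ 2) :=
    mul_le_mul_of_nonneg_left (h1.trans h2) (by positivity)
  have h4 : 1 / (2 * D) * (D * (1 - x) ^ 2) = (1 - x) ^ 2 / 2 := by
    field_simp
  rw [h4] at h3
  nlinarith [h3]

lemma abs_R_le (z : ℂ) (s u : ℝ) : |R z s u| ≤ ‖z‖ := by
  rw [R]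
  refine (Complex.abs_re_le_norm _).trans ?_
  rw [norm_mul, Complex.norm_exp_ofReal_mul_I, mul_one]

/-- The mean value of the majorant. -/
lemma isMean_major (X₁ X₂ : ℂ) {t₁ t₂ : ℝ} (ht₂ : t₂ ≠ 0) (h : |t₂| < |t₁|) (d : ℝ) :
    IsMean (fun u => (1 + (R X₁ t₁ u + R X₂ t₂ u) ^ 2) / 2 -
      d * ((1 - (R X₁ t₁ u + R X₂ t₂ u) ^ 2) * (-R (X₁ ^ 2) (2 * t₁) u) -
        (-R (X₁ ^ 2) (2 * t₁) u) ^ 2 / 4))
      (1 / 2 + (‖X₁‖ ^ 2 + ‖X₂‖ ^ 2) / 4 - d / 8 * ‖X₁‖ ^ 4) := by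
  have ht₁ : t₁ ≠ 0 := by
    rintro rfl
    rw [abs_zero] at h
    exact absurd h (not_lt.mpr (abs_nonneg _))
  have hlt := h
  -- the frequencies
  have f1 : t₁ + t₂ ≠ 0 := fun h0 => by
    have : t₁ = -t₂ := by linarith
    rw [this, abs_neg] at hlt
    exact lt_irrefl _ hlt
  have f2 : t₁ - t₂ ≠ 0 := fun h0 => by
    have : t₁ = t₂ := by linarith
    rw [this] at hlt
    exact lt_irrefl _ hlt
  have f3 : 3 * t₁ + t₂ ≠ 0 := fun h0 => by
    have : t₂ = -(3 * t₁) := by linarith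
    rw [this, abs_neg, abs_mul, abs_of_pos (by norm_num : (0 : ℝ) < 3)] at hlt
    linarith [abs_nonneg t₁]
  have f4 : 3 * t₁ - t₂ ≠ 0 := fun h0 => by
    have : t₂ = 3 * t₁ := by linarith
    rw [this, abs_mul, abs_of_pos (by norm_num : (0 : ℝ) < 3)] at hlt
    linarith [abs_nonneg t₁]
  set Z := X₁ ^ 2 with hZ
  have hZn : (Z * (starRingEnd ℂ) Z).re = ‖X₁‖ ^ 4 := by
    rw [Complex.mul_conj, Complex.ofReal_re, Complex.normSq_eq_norm_sq, hZ, norm_pow]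
    ring
  have hX₁ : (X₁ * (starRingEnd ℂ) X₁).re = ‖X₁‖ ^ 2 := by
    rw [Complex.mul_conj, Complex.ofReal_re, Complex.normSq_eq_norm_sq]
  have hX₂ : (X₂ * (starRingEnd ℂ) X₂).re = ‖X₂‖ ^ 2 := by
    rw [Complex.mul_conj, Complex.ofReal_re, Complex.normSq_eq_norm_sq]
  -- the square
  have hsq : ∀ u, (R X₁ t₁ u + R X₂ t₂ u) ^ 2 = 1 / 2 * (R Z (2 * t₁) u) + 1 / 2 * ‖X₁‖ ^ 2 +
      R (X₁ * X₂) (t₁ + t₂) u + R (X₁ * (starRingEnd ℂ) X₂) (t₁ - t₂) u +
      1 / 2 * (R (X₂ ^ 2) (2 * t₂) u) + 1 / 2 * ‖X₂‖ ^ 2 := by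
    intro u
    have e1 : R X₁ t₁ u * R X₁ t₁ u = 1 / 2 * (R Z (2 * t₁) u) + 1 / 2 * ‖X₁‖ ^ 2 := by
      rw [R_mul, ← hX₁, hZ, sq, ← two_mul, sub_self, R_eq _ 0]
      simp
      ring
    have e2 : R X₂ t₂ u * R X₂ t₂ u = 1 / 2 * (R (X₂ ^ 2) (2 * t₂) u) + 1 / 2 * ‖X₂‖ ^ 2 := by
      rw [R_mul, ← hX₂, sq, ← two_mul, sub_self, R_eq _ 0]
      simp
      ring
    have e3 := R_mul X₁ X₂ t₁ t₂ u
    linear_combination e1 + e2 + 2 * e3
  have g1 : 2 * t₁ ≠ 0 := mul_ne_zero two_ne_zero ht₁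
  have g2 : 2 * t₂ ≠ 0 := mul_ne_zero two_ne_zero ht₂
  -- mean of the square
  have m1 : IsMean (fun u => (R X₁ t₁ u + R X₂ t₂ u) ^ 2) (1 / 2 * ‖X₁‖ ^ 2 + 1 / 2 * ‖X₂‖ ^ 2) := by
    refine (((((((isMean_R Z g1).const_mul (1 / 2)).add (isMean_const (1 / 2 * ‖X₁‖ ^ 2))).add
      (isMean_R (X₁ * X₂) f1)).add (isMean_R (X₁ * (starRingEnd ℂ) X₂) f2)).add
      ((isMean_R (X₂ ^ 2) g2).const_mul (1 / 2))).add (isMean_const (1 / 2 * ‖X₂‖ ^ 2))).congr
      hsq ?_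
    ring
  -- mean of the square times the weight
  have m2 : IsMean (fun u => (R X₁ t₁ u + R X₂ t₂ u) ^ 2 * R Z (2 * t₁) u) (1 / 4 * ‖X₁‖ ^ 4) := by
    have p1 := (isMean_mul_self (a := Z) (b := Z) g1).const_mul (1 / 2)
    have p2 := (isMean_R Z g1).const_mul (1 / 2 * ‖X₁‖ ^ 2)
    have p3 : IsMean (fun u => R (X₁ * X₂) (t₁ + t₂) u * R Z (2 * t₁) u) 0 :=
      isMean_mul (fun h0 => f3 (by linarith)) (fun h0 => f2 (by linarith))
    have p4 : IsMean (fun u => R (X₁ * (starRingEnd ℂ) X₂) (t₁ - t₂) u * R Z (2 * t₁) u) 0 :=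
      isMean_mul (fun h0 => f4 (by linarith)) (fun h0 => f1 (by linarith))
    have p5 : IsMean (fun u => R (X₂ ^ 2) (2 * t₂) u * R Z (2 * t₁) u) 0 :=
      isMean_mul (fun h0 => f1 (by linarith)) (fun h0 => f2 (by linarith))
    have p6 := (isMean_R Z g1).const_mul (1 / 2 * ‖X₂‖ ^ 2)
    refine (((((p1.add p2).add p3).add p4).add (p5.const_mul (1 / 2))).add p6).congr
      (fun u => ?_) ?_
    · rw [hsq]
      ring
    · rw [hZn]
      ring
  have m3 : IsMean (fun u => R Z (2 * t₁) u * R Z (2 * t₁) u) (1 / 2 * ‖X₁‖ ^ 4) := by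
    rw [← hZn]
    exact isMean_mul_self g1
  have m4 := isMean_R Z g1
  refine ((((isMean_const (1 / 2)).add (m1.const_mul (1 / 2))).add (m2.const_mul (-d))).add
    ((m4.const_mul d).add (m3.const_mul (d / 4)))).congr (fun u => ?_) ?_
  · ring
  · ring

/-- The case of different absolute values of the frequencies. -/
lemma lt_of_abs_lt {G : Type*} [Fintype G] [Nonempty G] (X₁ X₂ : G → ℂ) {t₁ t₂ : ℝ}
    (ht₂ : t₂ ≠ 0) (hlt : |t₂| < |t₁|)
    (h1 : ∑ g, ‖X₁ g‖ ^ 2 = Fintype.card G) (h2 : ∑ g, ‖X₂ g‖ ^ 2 = Fintype.card G) {B : ℝ}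
    (hB : Tendsto (fun X : ℝ => X⁻¹ * ∫ u in (0 : ℝ)..X,
      (∑ g : G, |R (X₁ g) t₁ u + R (X₂ g) t₂ u|) / Fintype.card G) atTop (𝓝 B)) : B < 1 := by
  have hcard : (0 : ℝ) < Fintype.card G := by exact_mod_cast Fintype.card_pos
  set Y : ℝ := ∑ g, (‖X₁ g‖ + ‖X₂ g‖) with hY
  have hY0 : 0 ≤ Y := Finset.sum_nonneg fun g _ => by positivity
  have hYg : ∀ g, ‖X₁ g‖ + ‖X₂ g‖ ≤ Y := fun g =>
    Finset.single_le_sum (f := fun g => ‖X₁ g‖ + ‖X₂ g‖) (fun g _ => by positivity)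
      (Finset.mem_univ g)
  set d : ℝ := 1 / (2 * (1 + Y) ^ 2) with hd
  have hd0 : 0 < d := by positivity
  set P : G → ℝ → ℝ := fun g u => (1 + (R (X₁ g) t₁ u + R (X₂ g) t₂ u) ^ 2) / 2 -
      d * ((1 - (R (X₁ g) t₁ u + R (X₂ g) t₂ u) ^ 2) * (-R (X₁ g ^ 2) (2 * t₁) u) -
        (-R (X₁ g ^ 2) (2 * t₁) u) ^ 2 / 4) with hP
  have hle : ∀ g u, |R (X₁ g) t₁ u + R (X₂ g) t₂ u| ≤ P g u := by
    intro g u
    refine abs_le_major ?_
    refine (abs_add_le _ _).trans (le_trans ?_ (hYg g))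
    exact add_le_add (abs_R_le _ _ _) (abs_R_le _ _ _)
  have hM : IsMean (fun u => (1 / (Fintype.card G : ℝ)) * ∑ g, P g u)
      ((1 / (Fintype.card G : ℝ)) * ∑ g, (1 / 2 + (‖X₁ g‖ ^ 2 + ‖X₂ g‖ ^ 2) / 4 -
        d / 8 * ‖X₁ g‖ ^ 4)) :=
    (IsMean.sum Finset.univ fun g _ => isMean_major (X₁ g) (X₂ g) ht₂ hlt d).const_mul _
  have hval : ∑ g, (1 / 2 + (‖X₁ g‖ ^ 2 + ‖X₂ g‖ ^ 2) / 4 - d / 8 * ‖X₁ g‖ ^ 4) =
      Fintype.card G - d / 8 * ∑ g, ‖X₁ g‖ ^ 4 := by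
    have e : ∀ g, 1 / 2 + (‖X₁ g‖ ^ 2 + ‖X₂ g‖ ^ 2) / 4 - d / 8 * ‖X₁ g‖ ^ 4 =
        1 / 2 + (1 / 4 * ‖X₁ g‖ ^ 2 + 1 / 4 * ‖X₂ g‖ ^ 2) - d / 8 * ‖X₁ g‖ ^ 4 := fun g => by ring
    rw [Finset.sum_congr rfl fun g _ => e g, Finset.sum_sub_distrib, Finset.sum_add_distrib,
      Finset.sum_add_distrib, ← Finset.mul_sum, ← Finset.mul_sum, ← Finset.mul_sum,
      h1, h2, Finset.sum_const, Finset.card_univ, nsmul_eq_mul]
    ring
  have hpos : 0 < ∑ g, ‖X₁ g‖ ^ 4 := by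
    obtain ⟨g, hg⟩ : ∃ g, X₁ g ≠ 0 := by
      by_contra hcon
      push Not at hcon
      have : ∑ g, ‖X₁ g‖ ^ 2 = 0 := Finset.sum_eq_zero fun g _ => by rw [hcon g]; simp
      rw [this] at h1
      exact hcard.ne h1
    exact Finset.sum_pos' (fun g _ => by positivity) ⟨g, Finset.mem_univ g, by
      have := norm_pos_iff.mpr hg
      positivity⟩
  have hBle : B ≤ (1 / (Fintype.card G : ℝ)) * ∑ g, (1 / 2 + (‖X₁ g‖ ^ 2 + ‖X₂ g‖ ^ 2) / 4 -
        d / 8 * ‖X₁ g‖ ^ 4) := by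
    refine le_of_tendsto_of_tendsto hB hM.2 ?_
    filter_upwards [eventually_gt_atTop 0] with X hX
    refine mul_le_mul_of_nonneg_left ?_ (inv_pos.mpr hX).le
    have hc : Continuous fun u => (∑ g : G, |R (X₁ g) t₁ u + R (X₂ g) t₂ u|) /
        (Fintype.card G : ℝ) := by
      refine Continuous.div_const ?_ _
      refine continuous_finsetSum _ fun g _ => ?_
      exact ((R_cont _ _).add (R_cont _ _)).abs
    refine intervalIntegral.integral_mono_on hX.le (hc.intervalIntegrable _ _)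
      (hM.1.intervalIntegrable _ _) fun u _ => ?_
    rw [div_eq_inv_mul, one_div]
    exact mul_le_mul_of_nonneg_left (Finset.sum_le_sum fun g _ => hle g u)
      (inv_pos.mpr hcard).le
  rw [hval] at hBle
  refine hBle.trans_lt ?_
  rw [mul_sub, one_div, inv_mul_cancel₀ hcard.ne']
  have : 0 < (Fintype.card G : ℝ)⁻¹ * (d / 8 * ∑ g, ‖X₁ g‖ ^ 4) := by positivity
  linarith

/-- The case of one frequency. -/
lemma lt_of_single {G : Type*} [Fintype G] [Nonempty G] (Y : G → ℂ) {t : ℝ} (ht : t ≠ 0)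
    (h : ∑ g, ‖Y g‖ ^ 2 = 2 * Fintype.card G) {B : ℝ}
    (hB : Tendsto (fun X : ℝ => X⁻¹ * ∫ u in (0 : ℝ)..X,
      (∑ g : G, |R (Y g) t u|) / Fintype.card G) atTop (𝓝 B)) : B < 1 := by
  have hcard : (0 : ℝ) < Fintype.card G := by exact_mod_cast Fintype.card_pos
  have h1 := tendsto_nhds_unique hB (mean_abs_single Y ht)
  rw [h1]
  have h2 : (∑ g, ‖Y g‖) ^ 2 ≤ (Fintype.card G : ℝ) * ∑ g, ‖Y g‖ ^ 2 := by
    have := sq_sum_le_card_mul_sum_sq (s := (Finset.univ : Finset G)) (f := fun g => ‖Y g‖)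
    simpa using this
  rw [h] at h2
  set S := (∑ g, ‖Y g‖) / (Fintype.card G : ℝ) with hS
  have hS0 : 0 ≤ S := div_nonneg (Finset.sum_nonneg fun _ _ => norm_nonneg _) hcard.le
  have h3 : S ^ 2 ≤ 2 := by
    rw [hS, div_pow, div_le_iff₀ (by positivity)]
    nlinarith [h2]
  have hpi : (3 : ℝ) < Real.pi := Real.pi_gt_three
  have h4 : 2 / Real.pi < 2 / 3 := by
    apply div_lt_div_of_pos_left <;> linarith
  have h5 : 0 < 2 / Real.pi := by positivity
  have h6 : S < 3 / 2 := by nlinarith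
  nlinarith

end V3

/-- V3: the mean value for two different (conjugate) pairs of characters and frequencies is smaller
than one. -/
theorem mean_pair_lt {G : Type*} [Fintype G] [Nonempty G] (X₁ X₂ : G → ℂ) {t₁ t₂ : ℝ}
    (ht₁ : t₁ ≠ 0) (ht₂ : t₂ ≠ 0)
    (h1 : ∑ g, ‖X₁ g‖ ^ 2 = Fintype.card G) (h2 : ∑ g, ‖X₂ g‖ ^ 2 = Fintype.card G)
    (h3 : t₁ = t₂ → ∑ g, X₁ g * (starRingEnd ℂ) (X₂ g) = 0)
    (h4 : t₁ = -t₂ → ∑ g, X₁ g * X₂ g = 0)
    {B : ℝ} (hB : Tendsto (fun X : ℝ => X⁻¹ * ∫ u in (0 : ℝ)..X,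
      (∑ g : G, |(X₁ g * Complex.exp (((-(t₁ * u) : ℝ) : ℂ) * Complex.I) +
        X₂ g * Complex.exp (((-(t₂ * u) : ℝ) : ℂ) * Complex.I)).re|) / Fintype.card G) atTop
      (𝓝 B)) : B < 1 := by
  have hB' : Tendsto (fun X : ℝ => X⁻¹ * ∫ u in (0 : ℝ)..X,
      (∑ g : G, |V3.R (X₁ g) t₁ u + V3.R (X₂ g) t₂ u|) / Fintype.card G) atTop (𝓝 B) := by
    simpa only [V3.R, Complex.add_re] using hB
  rcases eq_or_ne t₁ t₂ with he | hne
  · refine V3.lt_of_single (fun g => X₁ g + X₂ g) ht₁ ?_ (hB'.congr fun X => ?_)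
    · have e : ∀ g, ‖X₁ g + X₂ g‖ ^ 2 = ‖X₁ g‖ ^ 2 + ‖X₂ g‖ ^ 2 +
          2 * (X₁ g * (starRingEnd ℂ) (X₂ g)).re := by
        intro g
        rw [← Complex.normSq_eq_norm_sq, Complex.normSq_add, Complex.normSq_eq_norm_sq,
          Complex.normSq_eq_norm_sq]
      simp only [e, Finset.sum_add_distrib, h1, h2, ← Finset.mul_sum, ← Complex.re_sum, h3 he]
      simp
      ring
    · congr 1
      refine intervalIntegral.integral_congr fun u _ => ?_
      congr 1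
      refine Finset.sum_congr rfl fun g _ => ?_
      rw [← he]
      simp only [V3.R, add_mul, Complex.add_re]
  · rcases eq_or_ne t₁ (-t₂) with he' | hne'
    · refine V3.lt_of_single (fun g => X₁ g + (starRingEnd ℂ) (X₂ g)) ht₁ ?_
        (hB'.congr fun X => ?_)
      · have e : ∀ g, ‖X₁ g + (starRingEnd ℂ) (X₂ g)‖ ^ 2 = ‖X₁ g‖ ^ 2 + ‖X₂ g‖ ^ 2 +
            2 * (X₁ g * X₂ g).re := by
          intro g
          rw [← Complex.normSq_eq_norm_sq, Complex.normSq_add, Complex.normSq_eq_norm_sq,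
            Complex.normSq_conj, Complex.normSq_eq_norm_sq, Complex.conj_conj]
        simp only [e, Finset.sum_add_distrib, h1, h2, ← Finset.mul_sum, ← Complex.re_sum, h4 he']
        simp
        ring
      · congr 1
        refine intervalIntegral.integral_congr fun u _ => ?_
        congr 1
        refine Finset.sum_congr rfl fun g _ => ?_
        have : t₂ = -t₁ := by linarith
        rw [this]
        simp only [V3.R_eq, Complex.add_re, Complex.add_im, Complex.conj_re, Complex.conj_im,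
          neg_mul, Real.cos_neg, Real.sin_neg]
        congr 1
        ring
    · have habs : |t₁| ≠ |t₂| := fun h => by
        rcases abs_eq_abs.mp h with h | h
        · exact hne h
        · exact hne' h
      rcases lt_or_gt_of_ne habs with h | h
      · refine V3.lt_of_abs_lt X₂ X₁ ht₁ h h2 h1 (hB'.congr fun X => ?_)
        congr 1
        refine intervalIntegral.integral_congr fun u _ => ?_
        congr 1
        refine Finset.sum_congr rfl fun g _ => ?_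
        rw [add_comm]
      · exact V3.lt_of_abs_lt X₁ X₂ ht₂ h h1 h2 hB'

end Pool.Agent.Lib.MP_bf61d2_nt.Artin
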