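import Mathlib
import Pool.Agent.Lib.MP_bf61d2_nt.Trim.Artin.Defs63
import Pool.Agent.Lib.MP_bf61d2_nt.Trim.Places
import Pool.Agent.Lib.MP_bf61d2_nt.Trim.Quad

set_option autoImplicit false

/-!
Twists of the L-function of an elliptic curve over a number field by complex representations of
finite Galois groups: self-contained definitions, and the comparison with the library.
-/

namespace NumberField
end NumberField

namespace Pool.Agent.Lib.MP_bf61d2_nt.Perm
end Pool.Agent.Lib.MP_bf61d2_nt.Perm

namespace Pool.Agent.Lib.MP_bf61d2_nt.Artin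

open NumberField IsDedekindDomain Filter Topology Polynomial Module

open Pool.Agent.Lib.MP_bf61d2_nt.Perm

variable {K M : Type*} [Field K] [NumberField K] [Field M] [NumberField M] [Algebra K M]

/-- `g` is a Frobenius element at the finite place `v`: for some prime `P` of `M` above `v` it acts
modulo `P` as `x ↦ x ^ q`, where `q` is the norm of `v`. -/
def IsFrobenius (v : HeightOneSpectrum (𝓞 K)) (g : Gal(M/K)) : Prop :=
  ∃ P : Ideal (𝓞 M), P.IsPrime ∧ P.comap (algebraMap (𝓞 K) (𝓞 M)) = v.asIdeal ∧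
    ∀ x : 𝓞 M, g • x - x ^ Ideal.absNorm v.asIdeal ∈ P

/-- The L-function of `E ⊗ ρ` without the Euler factors at the places in `S`: the product over the
places `v` outside `S` of `det (L_v (q ^ (-s) ρ (Fr v)))⁻¹`, where `L_v` is the local polynomial of
`E` at `v` and `q` the norm of `v`. -/
noncomputable def twistL {V : Type*} [AddCommGroup V] [Module ℂ V] (E : WeierstrassCurve K)
    (ρ : Representation ℂ Gal(M/K) V) (Fr : HeightOneSpectrum (𝓞 K) → Gal(M/K))
    (S : Set (HeightOneSpectrum (𝓞 K))) (s : ℂ) : ℂ :=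
  ∏' v : {v : HeightOneSpectrum (𝓞 K) // v ∉ S},
    (LinearMap.det (aeval (((Ideal.absNorm v.1.asIdeal : ℂ) ^ (-s)) • ρ (Fr v.1))
      ((E.baseChange (v.1.adicCompletion K)).localPolynomial
        (v.1.adicCompletionIntegers K))))⁻¹

lemma IsFrobenius.isFr {v : HeightOneSpectrum (𝓞 K)} {g : Gal(M/K)} (h : IsFrobenius v g) :
    IsFr v g := by
  obtain ⟨P, hP, hPv, hx⟩ := h
  have hne : P ≠ ⊥ := by
    rintro rfl
    apply v.ne_bot
    rw [← hPv]
    ext x
    rw [Ideal.mem_comap, Ideal.mem_bot, Ideal.mem_bot]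
    exact map_eq_zero_iff _ (FaithfulSMul.algebraMap_injective (𝓞 K) (𝓞 M))
  exact ⟨⟨P, hP, hne⟩, HeightOneSpectrum.ext hPv, hx⟩

variable [IsGalois K M]

end Pool.Agent.Lib.MP_bf61d2_nt.Artin
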